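import Pool.Agent.Lib.MP_69e010_mp.QDefs

/-!
# Stream G of MP_69e010_mp: adding an electron. Definitions.
-/

open MeasureTheory Metric Finset Filter Topology

noncomputable section

namespace Ion

variable {n : ℕ}

/-- antisymmetrization of a function which is already antisymmetric in the electrons `1, …, n` -/
def asymG (F : RW (n + 1)) : RW (n + 1) := fun σ X =>
  ∑ i : Fin (n + 1), ((Equiv.Perm.sign (Equiv.swap 0 i) : ℤ) : ℝ)
    * F (σ ∘ Equiv.swap 0 i) (X ∘ Equiv.swap 0 i)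

/-- antisymmetry under the permutations which fix electron `0` -/
def Anti0 (F : RW (n + 1)) : Prop :=
  ∀ (π : Equiv.Perm (Fin (n + 1))) (σ : Spin (n + 1)) (X : Conf (n + 1)), π 0 = 0 →
    F (σ ∘ π) (X ∘ π) = ((Equiv.Perm.sign π : ℤ) : ℝ) * F σ X

/-- electron `0` is in `T`, all the others are outside `T` -/
def Sep (T : Set E3) (F : RW (n + 1)) : Prop :=
  ∀ σ X, X ∈ tsupport (F σ) → X 0 ∈ T ∧ ∀ i, i ≠ 0 → X i ∉ T

/-- the state `1_{σ₀ = 0} f(x₀) ψ(σ', X')` of `n + 1` electrons -/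
def extw (f : E3 → ℝ) (ψ : RW n) : RW (n + 1) := fun σ X =>
  if σ 0 = 0 then f (X 0) * ψ (fun k => σ k.succ) (fun k => X k.succ) else 0

/-- `|∇ f|²` for a function of one electron -/
def grd2 (f : E3 → ℝ) (w : E3) : ℝ := ∑ c : Fin 3, (fderiv ℝ f w (EuclideanSpace.single c (1 : ℝ))) ^ 2

/-- normalized hat function of radius `b` around `y` -/
def hat (y : E3) (b : ℝ) (w : E3) : ℝ :=
  √(15 / (2 * Real.pi * b ^ 3)) * max 0 (1 - ‖w - y‖ / b)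

/-- the probability density `σ_R(y) = 5 |y|² / (4 π R⁵)` on `|y| < R` -/
def sgR (R : ℝ) (y : E3) : ℝ := if ‖y‖ < R then 5 * ‖y‖ ^ 2 / (4 * Real.pi * R ^ 5) else 0

/-- cutoff profile, supported in `[1, 2]` -/
def thp (t : ℝ) : ℝ := (max 0 ((t - 1) * (2 - t))) ^ 2

/-- derivative of `thp` -/
def thd (t : ℝ) : ℝ := 2 * max 0 ((t - 1) * (2 - t)) * (3 - 2 * t)

/-- `∫_0^∞ s^{-(j+1)} G(1/s) ds` -/
def kAG (j : ℕ) (G : ℝ → ℝ) : ℝ := ∫ s in Set.Ioi (0 : ℝ), (s⁻¹) ^ (j + 1) * G s⁻¹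

/-- the cutoff at scale `b` -/
def cutb (D : Conf n → ℝ) (b : ℝ) (Y : Conf n) : ℝ := (√b)⁻¹ * thp (D Y / b)

/-- interaction of the added electron at `y` with an electron at `x` -/
def kapG (CB ρ : ℝ) (y x : E3) : ℝ :=
  ‖x - y‖⁻¹ + (if ‖x - y‖ < 4 * ρ then 16 * CB * (‖x - y‖⁻¹) ^ 2 else 0)

/-- `ρ(y) = min (|y|/8, e |y|²)` -/
def rho (e : ℝ) (y : E3) : ℝ := min (‖y‖ / 8) (e * ‖y‖ ^ 2)

end Ion
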