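import Pool.Agent.Lib.MP_69e010_mp.QTools
import Pool.Agent.Lib.MP_69e010_mp.G.GDefs

/-!
# JOB GA1 (stream G of MP_69e010_mp): antisymmetrization

* `LipC.comp_perm`: `X ↦ X ∘ π` is an isometry of `Conf N` (sup norm), a homeomorphism: Lipschitz with the same constant, compact support.
* `asym_anti`: write `s_i = swap 0 i`, `ε_i = sign s_i`. `asymG F (σ ∘ τ) (X ∘ τ) = ∑_i ε_i F (σ ∘ τ ∘ s_i) (X ∘ τ ∘ s_i)`. The permutation `τ * s_i` maps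
  `0` to `j := τ i`; `τ * s_i = s_j * ρ` with `ρ = s_j * τ * s_i`, `ρ 0 = 0`, `sign ρ = ε_j sign τ ε_i`. By `Anti0` (with `σ ∘ s_j`, `X ∘ s_j`)
  `F (σ ∘ s_j ∘ ρ) (X ∘ s_j ∘ ρ) = sign ρ F (σ ∘ s_j) (X ∘ s_j)`. So the sum is `∑_i ε_i ε_i ε_j sign τ F(σ ∘ s_j)(X ∘ s_j) = sign τ ∑_j ε_j F (σ ∘ s_j)(X ∘ s_j)`
  (reindex the sum by `τ : i ↦ j = τ i`, `ε_i² = 1`; `Equiv.sum_comp`). `σ ∘ τ ∘ s_i = σ ∘ ⇑(τ * s_i)` definitionally.
* `asym_lipC`: finite sum (`Finset.sum_induction` or induction with `LipC.add`, `LipC.const_mul`) of `LipC.comp_perm`.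
-/

open MeasureTheory Metric Finset Filter Topology

noncomputable section

namespace Ion

variable {n N : ℕ}

/-- relabelling of the electrons as a homeomorphism -/
def GA1_homeo (π : Equiv.Perm (Fin N)) : Conf N ≃ₜ Conf N where
  toFun := fun X => X ∘ π
  invFun := fun X => X ∘ π.symm
  left_inv := fun X => by
    funext i
    simp
  right_inv := fun X => by
    funext i
    simp
  continuous_toFun := continuous_pi fun i => continuous_apply (π i)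
  continuous_invFun := continuous_pi fun i => continuous_apply (π.symm i)

theorem LipC.comp_perm {F : Conf N → ℝ} (hF : LipC F) (π : Equiv.Perm (Fin N)) :
    LipC (fun X => F (X ∘ π)) := by
  obtain ⟨⟨K, hK⟩, hc⟩ := hF
  refine ⟨⟨K, ?_⟩, hc.comp_homeomorph (GA1_homeo π)⟩
  apply LipschitzWith.of_dist_le_mul
  intro X Y
  refine (hK.dist_le_mul (X ∘ π) (Y ∘ π)).trans ?_
  refine mul_le_mul_of_nonneg_left ?_ K.2
  rw [dist_pi_le_iff dist_nonneg]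
  intro i
  exact dist_le_pi_dist X Y (π i)

theorem LipC.sumG {ι : Type} (s : Finset ι) {F : ι → Conf N → ℝ} (hF : ∀ i ∈ s, LipC (F i)) :
    LipC (fun X => ∑ i ∈ s, F i X) := by
  classical
  induction s using Finset.induction_on with
  | empty =>
    simp only [Finset.sum_empty]
    exact ⟨⟨0, LipschitzWith.const 0⟩, HasCompactSupport.zero⟩
  | insert a s ha ih =>
    simp only [Finset.sum_insert ha]
    exact (hF a (Finset.mem_insert_self a s)).add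
      (ih fun i hi => hF i (Finset.mem_insert_of_mem hi))

theorem GA1_term {F : RW (n + 1)} (hA : Anti0 F) (τ : Equiv.Perm (Fin (n + 1))) (σ : Spin (n + 1))
    (X : Conf (n + 1)) (i : Fin (n + 1)) :
    ((Equiv.Perm.sign (Equiv.swap 0 i) : ℤ) : ℝ)
        * F ((σ ∘ τ) ∘ Equiv.swap 0 i) ((X ∘ τ) ∘ Equiv.swap 0 i)
      = ((Equiv.Perm.sign τ : ℤ) : ℝ) * (((Equiv.Perm.sign (Equiv.swap 0 (τ i)) : ℤ) : ℝ)
        * F (σ ∘ Equiv.swap 0 (τ i)) (X ∘ Equiv.swap 0 (τ i))) := by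
  set ρ : Equiv.Perm (Fin (n + 1)) := Equiv.swap 0 (τ i) * (τ * Equiv.swap 0 i) with hρ
  have h0 : ρ 0 = 0 := by
    rw [hρ, Equiv.Perm.mul_apply, Equiv.Perm.mul_apply, Equiv.swap_apply_left,
      Equiv.swap_apply_right]
  have h1 : Equiv.swap 0 (τ i) * ρ = τ * Equiv.swap 0 i := by
    rw [hρ, Equiv.swap_mul_self_mul]
  have h2 : (σ ∘ τ) ∘ Equiv.swap 0 i = (σ ∘ Equiv.swap 0 (τ i)) ∘ ρ := by
    have h3 : (σ ∘ Equiv.swap 0 (τ i)) ∘ ρ = σ ∘ ⇑(Equiv.swap 0 (τ i) * ρ) := rfl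
    rw [h3, h1]
    rfl
  have h4 : (X ∘ τ) ∘ Equiv.swap 0 i = (X ∘ Equiv.swap 0 (τ i)) ∘ ρ := by
    have h3 : (X ∘ Equiv.swap 0 (τ i)) ∘ ρ = X ∘ ⇑(Equiv.swap 0 (τ i) * ρ) := rfl
    rw [h3, h1]
    rfl
  have h5 : ((Equiv.Perm.sign ρ : ℤ) : ℝ) = ((Equiv.Perm.sign (Equiv.swap 0 (τ i)) : ℤ) : ℝ)
      * (((Equiv.Perm.sign τ : ℤ) : ℝ) * ((Equiv.Perm.sign (Equiv.swap 0 i) : ℤ) : ℝ)) := by
    rw [hρ, Equiv.Perm.sign_mul, Equiv.Perm.sign_mul, Units.val_mul, Units.val_mul]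
    push_cast
    ring
  have h6 : ((Equiv.Perm.sign (Equiv.swap 0 i) : ℤ) : ℝ)
      * ((Equiv.Perm.sign (Equiv.swap 0 i) : ℤ) : ℝ) = 1 := by
    exact_mod_cast Int.units_coe_mul_self (Equiv.Perm.sign (Equiv.swap 0 i))
  rw [h2, h4, hA ρ (σ ∘ Equiv.swap 0 (τ i)) (X ∘ Equiv.swap 0 (τ i)) h0, h5]
  linear_combination (((Equiv.Perm.sign (Equiv.swap 0 (τ i)) : ℤ) : ℝ) * ((Equiv.Perm.sign τ : ℤ) : ℝ)
    * F (σ ∘ Equiv.swap 0 (τ i)) (X ∘ Equiv.swap 0 (τ i))) * h6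

theorem asym_anti {F : RW (n + 1)} (hA : Anti0 F) : Anti (asymG F) := by
  intro τ σ X
  unfold asymG
  rw [Finset.sum_congr rfl fun i _ => GA1_term hA τ σ X i, ← Finset.mul_sum]
  congr 1
  exact Equiv.sum_comp τ (fun j => ((Equiv.Perm.sign (Equiv.swap 0 j) : ℤ) : ℝ)
    * F (σ ∘ Equiv.swap 0 j) (X ∘ Equiv.swap 0 j))

theorem asym_adms {F : RW (n + 1)} (hF : ∀ σ, LipC (F σ)) (hA : Anti0 F) : Adms (asymG F) := by
  refine ⟨fun σ => ?_, asym_anti hA⟩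
  exact LipC.sumG univ fun i _ => ((hF (σ ∘ Equiv.swap 0 i)).comp_perm (Equiv.swap 0 i)).const_mul _

end Ion
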