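import Pool.Agent.Lib.MP_69e010_mp.G.GA1

/-!
# JOB GA2 (stream G of MP_69e010_mp): norm and energy of the antisymmetrization

`s_i = swap 0 i`. For `i ≠ j` the closed sets `S_i := {X | ∃ σ, X ∘ s_i ∈ tsupport (F (σ ∘ s_i))}` are disjoint: `(X ∘ s_i) 0 = X i`, so `X ∈ S_i` gives `X i ∈ T` and
`X k ∉ T` for `k ≠ i` (every `k ≠ i` is `s_i l` with `l ≠ 0`). So near every point `X` at most one of the summands `F_i := ε_i F (σ ∘ s_i) (· ∘ s_i)` is not
identically `0`, hence POINTWISE (every `X`)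
`(asymG F σ X)² = ∑_i (F (σ ∘ s_i) (X ∘ s_i))²` and `gsq k (asymG F σ) X = ∑_i gsq k (fun X => F (σ ∘ s_i) (X ∘ s_i)) X`
(if `X ∉ S_i` for all `i ≠ i₀` then `asymG F σ =ᶠ[𝓝 X] ε_{i₀} F(σ ∘ s_{i₀})(· ∘ s_{i₀})` because the other `tsupport`s are closed; `Filter.EventuallyEq.fderiv_eq`; `ε² = 1`;
the other `gsq` vanish by `pd_eq_zero`).
Chain rule for the linear isometry `X ↦ X ∘ π`: `gsq k (fun X => G (X ∘ π)) X = gsq (π⁻¹ k) G (X ∘ π)` (the derivative of `X ↦ X ∘ π` sends `Pi.single k e` to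
`Pi.single (π⁻¹ k) e`; use a `ContinuousLinearEquiv` and `comp_right_fderiv`: no differentiability needed; compare `aux_HF_gsq`). So `∑_k` is unchanged.
`V z (X ∘ π) = V z X` (`Vee` is symmetric: `2 Vee X = ∑_{i ≠ j} ‖X i - X j‖⁻¹`). `X ↦ X ∘ π` is measure preserving (`volume_measurePreserving_piCongrLeft` or
`MeasureTheory.volume_preserving_arrowCongr'`); `∑_σ` is reindexed by `σ ↦ σ ∘ π`. Sum over `i ∈ Fin (n+1)`: factor `n + 1`.
`EN_le_sep`: apply `EN_le` to `asymG F` and divide by `n + 1`.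
-/

open MeasureTheory Metric Finset Filter Topology

noncomputable section

namespace Ion

variable {n N : ℕ}

theorem GA2_Vee (X : Conf N) : 2 * Vee X = ∑ i, ∑ j, ‖X i - X j‖⁻¹ := by
  have h1 : ∀ i j : Fin N, ‖X i - X j‖⁻¹
      = (if i < j then ‖X i - X j‖⁻¹ else 0) + (if j < i then ‖X j - X i‖⁻¹ else 0) := by
    intro i j
    rcases lt_trichotomy i j with h | h | h
    · rw [if_pos h, if_neg (not_lt.2 h.le), add_zero]
    · subst h
      simp
    · rw [if_neg (not_lt.2 h.le), if_pos h, zero_add, norm_sub_rev]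
  have h2 : Vee X = ∑ i, ∑ j, (if i < j then ‖X i - X j‖⁻¹ else 0) := by
    unfold Vee
    refine Finset.sum_congr rfl fun i _ => ?_
    rw [Finset.sum_filter]
  have h3 : ∑ i, ∑ j, (if j < i then ‖X j - X i‖⁻¹ else 0) = Vee X := by
    rw [h2, Finset.sum_comm]
  calc 2 * Vee X = (∑ i, ∑ j, (if i < j then ‖X i - X j‖⁻¹ else 0))
        + ∑ i, ∑ j, (if j < i then ‖X j - X i‖⁻¹ else 0) := by rw [h3, ← h2]; ring
    _ = ∑ i, ∑ j, ((if i < j then ‖X i - X j‖⁻¹ else 0) + (if j < i then ‖X j - X i‖⁻¹ else 0)) := by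
        rw [← Finset.sum_add_distrib]
        refine Finset.sum_congr rfl fun i _ => ?_
        rw [← Finset.sum_add_distrib]
    _ = _ := by
        refine Finset.sum_congr rfl fun i _ => Finset.sum_congr rfl fun j _ => (h1 i j).symm

theorem V_permG (z : ℝ) (X : Conf N) (π : Equiv.Perm (Fin N)) : V z (X ∘ π) = V z X := by
  have h1 := GA2_Vee X
  have h2 := GA2_Vee (X ∘ π)
  have h3 : ∑ i, ∑ j, ‖(X ∘ π) i - (X ∘ π) j‖⁻¹ = ∑ i, ∑ j, ‖X i - X j‖⁻¹ := by
    rw [← Equiv.sum_comp π (fun i => ∑ j, ‖X i - X j‖⁻¹)]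
    refine Finset.sum_congr rfl fun i _ => ?_
    exact Equiv.sum_comp π (fun j => ‖X (π i) - X j‖⁻¹)
  have h4 : Ven (X ∘ π) = Ven X := Equiv.sum_comp π (fun i => ‖X i‖⁻¹)
  have h5 : Vee (X ∘ π) = Vee X := by linarith
  rw [V, V, h4, h5]

theorem GA2_mp (π : Equiv.Perm (Fin N)) :
    MeasurePreserving (MeasurableEquiv.arrowCongr' π.symm (MeasurableEquiv.refl E3))
      (volume : Measure (Conf N)) (volume : Measure (Conf N)) :=
  volume_preserving_arrowCongr' π.symm (MeasurableEquiv.refl E3) (MeasurePreserving.id _)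

theorem GA2_int {G : Conf N → ℝ} (hG : Integrable G) (π : Equiv.Perm (Fin N)) :
    Integrable (fun X : Conf N => G (X ∘ π)) :=
  ((GA2_mp π).integrable_comp_emb (MeasurableEquiv.measurableEmbedding _) (g := G)).2 hG

theorem integral_perm (G : Conf N → ℝ) (π : Equiv.Perm (Fin N)) : ∫ X, G (X ∘ π) = ∫ X, G X := by
  exact (GA2_mp π).integral_comp' (g := G)

/-- the linear equivalence `X ↦ X ∘ π` -/
def GA2_A (π : Equiv.Perm (Fin N)) : Conf N ≃L[ℝ] Conf N :=
  (LinearEquiv.funCongrLeft ℝ E3 π).toContinuousLinearEquiv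

theorem gsq_perm (G : Conf N → ℝ) (π : Equiv.Perm (Fin N)) (X : Conf N) (k : Fin N) :
    gsq k (fun X => G (X ∘ π)) X = gsq (π⁻¹ k) G (X ∘ π) := by
  have h1 : (fun X => G (X ∘ π)) = G ∘ GA2_A π := rfl
  unfold gsq
  refine Finset.sum_congr rfl fun c _ => ?_
  congr 1
  unfold pd
  rw [h1, ContinuousLinearEquiv.comp_right_fderiv, ContinuousLinearMap.comp_apply]
  have h2 : (GA2_A π : Conf N →L[ℝ] Conf N) (Pi.single k (EuclideanSpace.single c (1 : ℝ)))
      = Pi.single (π⁻¹ k) (EuclideanSpace.single c (1 : ℝ)) := by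
    show (Pi.single k (EuclideanSpace.single c (1 : ℝ)) : Conf N) ∘ π = _
    funext j
    rw [Function.comp_apply]
    by_cases hj : π j = k
    · subst hj
      rw [Pi.single_eq_same]
      have : π⁻¹ (π j) = j := by simp
      rw [this, Pi.single_eq_same]
    · rw [Pi.single_eq_of_ne hj, Pi.single_eq_of_ne]
      rintro rfl
      apply hj
      simp
  rw [h2]
  rfl

/-- sum over the permuted copies -/
theorem GA2_sum (W : RW (n + 1)) (hW : ∀ σ, Integrable (W σ)) :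
    ∑ σ, ∫ X, ∑ i : Fin (n + 1), W (σ ∘ Equiv.swap 0 i) (X ∘ Equiv.swap 0 i) = (n + 1) * ∑ σ, ∫ X, W σ X := by
  have h1 : ∀ σ : Spin (n + 1), ∫ X, ∑ i : Fin (n + 1), W (σ ∘ Equiv.swap 0 i) (X ∘ Equiv.swap 0 i)
      = ∑ i : Fin (n + 1), ∫ X, W (σ ∘ Equiv.swap 0 i) X := by
    intro σ
    rw [integral_finsetSum _ (fun i _ => GA2_int (hW _) _)]
    refine Finset.sum_congr rfl fun i _ => ?_
    exact integral_perm (fun X => W (σ ∘ Equiv.swap 0 i) X) (Equiv.swap 0 i)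
  rw [Finset.sum_congr rfl fun σ _ => h1 σ, Finset.sum_comm]
  have h2 : ∀ i : Fin (n + 1), ∑ σ : Spin (n + 1), ∫ X, W (σ ∘ Equiv.swap 0 i) X = ∑ σ, ∫ X, W σ X := by
    intro i
    exact Equiv.sum_comp (Equiv.arrowCongr (Equiv.swap 0 i).symm (Equiv.refl (Fin 2))) (fun σ => ∫ X, W σ X)
  rw [Finset.sum_congr rfl fun i _ => h2 i, Finset.sum_const, Finset.card_univ, Fintype.card_fin, nsmul_eq_mul]
  push_cast
  ring

theorem GA2_tsupp {F : RW (n + 1)} {T : Set E3} (hT : Sep T F) (σ : Spin (n + 1)) (X : Conf (n + 1))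
    (i : Fin (n + 1)) (h : X ∈ tsupport (fun X : Conf (n + 1) => F (σ ∘ Equiv.swap 0 i) (X ∘ Equiv.swap 0 i))) :
    X i ∈ T ∧ ∀ k, k ≠ i → X k ∉ T := by
  have hc : Continuous (fun X : Conf (n + 1) => X ∘ Equiv.swap 0 i) :=
    continuous_pi fun j => continuous_apply _
  have h1 : X ∘ Equiv.swap 0 i ∈ tsupport (F (σ ∘ Equiv.swap 0 i)) := by
    exact hc.closure_preimage_subset _ h
  obtain ⟨h2, h3⟩ := hT _ _ h1
  rw [Function.comp_apply, Equiv.swap_apply_left] at h2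
  refine ⟨h2, fun k hk => ?_⟩
  have h4 := h3 (Equiv.swap 0 i k) (by
    intro h0
    apply hk
    have := congrArg (Equiv.swap (0 : Fin (n + 1)) i) h0
    rw [Equiv.swap_apply_self, Equiv.swap_apply_left] at this
    exact this)
  rwa [Function.comp_apply, Equiv.swap_apply_self] at h4

theorem GA2_exists {F : RW (n + 1)} {T : Set E3} (hT : Sep T F) (σ : Spin (n + 1)) (X : Conf (n + 1)) :
    ∃ i₀ : Fin (n + 1), ∀ i, i ≠ i₀ →
      X ∉ tsupport (fun X : Conf (n + 1) => F (σ ∘ Equiv.swap 0 i) (X ∘ Equiv.swap 0 i)) := by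
  by_cases hex : ∃ i₀ : Fin (n + 1),
      X ∈ tsupport (fun X : Conf (n + 1) => F (σ ∘ Equiv.swap 0 i₀) (X ∘ Equiv.swap 0 i₀))
  · obtain ⟨i₀, hi₀⟩ := hex
    refine ⟨i₀, fun i hi hmem => ?_⟩
    exact (GA2_tsupp hT σ X i₀ hi₀).2 i hi (GA2_tsupp hT σ X i hmem).1
  · push Not at hex
    exact ⟨0, fun i _ => hex i⟩

theorem GA2_sign_sq (i : Fin (n + 1)) :
    (((Equiv.Perm.sign (Equiv.swap 0 i) : ℤ) : ℝ)) = 1 ∨ (((Equiv.Perm.sign (Equiv.swap 0 i) : ℤ) : ℝ)) = -1 := by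
  rcases Int.units_eq_one_or (Equiv.Perm.sign (Equiv.swap 0 i)) with h | h
  · left
    rw [h]
    norm_num
  · right
    rw [h]
    norm_num

theorem GA2_point {F : RW (n + 1)} {T : Set E3} (hT : Sep T F) (σ : Spin (n + 1)) (X : Conf (n + 1)) :
    (asymG F σ X) ^ 2 = ∑ i : Fin (n + 1), (F (σ ∘ Equiv.swap 0 i) (X ∘ Equiv.swap 0 i)) ^ 2 ∧
    ∀ k, gsq k (asymG F σ) X
      = ∑ i : Fin (n + 1), gsq k (fun X : Conf (n + 1) => F (σ ∘ Equiv.swap 0 i) (X ∘ Equiv.swap 0 i)) X := by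
  obtain ⟨i₀, h0⟩ := GA2_exists hT σ X
  have hev : asymG F σ =ᶠ[𝓝 X] fun X : Conf (n + 1) => ((Equiv.Perm.sign (Equiv.swap 0 i₀) : ℤ) : ℝ)
      * F (σ ∘ Equiv.swap 0 i₀) (X ∘ Equiv.swap 0 i₀) := by
    have h1 : ∀ᶠ Z in 𝓝 X, ∀ i : Fin (n + 1), i ≠ i₀ →
        F (σ ∘ Equiv.swap 0 i) (Z ∘ Equiv.swap 0 i) = 0 := by
      rw [Filter.eventually_all]
      intro i
      by_cases hi : i = i₀
      · exact Filter.Eventually.of_forall fun Z h => absurd hi h
      · have := notMem_tsupport_iff_eventuallyEq.1 (h0 i hi)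
        filter_upwards [this] with Z hZ _
        exact hZ
    filter_upwards [h1] with Z hZ
    unfold asymG
    rw [Finset.sum_eq_single i₀]
    · intro i _ hi
      rw [hZ i hi, mul_zero]
    · intro h
      exact absurd (Finset.mem_univ _) h
  constructor
  · rw [hev.eq_of_nhds, Finset.sum_eq_single i₀]
    · rcases GA2_sign_sq i₀ with h | h <;> rw [h] <;> ring
    · intro i _ hi
      rw [image_eq_zero_of_notMem_tsupport (h0 i hi)]
      norm_num
    · intro h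
      exact absurd (Finset.mem_univ _) h
  · intro k
    rw [Finset.sum_eq_single i₀]
    · unfold gsq pd
      rw [hev.fderiv_eq]
      rcases GA2_sign_sq i₀ with h | h
      · rw [h]
        simp only [one_mul]
      · rw [h]
        simp only [neg_mul, one_mul, fderiv_fun_neg, neg_apply, neg_sq]
    · intro i _ hi
      unfold gsq
      refine Finset.sum_eq_zero fun c _ => ?_
      rw [pd_eq_zero (h0 i hi)]
      norm_num
    · intro h
      exact absurd (Finset.mem_univ _) h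

theorem nrm2_asym {F : RW (n + 1)} (hF : ∀ σ, LipC (F σ)) {T : Set E3} (hT : Sep T F) :
    nrm2 (asymG F) = (n + 1) * nrm2 F := by
  unfold nrm2
  rw [← GA2_sum (fun σ X => (F σ X) ^ 2) (fun σ => (hF σ).integrable_sq)]
  refine Finset.sum_congr rfl fun σ _ => ?_
  refine integral_congr_ae (Filter.Eventually.of_forall fun X => ?_)
  exact (GA2_point hT σ X).1

theorem TT_asym {F : RW (n + 1)} (hF : ∀ σ, LipC (F σ)) {T : Set E3} (hT : Sep T F) :
    TT (asymG F) = (n + 1) * TT F := by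
  unfold TT
  rw [← GA2_sum (fun σ X => ∑ k, gsq k (F σ) X)
    (fun σ => integrable_finsetSum _ fun k _ => (hF σ).integrable_gsq k)]
  refine Finset.sum_congr rfl fun σ _ => ?_
  refine integral_congr_ae (Filter.Eventually.of_forall fun X => ?_)
  show ∑ k, gsq k (asymG F σ) X = ∑ i : Fin (n + 1), ∑ k, gsq k (F (σ ∘ Equiv.swap 0 i)) (X ∘ Equiv.swap 0 i)
  rw [Finset.sum_congr rfl fun k _ => (GA2_point hT σ X).2 k, Finset.sum_comm]
  refine Finset.sum_congr rfl fun i _ => ?_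
  rw [Finset.sum_congr rfl fun k _ => gsq_perm (F (σ ∘ Equiv.swap 0 i)) (Equiv.swap 0 i) X k]
  exact Equiv.sum_comp ((Equiv.swap 0 i)⁻¹ : Equiv.Perm (Fin (n + 1)))
    (fun k => gsq k (F (σ ∘ Equiv.swap 0 i)) (X ∘ Equiv.swap 0 i))

theorem qf_asym {z : ℝ} {F : RW (n + 1)} (hF : ∀ σ, LipC (F σ)) {T : Set E3} (hT : Sep T F) :
    qf z (asymG F) = (n + 1) * qf z F := by
  unfold qf
  rw [TT_asym hF hT, mul_add, ← GA2_sum (fun σ X => V z X * (F σ X) ^ 2) (fun σ => (hF σ).integrable_V z)]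
  congr 1
  refine Finset.sum_congr rfl fun σ _ => ?_
  refine integral_congr_ae (Filter.Eventually.of_forall fun X => ?_)
  show V z X * (asymG F σ X) ^ 2
    = ∑ i : Fin (n + 1), V z (X ∘ Equiv.swap 0 i) * (F (σ ∘ Equiv.swap 0 i) (X ∘ Equiv.swap 0 i)) ^ 2
  rw [(GA2_point hT σ X).1, Finset.mul_sum]
  refine Finset.sum_congr rfl fun i _ => ?_
  rw [V_permG]

end Ion
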