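import Pool.Agent.Lib.MP_69e010_mp.MApi
import Pool.Agent.Lib.MP_69e010_mp.G.GA2

/-!
# Stream G of MP_69e010_mp: the antisymmetrization inequality (done)
-/

open MeasureTheory Metric Finset Filter Topology

noncomputable section

namespace Ion

variable {n N : ℕ}

theorem EN_le_sep {z : ℝ} (hz : 0 < z) {F : RW (n + 1)} (hF : ∀ σ, LipC (F σ)) (hA : Anti0 F)
    {T : Set E3} (hT : Sep T F) : EN z (n + 1) * nrm2 F ≤ qf z F := by
  have h := EN_le hz (asym_adms hF hA)
  rw [nrm2_asym hF hT, qf_asym hF hT] at h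
  have hn : (0 : ℝ) < n + 1 := by positivity
  have h2 : (n + 1 : ℝ) * (EN z (n + 1) * nrm2 F) ≤ (n + 1 : ℝ) * qf z F := by linarith
  exact le_of_mul_le_mul_left h2 hn

end Ion
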