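import Pool.Agent.Lib.MP_69e010_mp.QTools
import Pool.Agent.Lib.MP_69e010_mp.G.GDefs

/-!
# JOB GB1 (stream G of MP_69e010_mp): the product state `extw f ψ`

* `extw_lipC`: `X ↦ f (X 0)` and `X ↦ ψ _ (fun k => X k.succ)` are bounded and Lipschitz (the projections are 1-Lipschitz for the sup norm), so the product is
  Lipschitz; support: `‖X 0‖ ≤ R₁` and `‖(X k.succ)_k‖ ≤ R₂` on the support, so it is in a closed ball (`HasCompactSupport.of_support_subset_isCompact` or
  `HasCompactSupport.intro`). If `σ 0 ≠ 0` the function is `0`.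
* `extw_anti0`: a permutation `π` of `Fin (n+1)` with `π 0 = 0` is `Equiv.Perm.decomposeFin.symm (0, e)`; `π k.succ = (e k).succ`, `sign π = sign e`
  (`Equiv.Perm.decomposeFin.symm_sign`). Then `ψ (σ' ∘ e) (Y ∘ e) = sign e ψ σ' Y`.
* `extw_tsupport`: the set on the right is closed and contains the support.
-/

open MeasureTheory Metric Finset Filter Topology

noncomputable section

namespace Ion

variable {n : ℕ}

theorem GB1_dist (X Y : Conf (n + 1)) : dist (fun k : Fin n => X k.succ) (fun k : Fin n => Y k.succ) ≤ dist X Y := by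
  rw [dist_pi_le_iff dist_nonneg]
  intro k
  exact dist_le_pi_dist X Y k.succ

theorem extw_lipC {f : E3 → ℝ} {K : NNReal} (hf : LipschitzWith K f) (hfc : HasCompactSupport f)
    {ψ : RW n} (hψ : ∀ σ, LipC (ψ σ)) (σ : Spin (n + 1)) : LipC (extw f ψ σ) := by
  by_cases hσ : σ 0 = 0
  · obtain ⟨Cf, hCf⟩ := hfc.exists_bound_of_continuous hf.continuous
    obtain ⟨⟨L, hL⟩, hLc⟩ := hψ (fun k => σ k.succ)
    obtain ⟨C, hC0, hC⟩ := (hψ (fun k => σ k.succ)).bdd
    have hCf0 : 0 ≤ Cf := (norm_nonneg _).trans (hCf 0)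
    have hval : ∀ X : Conf (n + 1), extw f ψ σ X = f (X 0) * ψ (fun k => σ k.succ) (fun k => X k.succ) :=
      fun X => if_pos hσ
    refine ⟨⟨Real.toNNReal (Cf * L + K * C), ?_⟩, ?_⟩
    · refine LipschitzWith.of_dist_le_mul fun X Y => ?_
      rw [hval, hval, Real.coe_toNNReal _ (by positivity), Real.dist_eq]
      have h1 : |ψ (fun k => σ k.succ) (fun k => X k.succ) - ψ (fun k => σ k.succ) (fun k => Y k.succ)|
          ≤ L * dist X Y := by
        rw [← Real.dist_eq]
        exact (hL.dist_le_mul _ _).trans (mul_le_mul_of_nonneg_left (GB1_dist X Y) L.coe_nonneg)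
      have h2 : |f (X 0) - f (Y 0)| ≤ K * dist X Y := by
        rw [← Real.dist_eq]
        exact (hf.dist_le_mul _ _).trans (mul_le_mul_of_nonneg_left (dist_le_pi_dist X Y 0) K.coe_nonneg)
      have h3 : |f (X 0)| ≤ Cf := hCf (X 0)
      have h4 := hC (fun k => Y k.succ)
      have h5 : f (X 0) * ψ (fun k => σ k.succ) (fun k => X k.succ)
          - f (Y 0) * ψ (fun k => σ k.succ) (fun k => Y k.succ)
          = f (X 0) * (ψ (fun k => σ k.succ) (fun k => X k.succ) - ψ (fun k => σ k.succ) (fun k => Y k.succ))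
            + (f (X 0) - f (Y 0)) * ψ (fun k => σ k.succ) (fun k => Y k.succ) := by ring
      rw [h5]
      refine (abs_add_le _ _).trans ?_
      rw [abs_mul, abs_mul]
      have h6 : |f (X 0)| * |ψ (fun k => σ k.succ) (fun k => X k.succ) - ψ (fun k => σ k.succ) (fun k => Y k.succ)|
          ≤ Cf * (L * dist X Y) := mul_le_mul h3 h1 (abs_nonneg _) hCf0
      have h7 : |f (X 0) - f (Y 0)| * |ψ (fun k => σ k.succ) (fun k => Y k.succ)| ≤ (K * dist X Y) * C :=
        mul_le_mul h2 h4 (abs_nonneg _) (by positivity)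
      linarith
    · obtain ⟨R1, hR1⟩ := (IsCompact.isBounded hfc).subset_closedBall (0 : E3)
      obtain ⟨R2, hR2⟩ := (IsCompact.isBounded hLc).subset_closedBall (0 : Conf n)
      refine HasCompactSupport.intro (isCompact_closedBall (0 : Conf (n + 1)) (max R1 R2)) fun X hX => ?_
      by_contra hne
      apply hX
      rw [hval] at hne
      have hf0 : f (X 0) ≠ 0 := left_ne_zero_of_mul hne
      have hψ0 : ψ (fun k => σ k.succ) (fun k => X k.succ) ≠ 0 := right_ne_zero_of_mul hne
      have h1 : ‖X 0‖ ≤ R1 := by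
        have := hR1 (subset_tsupport f hf0)
        rwa [mem_closedBall, dist_zero_right] at this
      have h2 : ‖(fun k => X k.succ : Conf n)‖ ≤ R2 := by
        have := hR2 (subset_tsupport _ hψ0)
        rwa [mem_closedBall, dist_zero_right] at this
      rw [mem_closedBall, dist_zero_right]
      have h0 : 0 ≤ max R1 R2 := (norm_nonneg _).trans (h1.trans (le_max_left _ _))
      rw [pi_norm_le_iff_of_nonneg h0]
      intro j
      refine Fin.cases ?_ (fun k => ?_) j
      · exact h1.trans (le_max_left _ _)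
      · exact ((norm_le_pi_norm (fun k => X k.succ : Conf n) k).trans h2).trans (le_max_right _ _)
  · have hval : extw f ψ σ = fun _ : Conf (n + 1) => (0 : ℝ) := funext fun X => if_neg hσ
    rw [hval]
    exact ⟨⟨0, LipschitzWith.const 0⟩, HasCompactSupport.intro isCompact_empty fun _ _ => rfl⟩

theorem GB1_perm (π : Equiv.Perm (Fin (n + 1))) (hπ : π 0 = 0) :
    ∃ e : Equiv.Perm (Fin n), (∀ k : Fin n, π k.succ = (e k).succ) ∧ Equiv.Perm.sign π = Equiv.Perm.sign e := by
  obtain ⟨⟨p, e⟩, hpe⟩ : ∃ q : Fin (n + 1) × Equiv.Perm (Fin n), Equiv.Perm.decomposeFin.symm q = π :=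
    ⟨Equiv.Perm.decomposeFin π, Equiv.symm_apply_apply _ _⟩
  have hp : p = 0 := by
    rw [← Equiv.Perm.decomposeFin_symm_apply_zero p e, hpe, hπ]
  subst hp
  refine ⟨e, fun k => ?_, ?_⟩
  · rw [← hpe, Equiv.Perm.decomposeFin_symm_apply_succ, Equiv.swap_self, Equiv.refl_apply]
  · rw [← hpe, Equiv.Perm.decomposeFin.symm_sign, if_pos rfl, one_mul]

theorem extw_anti0 (f : E3 → ℝ) {ψ : RW n} (hψ : Anti ψ) : Anti0 (extw f ψ) := by
  intro π σ X hπ
  obtain ⟨e, he, hs⟩ := GB1_perm π hπ
  have h1 : (σ ∘ π) 0 = σ 0 := by rw [Function.comp_apply, hπ]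
  have h2 : (X ∘ π) 0 = X 0 := by rw [Function.comp_apply, hπ]
  have h3 : (fun k : Fin n => (σ ∘ π) k.succ) = (fun k : Fin n => σ k.succ) ∘ e := by
    funext k
    rw [Function.comp_apply, Function.comp_apply, he]
  have h4 : (fun k : Fin n => (X ∘ π) k.succ) = (fun k : Fin n => X k.succ) ∘ e := by
    funext k
    rw [Function.comp_apply, Function.comp_apply, he]
  unfold extw
  rw [h1, h2, h3, h4, hψ e, hs]
  split_ifs
  · ring
  · rw [mul_zero]

theorem extw_tsupport {f : E3 → ℝ} {ψ : RW n} {σ : Spin (n + 1)} {X : Conf (n + 1)}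
    (hX : X ∈ tsupport (extw f ψ σ)) :
    X 0 ∈ tsupport f ∧ (fun k : Fin n => X k.succ) ∈ tsupport (ψ (fun k => σ k.succ)) := by
  have hc0 : Continuous (fun X : Conf (n + 1) => X 0) := continuous_apply 0
  have hc1 : Continuous (fun X : Conf (n + 1) => (fun k : Fin n => X k.succ)) :=
    continuous_pi fun k => continuous_apply _
  have h1 : Function.support (extw f ψ σ) ⊆ {X : Conf (n + 1) |
      X 0 ∈ tsupport f ∧ (fun k : Fin n => X k.succ) ∈ tsupport (ψ (fun k => σ k.succ))} := by
    intro Z hZ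
    rw [Function.mem_support] at hZ
    unfold extw at hZ
    split_ifs at hZ with hσ
    · exact ⟨subset_tsupport f (left_ne_zero_of_mul hZ), subset_tsupport _ (right_ne_zero_of_mul hZ)⟩
    · exact absurd rfl hZ
  have h2 : IsClosed {X : Conf (n + 1) |
      X 0 ∈ tsupport f ∧ (fun k : Fin n => X k.succ) ∈ tsupport (ψ (fun k => σ k.succ))} :=
    ((isClosed_tsupport f).preimage hc0).inter ((isClosed_tsupport _).preimage hc1)
  exact closure_minimal h1 h2 hX

end Ion
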