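import Pool.Agent.Lib.MP_69e010_mp.G.GB1

/-!
# JOB GB2 (stream G of MP_69e010_mp): norm and energies of the product state

`∑_{σ : Spin (n+1)} 1_{σ 0 = 0} H (σ ∘ succ) = ∑_{σ' : Spin n} H σ'` (`Fin.consEquiv`/`Fin.insertNthEquiv`, `Fintype.sum_equiv`, `Fintype.sum_prod_type`), and
`integral_insert (0 : Fin (n+1))` with `Fin.insertNth 0 w Y = Fin.cons w Y`: `(cons w Y) 0 = w`, `(cons w Y) k.succ = Y k`.
* `nrm2_extw`: `∫ (f w ψ Y)² = ∫ f² ∫ ψ²`.
* `TT_extw`: a.e. product rule is not needed: `gsq 0 (extw) (cons w Y) = grd2 f w * ψ(Y)²` (the function of `x₀` alone is `c · f`; `slice_fderiv` or directly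
  `fderiv` of `X ↦ f (X 0) ψ(..)` at points where both factors are differentiable) and `gsq k.succ (extw) (cons w Y) = f(w)² gsq k ψ Y`, for a.e. `X`.
* `V_extw`: `Vee (cons w Y) = Vee Y + ∑_k ‖Y k - w‖⁻¹` (the pairs `0 < k.succ`), `Ven (cons w Y) = ‖w‖⁻¹ + Ven Y`. Integrability: `LipC.integrable_Vee` etc. for
  `extw f ψ σ` (it is `LipC`), `integrable_inv_mul_pair`, `integrable_inv_mul`.
-/

open MeasureTheory Metric Finset Filter Topology

noncomputable section

namespace Ion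

variable {n : ℕ}

/-- the product function for a fixed spin -/
def GB2_F (f : E3 → ℝ) (ψ : RW n) (σ' : Spin n) : Conf (n + 1) → ℝ :=
  fun X => f (X 0) * ψ σ' (fun k => X k.succ)

theorem GB2_extw_cons (f : E3 → ℝ) (ψ : RW n) (σ' : Spin n) :
    extw f ψ (Fin.cons 0 σ') = GB2_F f ψ σ' := by
  funext X
  unfold extw GB2_F
  rw [if_pos (by simp)]
  rfl

theorem GB2_extw_ne (f : E3 → ℝ) (ψ : RW n) {σ : Spin (n + 1)} (h : σ 0 ≠ 0) :
    extw f ψ σ = fun _ => 0 := by
  funext X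
  unfold extw
  rw [if_neg h]

theorem GB2_lip {f : E3 → ℝ} {K : NNReal} (hf : LipschitzWith K f) (hfc : HasCompactSupport f)
    {ψ : RW n} (hψ : ∀ σ, LipC (ψ σ)) (σ' : Spin n) : LipC (GB2_F f ψ σ') := by
  rw [← GB2_extw_cons]
  exact extw_lipC hf hfc hψ _

theorem GB2_ins0 (w : E3) (Y : Conf n) : ((0 : Fin (n + 1)).insertNth w Y : Conf (n + 1)) 0 = w := by
  rw [Fin.insertNth_apply_same]

theorem GB2_insS (w : E3) (Y : Conf n) (k : Fin n) :
    ((0 : Fin (n + 1)).insertNth w Y : Conf (n + 1)) k.succ = Y k := by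
  have h := Fin.insertNth_apply_succAbove (α := fun _ : Fin (n + 1) => E3) (0 : Fin (n + 1)) w Y k
  rwa [Fin.succAbove_zero] at h

theorem GB2_F_ins (f : E3 → ℝ) (ψ : RW n) (σ' : Spin n) (w : E3) (Y : Conf n) :
    GB2_F f ψ σ' ((0 : Fin (n + 1)).insertNth w Y) = f w * ψ σ' Y := by
  unfold GB2_F
  simp only [GB2_ins0, GB2_insS]

theorem GB2_fubini {A : E3 → ℝ} {B : Conf n → ℝ}
    (hG : Integrable (fun X : Conf (n + 1) => A (X 0) * B (fun k => X k.succ))) :
    ∫ X : Conf (n + 1), A (X 0) * B (fun k => X k.succ) = (∫ w, A w) * ∫ Y, B Y := by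
  rw [integral_insert 0 hG]
  simp only [GB2_ins0, GB2_insS]
  have h : ∀ Y : Conf n, ∫ x : E3, A x * B Y = (∫ w, A w) * B Y := fun Y => integral_mul_const _ _
  simp only [h]
  exact integral_const_mul _ _

theorem GB2_ae {f : E3 → ℝ} {K : NNReal} (hf : LipschitzWith K f)
    {g : Conf n → ℝ} (hg : LipC g) :
    ∀ᵐ X : Conf (n + 1), DifferentiableAt ℝ f (X 0) ∧ DifferentiableAt ℝ g (fun k => X k.succ) := by
  have h1 : ∀ᵐ w : E3, DifferentiableAt ℝ f w := hf.ae_differentiableAt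
  obtain ⟨L, hL⟩ := hg.1
  have h2 : ∀ᵐ Y : Conf n, DifferentiableAt ℝ g Y := lip_ae_diff hL
  have h3 : ∀ᵐ p : E3 × Conf n ∂((volume : Measure E3).prod (volume : Measure (Conf n))),
      DifferentiableAt ℝ f p.1 := Measure.quasiMeasurePreserving_fst.ae h1
  have h4 : ∀ᵐ p : E3 × Conf n ∂((volume : Measure E3).prod (volume : Measure (Conf n))),
      DifferentiableAt ℝ g p.2 := Measure.quasiMeasurePreserving_snd.ae h2
  have h5 := (aux_hb1_mp (n := n) 0).quasiMeasurePreserving.ae (h3.and h4)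
  filter_upwards [h5] with X hX
  refine ⟨hX.1, ?_⟩
  have h6 := hX.2
  have h7 : ((MeasurableEquiv.piFinSuccAbove (fun _ : Fin (n + 1) => E3) 0) X).2 = fun k : Fin n => X k.succ := by
    funext k
    simp [MeasurableEquiv.piFinSuccAbove, Fin.tail]
  rwa [h7] at h6

theorem GB2_deriv {f : E3 → ℝ} {g : Conf n → ℝ} {X : Conf (n + 1)} (hf : DifferentiableAt ℝ f (X 0))
    (hg : DifferentiableAt ℝ g (fun k => X k.succ)) :
    (∀ c, pd 0 c (fun X : Conf (n + 1) => f (X 0) * g (fun k => X k.succ)) X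
      = g (fun k => X k.succ) * fderiv ℝ f (X 0) (EuclideanSpace.single c (1 : ℝ))) ∧
    (∀ (k : Fin n) (c : Fin 3), pd k.succ c (fun X : Conf (n + 1) => f (X 0) * g (fun k => X k.succ)) X
      = f (X 0) * pd k c g (fun k => X k.succ)) := by
  have h1 : HasFDerivAt (fun X : Conf (n + 1) => f (X 0))
      ((fderiv ℝ f (X 0)).comp (ContinuousLinearMap.proj (R := ℝ) (φ := fun _ : Fin (n + 1) => E3) 0)) X :=
    hf.hasFDerivAt.comp X
      (ContinuousLinearMap.proj (R := ℝ) (φ := fun _ : Fin (n + 1) => E3) 0).hasFDerivAt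
  have h2 : HasFDerivAt (fun X : Conf (n + 1) => g (fun k => X k.succ))
      ((fderiv ℝ g (fun k => X k.succ)).comp (ContinuousLinearMap.pi (fun k : Fin n =>
        ContinuousLinearMap.proj (R := ℝ) (φ := fun _ : Fin (n + 1) => E3) k.succ))) X :=
    HasFDerivAt.comp X (g := g) (f := fun X : Conf (n + 1) => fun k : Fin n => X k.succ) hg.hasFDerivAt
      (ContinuousLinearMap.pi (fun k : Fin n =>
        ContinuousLinearMap.proj (R := ℝ) (φ := fun _ : Fin (n + 1) => E3) k.succ)).hasFDerivAt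
  have h3 := (h1.fun_mul h2).fderiv
  have h4 : ∀ v : E3, (ContinuousLinearMap.pi (fun k : Fin n =>
      ContinuousLinearMap.proj (R := ℝ) (φ := fun _ : Fin (n + 1) => E3) k.succ))
        (Pi.single (0 : Fin (n + 1)) v : Conf (n + 1)) = 0 := by
    intro v
    funext k
    simp
  have h5 : ∀ (k : Fin n) (v : E3), (ContinuousLinearMap.pi (fun k : Fin n =>
      ContinuousLinearMap.proj (R := ℝ) (φ := fun _ : Fin (n + 1) => E3) k.succ))
        (Pi.single k.succ v : Conf (n + 1)) = (Pi.single k v : Conf n) := by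
    intro k v
    funext j
    rw [ContinuousLinearMap.pi_apply, ContinuousLinearMap.proj_apply]
    by_cases hj : j = k
    · subst hj
      rw [Pi.single_eq_same, Pi.single_eq_same]
    · rw [Pi.single_eq_of_ne hj, Pi.single_eq_of_ne (fun h => hj (Fin.succ_injective _ h))]
  constructor
  · intro c
    unfold pd
    rw [h3]
    simp only [_root_.add_apply, _root_.smul_apply, ContinuousLinearMap.comp_apply, h4, map_zero, smul_eq_mul,
      ContinuousLinearMap.proj_apply, Pi.single_eq_same]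
    ring
  · intro k c
    unfold pd
    rw [h3]
    simp only [_root_.add_apply, _root_.smul_apply, ContinuousLinearMap.comp_apply, h5, smul_eq_mul,
      ContinuousLinearMap.proj_apply, Pi.single_eq_of_ne (Fin.succ_ne_zero k).symm, map_zero]
    ring

theorem GB2_gsq {f : E3 → ℝ} {g : Conf n → ℝ} {X : Conf (n + 1)} (hf : DifferentiableAt ℝ f (X 0))
    (hg : DifferentiableAt ℝ g (fun k => X k.succ)) :
    gsq 0 (fun X : Conf (n + 1) => f (X 0) * g (fun k => X k.succ)) X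
      = grd2 f (X 0) * (g (fun k => X k.succ)) ^ 2 ∧
    ∀ k : Fin n, gsq k.succ (fun X : Conf (n + 1) => f (X 0) * g (fun k => X k.succ)) X
      = f (X 0) ^ 2 * gsq k g (fun k => X k.succ) := by
  obtain ⟨h1, h2⟩ := GB2_deriv hf hg
  constructor
  · unfold gsq grd2
    rw [Finset.sum_mul]
    refine Finset.sum_congr rfl fun c _ => ?_
    rw [h1 c]
    ring
  · intro k
    unfold gsq
    rw [Finset.mul_sum]
    refine Finset.sum_congr rfl fun c _ => ?_
    rw [h2 k c]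
    ring

theorem GB2_Vee (w : E3) (Y : Conf n) :
    Vee ((0 : Fin (n + 1)).insertNth w Y : Conf (n + 1)) = Vee Y + ∑ k, ‖Y k - w‖⁻¹ := by
  unfold Vee
  rw [Fin.sum_univ_succ]
  have h1 : ∑ j ∈ univ.filter (fun j : Fin (n + 1) => 0 < j),
      ‖((0 : Fin (n + 1)).insertNth w Y : Conf (n + 1)) 0 - ((0 : Fin (n + 1)).insertNth w Y : Conf (n + 1)) j‖⁻¹
      = ∑ k, ‖Y k - w‖⁻¹ := by
    rw [Finset.sum_filter, Fin.sum_univ_succ, if_neg (lt_irrefl _), zero_add]
    refine Finset.sum_congr rfl fun k _ => ?_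
    rw [if_pos (Fin.succ_pos k), GB2_ins0, GB2_insS, norm_sub_rev]
  have h2 : ∀ i : Fin n, ∑ j ∈ univ.filter (fun j : Fin (n + 1) => i.succ < j),
      ‖((0 : Fin (n + 1)).insertNth w Y : Conf (n + 1)) i.succ - ((0 : Fin (n + 1)).insertNth w Y : Conf (n + 1)) j‖⁻¹
      = ∑ j ∈ univ.filter (fun j : Fin n => i < j), ‖Y i - Y j‖⁻¹ := by
    intro i
    rw [Finset.sum_filter, Finset.sum_filter, Fin.sum_univ_succ, if_neg (Fin.not_lt_zero _), zero_add]
    refine Finset.sum_congr rfl fun k _ => ?_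
    simp only [Fin.succ_lt_succ_iff, GB2_insS]
  rw [h1, Finset.sum_congr rfl (fun i _ => h2 i), add_comm]

theorem GB2_Ven (w : E3) (Y : Conf n) :
    Ven ((0 : Fin (n + 1)).insertNth w Y : Conf (n + 1)) = ‖w‖⁻¹ + Ven Y := by
  unfold Ven
  rw [Fin.sum_univ_succ, GB2_ins0]
  simp only [GB2_insS]

theorem GB2_int_inv {f : E3 → ℝ} {K : NNReal} (hf : LipschitzWith K f) (hfc : HasCompactSupport f) (a : E3) :
    Integrable (fun w : E3 => ‖a - w‖⁻¹ * f w ^ 2) := by
  obtain ⟨C, hC⟩ := hf.continuous.bounded_above_of_compact_support hfc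
  have h1 : Integrable (fun x : E3 => ‖x‖⁻¹ * f (a - x) ^ 2) := by
    have hcs : IsCompact (tsupport f) := hfc
    obtain ⟨R, hR⟩ := hcs.isBounded.subset_closedBall (0 : E3)
    have h2 := integrableOn_inv_sq (R + ‖a‖)
    have h3 : IntegrableOn (fun x : E3 => (1 + (‖x‖⁻¹) ^ 2) * C ^ 2) (closedBall 0 (R + ‖a‖)) := by
      refine Integrable.mul_const ?_ _
      refine Integrable.add ?_ h2
      exact integrableOn_const (isCompact_closedBall _ _).measure_lt_top.ne
    have h4 := h3.integrable_indicator isClosed_closedBall.measurableSet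
    refine h4.mono' ?_ (Filter.Eventually.of_forall fun x => ?_)
    · exact ((measurable_norm.inv).mul ((hf.continuous.measurable.comp (measurable_const.sub measurable_id)).pow_const 2)).aestronglyMeasurable
    · rw [Real.norm_eq_abs, abs_of_nonneg (mul_nonneg (inv_nonneg.mpr (norm_nonneg _)) (sq_nonneg _))]
      by_cases hx : x ∈ closedBall (0 : E3) (R + ‖a‖)
      · rw [Set.indicator_of_mem hx]
        have h5 : f (a - x) ^ 2 ≤ C ^ 2 := by
          have h6 := hC (a - x)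
          rw [Real.norm_eq_abs] at h6
          have h7 := abs_nonneg (f (a - x))
          rw [← sq_abs (f (a - x))]
          nlinarith
        have h8 : ‖x‖⁻¹ ≤ 1 + (‖x‖⁻¹) ^ 2 := by nlinarith [sq_nonneg (‖x‖⁻¹ - 1)]
        have h9 : 0 ≤ ‖x‖⁻¹ := inv_nonneg.mpr (norm_nonneg _)
        exact mul_le_mul h8 h5 (sq_nonneg _) (by positivity)
      · rw [Set.indicator_of_notMem hx]
        have h5 : f (a - x) = 0 := by
          by_contra h6
          have h7 : a - x ∈ tsupport f := subset_tsupport f h6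
          have h8 := hR h7
          rw [mem_closedBall_zero_iff] at h8
          apply hx
          rw [mem_closedBall_zero_iff]
          have h9 : ‖x‖ ≤ ‖a‖ + ‖a - x‖ := by
            have := norm_sub_le a (a - x)
            rwa [sub_sub_cancel] at this
          linarith
        rw [h5]
        simp
  have h2 := h1.comp_sub_left a
  refine h2.congr (Filter.Eventually.of_forall fun w => ?_)
  simp

theorem sum_spin_cons (H : Spin (n + 1) → ℝ) (hH : ∀ σ, σ 0 ≠ 0 → H σ = 0) :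
    ∑ σ, H σ = ∑ σ' : Spin n, H (Fin.cons 0 σ') := by
  have h1 := (Fin.consEquiv (fun _ : Fin (n + 1) => Fin 2)).sum_comp H
  rw [← h1, Fintype.sum_prod_type, Fin.sum_univ_two]
  have h2 : ∑ y : Spin n, H ((Fin.consEquiv (fun _ : Fin (n + 1) => Fin 2)) ((1 : Fin 2), y)) = 0 := by
    refine Finset.sum_eq_zero fun y _ => hH _ ?_
    simp [Fin.consEquiv]
  rw [h2, add_zero]
  rfl

theorem nrm2_extw {f : E3 → ℝ} {K : NNReal} (hf : LipschitzWith K f) (hfc : HasCompactSupport f)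
    {ψ : RW n} (hψ : ∀ σ, LipC (ψ σ)) : nrm2 (extw f ψ) = (∫ w, f w ^ 2) * nrm2 ψ := by
  unfold nrm2
  rw [sum_spin_cons (fun σ => ∫ X, (extw f ψ σ X) ^ 2) (by
    intro σ hσ
    simp [GB2_extw_ne f ψ hσ]), Finset.mul_sum]
  refine Finset.sum_congr rfl fun σ' _ => ?_
  rw [GB2_extw_cons]
  have hF := GB2_lip hf hfc hψ σ'
  have h1 : (fun X : Conf (n + 1) => (GB2_F f ψ σ' X) ^ 2)
      = fun X => (f (X 0)) ^ 2 * (ψ σ' (fun k => X k.succ)) ^ 2 := by
    funext X
    unfold GB2_F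
    ring
  have h2 := hF.integrable_sq
  rw [h1] at h2 ⊢
  exact GB2_fubini (A := fun w => f w ^ 2) (B := fun Y => ψ σ' Y ^ 2) h2

theorem TT_extw {f : E3 → ℝ} {K : NNReal} (hf : LipschitzWith K f) (hfc : HasCompactSupport f)
    {ψ : RW n} (hψ : ∀ σ, LipC (ψ σ)) :
    TT (extw f ψ) = (∫ w, grd2 f w) * nrm2 ψ + (∫ w, f w ^ 2) * TT ψ := by
  have hint0 : ∀ σ' : Spin n, ∫ X, gsq 0 (GB2_F f ψ σ') X = (∫ w, grd2 f w) * ∫ Y, ψ σ' Y ^ 2 := by
    intro σ'
    have hF := GB2_lip hf hfc hψ σ'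
    have h1 : gsq 0 (GB2_F f ψ σ') =ᵐ[volume] fun X => grd2 f (X 0) * (ψ σ' (fun k => X k.succ)) ^ 2 := by
      filter_upwards [GB2_ae hf (hψ σ')] with X hX
      exact (GB2_gsq hX.1 hX.2).1
    rw [integral_congr_ae h1]
    exact GB2_fubini (A := grd2 f) (B := fun Y => ψ σ' Y ^ 2) ((hF.integrable_gsq 0).congr h1)
  have hint1 : ∀ (σ' : Spin n) (k : Fin n), ∫ X, gsq k.succ (GB2_F f ψ σ') X
      = (∫ w, f w ^ 2) * ∫ Y, gsq k (ψ σ') Y := by
    intro σ' k
    have hF := GB2_lip hf hfc hψ σ'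
    have h1 : gsq k.succ (GB2_F f ψ σ') =ᵐ[volume] fun X => f (X 0) ^ 2 * gsq k (ψ σ') (fun k => X k.succ) := by
      filter_upwards [GB2_ae hf (hψ σ')] with X hX
      exact (GB2_gsq hX.1 hX.2).2 k
    rw [integral_congr_ae h1]
    exact GB2_fubini (A := fun w => f w ^ 2) (B := gsq k (ψ σ')) ((hF.integrable_gsq k.succ).congr h1)
  unfold TT nrm2
  rw [sum_spin_cons (fun σ => ∫ X, ∑ k, gsq k (extw f ψ σ) X) (by
    intro σ hσ
    rw [GB2_extw_ne f ψ hσ]
    simp [gsq, pd]), Finset.mul_sum, Finset.mul_sum, ← Finset.sum_add_distrib]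
  refine Finset.sum_congr rfl fun σ' _ => ?_
  rw [GB2_extw_cons]
  have hF := GB2_lip hf hfc hψ σ'
  rw [integral_finsetSum _ (fun k _ => hF.integrable_gsq k), Fin.sum_univ_succ, hint0]
  rw [integral_finsetSum _ (fun k _ => (hψ σ').integrable_gsq k), Finset.mul_sum]
  congr 1
  exact Finset.sum_congr rfl fun k _ => hint1 σ' k

theorem V_extw (z : ℝ) {f : E3 → ℝ} {K : NNReal} (hf : LipschitzWith K f) (hfc : HasCompactSupport f)
    {ψ : RW n} (hψ : ∀ σ, LipC (ψ σ)) :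
    ∑ σ, ∫ X, V z X * (extw f ψ σ X) ^ 2
      = (∫ w, f w ^ 2) * (∑ σ, ∫ Y, V z Y * (ψ σ Y) ^ 2)
        + ∑ σ, ∫ Y, ((∑ k, ∫ w, ‖Y k - w‖⁻¹ * f w ^ 2) - z * ∫ w, ‖w‖⁻¹ * f w ^ 2) * (ψ σ Y) ^ 2 := by
  rw [sum_spin_cons (fun σ => ∫ X, V z X * (extw f ψ σ X) ^ 2) (by
    intro σ hσ
    simp [GB2_extw_ne f ψ hσ]), Finset.mul_sum, ← Finset.sum_add_distrib]
  refine Finset.sum_congr rfl fun σ' _ => ?_
  rw [GB2_extw_cons]
  have hF := GB2_lip hf hfc hψ σ'
  have hI := hF.integrable_V z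
  rw [integral_insert 0 hI]
  have hI2 : Integrable (fun Y : Conf n => ∫ w : E3, V z ((0 : Fin (n + 1)).insertNth w Y)
      * (GB2_F f ψ σ' ((0 : Fin (n + 1)).insertNth w Y)) ^ 2) :=
    ((integrable_insert 0).1 hI).integral_prod_right
  have hf2 : Integrable (fun w : E3 => f w ^ 2) := by
    have h1 : Continuous (fun w : E3 => f w ^ 2) := hf.continuous.pow 2
    refine h1.integrable_of_hasCompactSupport ?_
    exact hfc.comp_left (g := fun t : ℝ => t ^ 2) (by norm_num)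
  have hf3 : Integrable (fun w : E3 => ‖w‖⁻¹ * f w ^ 2) := by
    refine (GB2_int_inv hf hfc 0).congr (Filter.Eventually.of_forall fun w => ?_)
    simp
  have hA : ∀ Y : Conf n, ∫ w : E3, V z ((0 : Fin (n + 1)).insertNth w Y)
      * (GB2_F f ψ σ' ((0 : Fin (n + 1)).insertNth w Y)) ^ 2
      = (∫ w, f w ^ 2) * (V z Y * (ψ σ' Y) ^ 2)
        + ((∑ k, ∫ w, ‖Y k - w‖⁻¹ * f w ^ 2) - z * ∫ w, ‖w‖⁻¹ * f w ^ 2) * (ψ σ' Y) ^ 2 := by
    intro Y
    have h1 : ∀ w : E3, V z ((0 : Fin (n + 1)).insertNth w Y)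
        * (GB2_F f ψ σ' ((0 : Fin (n + 1)).insertNth w Y)) ^ 2
        = (V z Y * f w ^ 2 + ((∑ k, ‖Y k - w‖⁻¹ * f w ^ 2) - z * (‖w‖⁻¹ * f w ^ 2))) * (ψ σ' Y) ^ 2 := by
      intro w
      rw [GB2_F_ins]
      unfold V
      rw [GB2_Vee, GB2_Ven, ← Finset.sum_mul]
      ring
    simp only [h1]
    have hs1 : Integrable (fun w : E3 => ∑ k, ‖Y k - w‖⁻¹ * f w ^ 2) :=
      integrable_finsetSum _ fun k _ => GB2_int_inv hf hfc (Y k)
    have hs2 : Integrable (fun w : E3 => (∑ k, ‖Y k - w‖⁻¹ * f w ^ 2) - z * (‖w‖⁻¹ * f w ^ 2)) :=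
      hs1.sub (hf3.const_mul z)
    rw [integral_mul_const, integral_add (hf2.const_mul _) hs2,
      integral_sub hs1 (hf3.const_mul z),
      integral_finsetSum _ (fun k _ => GB2_int_inv hf hfc (Y k)), integral_const_mul, integral_const_mul]
    ring
  simp only [hA] at hI2 ⊢
  have h2 : Integrable (fun Y : Conf n => (∫ w, f w ^ 2) * (V z Y * (ψ σ' Y) ^ 2)) :=
    ((hψ σ').integrable_V z).const_mul _
  have h3 : Integrable (fun Y : Conf n => ((∑ k, ∫ w, ‖Y k - w‖⁻¹ * f w ^ 2) - z * ∫ w, ‖w‖⁻¹ * f w ^ 2)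
      * (ψ σ' Y) ^ 2) := by
    refine (hI2.sub h2).congr (Filter.Eventually.of_forall fun Y => ?_)
    simp only [Pi.sub_apply]
    ring
  rw [integral_add h2 h3, integral_const_mul]

end Ion
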