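import Pool.Agent.Lib.MP_69e010_mp.G.GDefs

/-!
# JOB GC1 (stream G of MP_69e010_mp): the hat function

`hat y b w = c max(0, 1 - ‖w - y‖/b)`, `c² = 15/(2 π b³)`.
* `∫ hat² = c² ∫_{B(0,b)} (1 - r/b)² = c² 4π ∫_0^b (1 - r/b)² r² dr = c² 4π b³ (1/3 - 2/4 + 1/5) = c² 4π b³/30 = 1` (translate to `y = 0`,
  radial integration `integral_fun_norm_addHaar`; `volume (ball 0 1) = 4π/3`, `EuclideanSpace.volume_ball_fin_three`).
* `grd2 (hat y b) w ≤ c²/b²` (Lipschitz with constant `c/b`: `∑_c (fderiv f w e_c)² ≤ K²`, take the vector `v = ∑ (fderiv f w e_c) e_c`), and `= 0` for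
  `‖w - y‖ > b` (locally constant), the sphere is a null set: `∫ grd2 ≤ c²/b² · 4π b³/3 = 10/b²`.
-/

open MeasureTheory Metric Finset Filter Topology

noncomputable section

namespace Ion

theorem hat_lip (y : E3) {b : ℝ} (hb : 0 < b) :
    LipschitzWith (Real.toNNReal (√(15 / (2 * Real.pi * b ^ 3)) / b)) (hat y b) := by
  refine LipschitzWith.of_dist_le_mul (fun w w' => ?_)
  rw [Real.coe_toNNReal _ (by positivity), Real.dist_eq, dist_eq_norm]
  simp only [hat]
  rw [← mul_sub, abs_mul, abs_of_nonneg (Real.sqrt_nonneg _), div_mul_eq_mul_div, mul_div_assoc]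
  refine mul_le_mul_of_nonneg_left ?_ (Real.sqrt_nonneg _)
  calc |max 0 (1 - ‖w - y‖ / b) - max 0 (1 - ‖w' - y‖ / b)|
      ≤ |(1 - ‖w - y‖ / b) - (1 - ‖w' - y‖ / b)| := by
        rw [max_comm 0, max_comm 0]
        exact abs_max_sub_max_le_abs _ _ _
    _ = |‖w' - y‖ - ‖w - y‖| / b := by
        rw [show (1 - ‖w - y‖ / b) - (1 - ‖w' - y‖ / b) = (‖w' - y‖ - ‖w - y‖) / b from by ring,
          abs_div, abs_of_pos hb]
    _ ≤ ‖w - w'‖ / b := by
        refine div_le_div_of_nonneg_right ?_ hb.le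
        have := abs_norm_sub_norm_le (w' - y) (w - y)
        rw [show w' - y - (w - y) = -(w - w') from by abel, norm_neg] at this
        exact this

theorem GC1_zero (y : E3) {b : ℝ} (hb : 0 < b) {w : E3} (hw : b ≤ ‖w - y‖) : hat y b w = 0 := by
  simp only [hat]
  rw [max_eq_left, mul_zero]
  rw [sub_nonpos, le_div_iff₀ hb]
  linarith

theorem hat_tsupport (y : E3) {b : ℝ} (hb : 0 < b) : tsupport (hat y b) ⊆ closedBall y b := by
  refine closure_minimal ?_ isClosed_closedBall
  intro w hw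
  rw [mem_closedBall, dist_eq_norm]
  by_contra hlt
  rw [not_le] at hlt
  exact hw (GC1_zero y hb hlt.le)

theorem hat_compact (y : E3) {b : ℝ} (hb : 0 < b) : HasCompactSupport (hat y b) :=
  (isCompact_closedBall y b).of_isClosed_subset (isClosed_tsupport _) (hat_tsupport y hb)

theorem GC1_vol : (volume : Measure E3).real (ball 0 1) = Real.pi * 4 / 3 := by
  rw [Measure.real, EuclideanSpace.volume_ball_fin_three]
  simp only [ENNReal.ofReal_one, one_pow, one_mul]
  rw [ENNReal.toReal_ofReal (by positivity)]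

theorem GC1_rad {b : ℝ} (hb : 0 < b) :
    ∫ r in Set.Ioi (0 : ℝ), r ^ 2 * (max 0 (1 - r / b)) ^ 2 = b ^ 3 / 30 := by
  have h1 : ∫ r in Set.Ioi (0 : ℝ), r ^ 2 * (max 0 (1 - r / b)) ^ 2
      = ∫ r in Set.Ioc (0 : ℝ) b, r ^ 2 * (max 0 (1 - r / b)) ^ 2 := by
    refine (setIntegral_eq_of_subset_of_forall_sdiff_eq_zero measurableSet_Ioi
      (fun r hr => hr.1) ?_)
    intro r hr
    have hr1 : 0 < r := hr.1
    have hr2 : b < r := by
      by_contra hcon
      exact hr.2 ⟨hr1, not_lt.mp hcon⟩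
    rw [max_eq_left]
    · ring
    · rw [sub_nonpos, le_div_iff₀ hb]
      linarith
  rw [h1, ← intervalIntegral.integral_of_le hb.le]
  have h2 : ∫ r in (0 : ℝ)..b, r ^ 2 * (max 0 (1 - r / b)) ^ 2
      = ∫ r in (0 : ℝ)..b, (r ^ 2 - (2 / b) * r ^ 3 + (1 / b ^ 2) * r ^ 4) := by
    refine intervalIntegral.integral_congr (fun r hr => ?_)
    rw [Set.uIcc_of_le hb.le] at hr
    have : 0 ≤ 1 - r / b := by
      rw [sub_nonneg, div_le_one hb]
      exact hr.2
    rw [max_eq_right this]
    field_simp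
    ring
  rw [h2]
  rw [intervalIntegral.integral_add, intervalIntegral.integral_sub,
    intervalIntegral.integral_const_mul, intervalIntegral.integral_const_mul,
    integral_pow, integral_pow, integral_pow]
  · field_simp
    ring
  · exact (continuous_pow 2).intervalIntegrable _ _
  · exact (continuous_const.mul (continuous_pow 3)).intervalIntegrable _ _
  · exact ((continuous_pow 2).sub (continuous_const.mul (continuous_pow 3))).intervalIntegrable _ _
  · exact (continuous_const.mul (continuous_pow 4)).intervalIntegrable _ _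

theorem hat_norm (y : E3) {b : ℝ} (hb : 0 < b) : ∫ w, hat y b w ^ 2 = 1 := by
  have h1 : ∀ w : E3, hat y b w ^ 2
      = (15 / (2 * Real.pi * b ^ 3)) * (fun r : ℝ => (max 0 (1 - r / b)) ^ 2) ‖w - y‖ := by
    intro w
    simp only [hat]
    rw [mul_pow, Real.sq_sqrt (by positivity)]
  simp_rw [h1]
  rw [integral_const_mul]
  rw [integral_sub_right_eq_self (fun w : E3 => (fun r : ℝ => (max 0 (1 - r / b)) ^ 2) ‖w‖) y]
  rw [integral_fun_norm_addHaar (volume : Measure E3) (fun r : ℝ => (max 0 (1 - r / b)) ^ 2)]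
  rw [GC1_vol]
  have hd : Module.finrank ℝ E3 = 3 := by simp [E3]
  rw [hd]
  simp only [smul_eq_mul, nsmul_eq_mul, show 3 - 1 = 2 from rfl]
  rw [GC1_rad hb]
  have := Real.pi_pos
  push_cast
  field_simp
  norm_num

theorem grd2_nonneg (f : E3 → ℝ) (w : E3) : 0 ≤ grd2 f w :=
  Finset.sum_nonneg (fun _ _ => sq_nonneg _)

theorem GC1_le (f : E3 → ℝ) (w : E3) : grd2 f w ≤ ‖fderiv ℝ f w‖ ^ 2 := by
  set L := fderiv ℝ f w with hL
  set v : E3 := ∑ c : Fin 3, (L (EuclideanSpace.single c (1 : ℝ))) • EuclideanSpace.single c (1 : ℝ)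
    with hv
  have hS : L v = grd2 f w := by
    rw [hv, map_sum]
    simp only [map_smul, smul_eq_mul, grd2, ← hL, sq]
  have hvc : ∀ c : Fin 3, v c = L (EuclideanSpace.single c (1 : ℝ)) := by
    intro c
    rw [hv]
    simp [Fin.sum_univ_three]
    fin_cases c <;> simp
  have hn : ‖v‖ ^ 2 = grd2 f w := by
    rw [EuclideanSpace.norm_sq_eq]
    simp only [grd2, ← hL]
    refine Finset.sum_congr rfl (fun c _ => ?_)
    rw [hvc c, Real.norm_eq_abs, sq_abs]
  have h0 : 0 ≤ grd2 f w := grd2_nonneg f w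
  have h1 : grd2 f w ≤ ‖L‖ * ‖v‖ := by
    rw [← hS]
    exact (le_abs_self _).trans (L.le_opNorm v)
  rw [← hn] at h1 h0 ⊢
  rcases eq_or_lt_of_le (norm_nonneg v) with h | h
  · rw [← h]
    simp
  · have : ‖v‖ ≤ ‖L‖ := by
      by_contra hcon
      rw [not_le] at hcon
      nlinarith
    exact pow_le_pow_left₀ (norm_nonneg v) this 2

theorem GC1_grd_zero (y : E3) {b : ℝ} (hb : 0 < b) {w : E3} (hw : b < ‖w - y‖) :
    grd2 (hat y b) w = 0 := by
  have h1 : hat y b =ᶠ[𝓝 w] fun _ => (0 : ℝ) := by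
    have : {w' : E3 | b < ‖w' - y‖} ∈ 𝓝 w := by
      refine IsOpen.mem_nhds ?_ hw
      exact isOpen_lt continuous_const ((continuous_id.sub continuous_const).norm)
    filter_upwards [this] with w' hw'
    exact GC1_zero y hb (le_of_lt hw')
  have h2 : fderiv ℝ (hat y b) w = 0 := by
    rw [h1.fderiv_eq]
    simp
  simp [grd2, h2]

theorem hat_grad (y : E3) {b : ℝ} (hb : 0 < b) : ∫ w, grd2 (hat y b) w ≤ 10 / b ^ 2 := by
  set K : ℝ := √(15 / (2 * Real.pi * b ^ 3)) / b with hK
  have hK0 : 0 ≤ K := by positivity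
  have hb1 : ∀ w, grd2 (hat y b) w ≤ K ^ 2 := by
    intro w
    refine (GC1_le _ _).trans ?_
    refine pow_le_pow_left₀ (norm_nonneg _) ?_ 2
    have := norm_fderiv_le_of_lipschitz ℝ (hat_lip y hb) (x₀ := w)
    rwa [Real.coe_toNNReal _ hK0] at this
  have hsph : ∀ᵐ w : E3, w ∉ sphere y b := by
    rw [ae_iff]
    simp only [not_not]
    exact Measure.addHaar_sphere_of_ne_zero volume y hb.ne'
  have hvol : volume.real (ball y b) = b ^ 3 * (Real.pi * 4 / 3) := by
    rw [Measure.real, EuclideanSpace.volume_ball_fin_three, ENNReal.toReal_mul, ENNReal.toReal_pow,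
      ENNReal.toReal_ofReal hb.le, ENNReal.toReal_ofReal (by positivity)]
  calc ∫ w, grd2 (hat y b) w
      ≤ ∫ w, (ball y b).indicator (fun _ => K ^ 2) w := by
        refine integral_mono_of_nonneg (Filter.Eventually.of_forall (fun w => grd2_nonneg _ _)) ?_ ?_
        · refine (integrable_indicator_iff measurableSet_ball).mpr ?_
          exact integrableOn_const (by
            rw [EuclideanSpace.volume_ball_fin_three]
            exact ENNReal.mul_ne_top (by simp) (by simp))
        · filter_upwards [hsph] with w hw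
          by_cases hw2 : w ∈ ball y b
          · rw [Set.indicator_of_mem hw2]
            exact hb1 w
          · rw [Set.indicator_of_notMem hw2]
            rw [mem_ball, not_lt, dist_eq_norm] at hw2
            rw [mem_sphere, dist_eq_norm] at hw
            exact (GC1_grd_zero y hb (lt_of_le_of_ne hw2 (Ne.symm hw))).le
    _ = volume.real (ball y b) * K ^ 2 := by
        rw [integral_indicator measurableSet_ball, setIntegral_const, smul_eq_mul]
    _ = 10 / b ^ 2 := by
        rw [hvol, hK, div_pow, Real.sq_sqrt (by positivity)]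
        have := Real.pi_pos
        field_simp
        norm_num
    _ ≤ 10 / b ^ 2 := le_rfl

end Ion
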