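import Pool.Agent.Lib.MP_69e010_mp.A1
import Pool.Agent.Lib.MP_69e010_mp.G.GC1

/-!
# JOB GC2 (stream G of MP_69e010_mp): Newton's theorem for the hat function

Layer cake: for `r = ‖w - y‖ < b`: `(1 - r/b)² = ∫_r^b (2/b)(1 - s/b) ds`, so
`hat y b w ^ 2 = ∫_{s ∈ (0,b)} (2 c²/b)(1 - s/b) 1_{w ∈ B(y,s)} ds`, `c² = 15/(2 π b³)`.
Tonelli (`lintegral` or `integral_integral_swap`; the function `(w, s) ↦ ‖x - w‖⁻¹ (2c²/b)(1 - s/b) 1_{‖w-y‖<s}` on `ball y b × (0,b)` is nonnegative and
integrable: bounded by `C ‖x - w‖⁻¹`, `newton_integrable`):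
`∫ ‖x - w‖⁻¹ hat² = ∫_0^b (2c²/b)(1 - s/b) (∫_{B(y,s)} ‖x - w‖⁻¹ dw) ds` and by `newton`: `∫_{B(y,s)} ‖x - w‖⁻¹ dw = (4π/3) s³ ‖x - y‖⁻¹` (`s ≤ b ≤ ‖x - y‖`).
`∫_0^b (2c²/b)(1 - s/b)(4π/3) s³ ds = (8π c²/(3b)) b⁴ (1/4 - 1/5) = (2π/15) c² b³ = 1`.
-/

open MeasureTheory Metric Finset Filter Topology

noncomputable section

namespace Ion

/-- the kernel of the layer cake -/
def GC2_k (b s : ℝ) : ℝ := 2 * (15 / (2 * Real.pi * b ^ 3)) / b * (1 - s / b)

theorem GC2_hat_sq (y w : E3) {b : ℝ} (hb : 0 < b) :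
    hat y b w ^ 2 = ∫ s in Set.Ioc (0 : ℝ) b, (if ‖w - y‖ < s then GC2_k b s else 0) := by
  have hc : 0 ≤ 15 / (2 * Real.pi * b ^ 3) := by positivity
  have h0 : 0 ≤ ‖w - y‖ := norm_nonneg _
  have h1 : hat y b w ^ 2 = 15 / (2 * Real.pi * b ^ 3) * (max 0 (1 - ‖w - y‖ / b)) ^ 2 := by
    unfold hat
    rw [mul_pow, Real.sq_sqrt hc]
  rw [h1]
  by_cases h : ‖w - y‖ < b
  · have h2 : max 0 (1 - ‖w - y‖ / b) = 1 - ‖w - y‖ / b := by
      refine max_eq_right ?_
      have : ‖w - y‖ / b < 1 := by rwa [div_lt_one hb]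
      linarith
    rw [h2]
    have h3 : ∫ s in Set.Ioc (0 : ℝ) b, (if ‖w - y‖ < s then GC2_k b s else 0)
        = ∫ s in Set.Ioc ‖w - y‖ b, GC2_k b s := by
      have h4 : (fun s => if ‖w - y‖ < s then GC2_k b s else 0)
          = (Set.Ioi ‖w - y‖).indicator (fun s => GC2_k b s) := by
        funext s
        by_cases hs : ‖w - y‖ < s
        · rw [Set.indicator_of_mem (show s ∈ Set.Ioi ‖w - y‖ from hs), if_pos hs]
        · rw [Set.indicator_of_notMem (show s ∉ Set.Ioi ‖w - y‖ from hs), if_neg hs]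
      rw [h4, setIntegral_indicator measurableSet_Ioi]
      congr 2
      ext s
      constructor
      · rintro ⟨⟨_, a2⟩, a3⟩; exact ⟨a3, a2⟩
      · rintro ⟨a1, a2⟩; exact ⟨⟨lt_of_le_of_lt h0 a1, a2⟩, a1⟩
    rw [h3, ← intervalIntegral.integral_of_le h.le]
    have hd : ∀ s ∈ Set.uIcc ‖w - y‖ b, HasDerivAt
        (fun s : ℝ => -(15 / (2 * Real.pi * b ^ 3) * (1 - s / b) ^ 2)) (GC2_k b s) s := by
      intro s _
      have a1 : HasDerivAt (fun s : ℝ => 1 - s / b) (-(1 / b)) s := by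
        simpa using ((hasDerivAt_id s).div_const b).const_sub 1
      have a2 := ((a1.pow 2).const_mul (15 / (2 * Real.pi * b ^ 3))).neg
      refine a2.congr_deriv ?_
      unfold GC2_k
      norm_num
      field_simp
    rw [intervalIntegral.integral_eq_sub_of_hasDerivAt hd]
    · rw [div_self hb.ne']; ring
    · refine Continuous.intervalIntegrable ?_ _ _
      unfold GC2_k
      fun_prop
  · push Not at h
    have h2 : max 0 (1 - ‖w - y‖ / b) = 0 := by
      refine max_eq_left ?_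
      have : 1 ≤ ‖w - y‖ / b := by rwa [one_le_div hb]
      linarith
    rw [h2]
    have h3 : ∫ s in Set.Ioc (0 : ℝ) b, (if ‖w - y‖ < s then GC2_k b s else 0)
        = ∫ s in Set.Ioc (0 : ℝ) b, (0 : ℝ) := by
      refine setIntegral_congr_fun measurableSet_Ioc fun s hs => ?_
      have : ¬ ‖w - y‖ < s := not_lt.mpr (hs.2.trans h)
      simp only [if_neg this]
    rw [h3]
    simp

theorem GC2_k_bound {b s : ℝ} (hb : 0 < b) (hs : s ∈ Set.Ioc (0 : ℝ) b) :
    |GC2_k b s| ≤ 2 * (15 / (2 * Real.pi * b ^ 3)) / b := by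
  unfold GC2_k
  have h1 : 0 ≤ 1 - s / b := by
    have : s / b ≤ 1 := by rw [div_le_one hb]; exact hs.2
    linarith
  have h2 : 1 - s / b ≤ 1 := by
    have : 0 < s / b := div_pos hs.1 hb
    linarith
  rw [abs_of_nonneg (by positivity)]
  have : 0 ≤ 2 * (15 / (2 * Real.pi * b ^ 3)) / b := by positivity
  nlinarith

theorem hat_newton {x y : E3} {b : ℝ} (hb : 0 < b) (hx : b ≤ ‖x - y‖) :
    ∫ w, ‖x - w‖⁻¹ * hat y b w ^ 2 = ‖x - y‖⁻¹ := by
  set F : E3 → ℝ → ℝ := fun w s => if ‖w - y‖ < s then ‖x - w‖⁻¹ * GC2_k b s else 0 with hF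
  have hmeas : Measurable (Function.uncurry F) := by
    refine Measurable.ite ?_ ?_ measurable_const
    · refine measurableSet_lt ?_ measurable_snd
      exact ((continuous_fst.sub continuous_const).norm).measurable
    · refine Measurable.mul ?_ ?_
      · exact ((continuous_const.sub continuous_fst).norm).measurable.inv
      · have : Continuous (GC2_k b) := by unfold GC2_k; fun_prop
        exact this.measurable.comp measurable_snd
  have hint : Integrable (Function.uncurry F) (volume.prod (volume.restrict (Set.Ioc (0 : ℝ) b))) := by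
    have h1 : Integrable (fun w : E3 => (ball y b).indicator (fun w => ‖x - w‖⁻¹) w) volume :=
      (integrable_indicator_iff measurableSet_ball).mpr (newton_integrable y x b)
    have h2 : Integrable (fun _ : ℝ => 2 * (15 / (2 * Real.pi * b ^ 3)) / b)
        (volume.restrict (Set.Ioc (0 : ℝ) b)) := by
      exact integrable_const _
    have h3 := h1.mul_prod h2
    refine h3.mono' hmeas.aestronglyMeasurable ?_
    have h4 : (volume : Measure E3).prod (volume.restrict (Set.Ioc (0 : ℝ) b))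
        = (volume.prod volume).restrict (Set.univ ×ˢ Set.Ioc (0 : ℝ) b) := by
      rw [← Measure.prod_restrict, Measure.restrict_univ]
    rw [h4]
    refine (ae_restrict_iff' (MeasurableSet.univ.prod measurableSet_Ioc)).mpr (Eventually.of_forall ?_)
    rintro ⟨w, s⟩ ⟨_, hs⟩
    have hs' : s ∈ Set.Ioc (0 : ℝ) b := hs
    simp only [Function.uncurry_apply_pair, hF]
    by_cases h5 : ‖w - y‖ < s
    · have h6 : w ∈ ball y b := by
        rw [mem_ball, dist_eq_norm]; exact h5.trans_le hs'.2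
      rw [if_pos h5, Set.indicator_of_mem h6, norm_mul, norm_inv, norm_norm, Real.norm_eq_abs]
      have := GC2_k_bound hb hs'
      gcongr
    · rw [if_neg h5, norm_zero]
      refine mul_nonneg ?_ (by positivity)
      refine Set.indicator_nonneg (fun w _ => ?_) w
      positivity
  have hswap := integral_integral_swap hint
  -- left side
  have hL : ∀ w : E3, ∫ s in Set.Ioc (0 : ℝ) b, F w s = ‖x - w‖⁻¹ * hat y b w ^ 2 := by
    intro w
    rw [GC2_hat_sq y w hb, ← integral_const_mul]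
    refine integral_congr_ae (Eventually.of_forall fun s => ?_)
    simp only [hF]
    split_ifs
    · rfl
    · rw [mul_zero]
  simp only [hL] at hswap
  rw [hswap]
  -- right side
  have hR : ∀ s ∈ Set.Ioc (0 : ℝ) b, ∫ w, F w s = (4 / 3 * Real.pi * ‖x - y‖⁻¹) * (s ^ 3 * GC2_k b s) := by
    intro s hs
    have h1 : (fun w => F w s) = (ball y s).indicator (fun w => ‖x - w‖⁻¹ * GC2_k b s) := by
      funext w
      by_cases h5 : ‖w - y‖ < s
      · rw [Set.indicator_of_mem (show w ∈ ball y s by rw [mem_ball, dist_eq_norm]; exact h5)]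
        simp only [hF, if_pos h5]
      · rw [Set.indicator_of_notMem (show w ∉ ball y s by rw [mem_ball, dist_eq_norm]; exact h5)]
        simp only [hF, if_neg h5]
    rw [h1, integral_indicator measurableSet_ball, integral_mul_const]
    have h2 := newton y x hs.1
    unfold av ph at h2
    rw [if_pos (hs.2.trans hx)] at h2
    have h3 : volume.real (ball y s) = 4 / 3 * Real.pi * s ^ 3 := by
      rw [Measure.real, EuclideanSpace.volume_ball_fin_three, ENNReal.toReal_mul, ENNReal.toReal_ofReal (by positivity),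
        ← ENNReal.ofReal_pow hs.1.le, ENNReal.toReal_ofReal (pow_nonneg hs.1.le 3)]
      ring
    rw [h3] at h2
    have hs3 : (4 / 3 * Real.pi * s ^ 3) ≠ 0 := by
      have := hs.1
      positivity
    have h4 : ∫ w in ball y s, ‖x - w‖⁻¹ = (4 / 3 * Real.pi * s ^ 3) * ‖x - y‖⁻¹ := by
      rw [← h2, ← mul_assoc, mul_inv_cancel₀ hs3, one_mul]
    rw [h4]; ring
  rw [setIntegral_congr_fun measurableSet_Ioc hR, integral_const_mul, ← intervalIntegral.integral_of_le hb.le]
  have hd : ∀ s ∈ Set.uIcc (0 : ℝ) b, HasDerivAt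
      (fun s : ℝ => 2 * (15 / (2 * Real.pi * b ^ 3)) / b * (s ^ 4 / 4 - s ^ 5 / (5 * b))) (s ^ 3 * GC2_k b s) s := by
    intro s _
    have a1 := ((hasDerivAt_pow 4 s).div_const 4).sub ((hasDerivAt_pow 5 s).div_const (5 * b))
    have a2 := a1.const_mul (2 * (15 / (2 * Real.pi * b ^ 3)) / b)
    refine a2.congr_deriv ?_
    unfold GC2_k
    norm_num
    field_simp
  rw [intervalIntegral.integral_eq_sub_of_hasDerivAt hd]
  · field_simp
    ring
  · refine Continuous.intervalIntegrable ?_ _ _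
    unfold GC2_k
    fun_prop

theorem hat_newton0 {y : E3} {b : ℝ} (hb : 0 < b) (hy : b ≤ ‖y‖) :
    ∫ w, ‖w‖⁻¹ * hat y b w ^ 2 = ‖y‖⁻¹ := by
  have h := hat_newton (x := 0) (y := y) hb (by rwa [zero_sub, norm_neg])
  simpa [zero_sub, norm_neg] using h

end Ion
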