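import Pool.Agent.Lib.MP_69e010_mp.G.GA3
import Pool.Agent.Lib.MP_69e010_mp.G.GB2
import Pool.Agent.Lib.MP_69e010_mp.G.GC2

/-!
# JOB GC3 (stream G of MP_69e010_mp): the inequality for product states

`EN_le_sep` for `F = extw (hat y b) ψ` with `T = closedBall y b`: `extw_tsupport`, `hat_tsupport`; `tsupport (ψ σ') ⊆ {Y | ∀ k, 2 b ≤ ‖Y k - y‖}` (closed set
containing the support). Then `nrm2_extw`, `TT_extw`, `V_extw`, `hat_norm`, `hat_grad`, `hat_newton` (on the support of `ψ`; off the support both sides are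
multiplied by `0`), `hat_newton0`; split the integral (integrability of `‖Y k - y‖⁻¹ (ψ σ Y)²`: on the support it is `≤ (2b)⁻¹ ψ²`).
-/

open MeasureTheory Metric Finset Filter Topology

noncomputable section

namespace Ion

variable {n : ℕ}

theorem GC3_meas (y : E3) (k : Fin n) : Measurable (fun Y : Conf n => ‖Y k - y‖⁻¹) := by
  have h1 : Continuous (fun Y : Conf n => ‖Y k - y‖) :=
    ((continuous_apply k).sub continuous_const).norm
  exact Measurable.inv h1.measurable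

/-- the closed set containing the supports -/
theorem GC3_supp {f : Conf n → ℝ} {y : E3} {b : ℝ} (h : ∀ Y, f Y ≠ 0 → ∀ k, 2 * b ≤ ‖Y k - y‖) {Y : Conf n}
    (hY : Y ∈ tsupport f) (k : Fin n) : 2 * b ≤ ‖Y k - y‖ := by
  have hc : IsClosed {Y : Conf n | 2 * b ≤ ‖Y k - y‖} :=
    isClosed_le continuous_const (((continuous_apply k).sub continuous_const).norm)
  have hs : tsupport f ⊆ {Y : Conf n | 2 * b ≤ ‖Y k - y‖} := by
    refine closure_minimal ?_ hc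
    intro Z hZ
    exact h Z hZ k
  exact hs hY

theorem GC3_int {ψ : RW n} (hψ : Adms ψ) {y : E3} {b : ℝ} (hb : 0 < b)
    (hsep : ∀ σ Y, ψ σ Y ≠ 0 → ∀ k, 2 * b ≤ ‖Y k - y‖) (a : ℝ) (σ : Spin n) :
    Integrable (fun Y => (∑ k, ‖Y k - y‖⁻¹ - a) * (ψ σ Y) ^ 2) := by
  have hi : Integrable (fun Y => (n * (2 * b)⁻¹ + |a|) * (ψ σ Y) ^ 2) :=
    (hψ.1 σ).integrable_sq.const_mul _
  have hm : Measurable (fun Y : Conf n => (∑ k, ‖Y k - y‖⁻¹ - a) * (ψ σ Y) ^ 2) := by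
    have h1 : Measurable (fun Y : Conf n => ∑ k, ‖Y k - y‖⁻¹) :=
      Finset.measurable_fun_sum _ fun k _ => GC3_meas y k
    exact (h1.sub_const a).mul ((hψ.1 σ).cont.measurable.pow_const 2)
  refine hi.mono' hm.aestronglyMeasurable (Filter.Eventually.of_forall fun Y => ?_)
  rw [Real.norm_eq_abs, abs_mul, abs_of_nonneg (sq_nonneg (ψ σ Y))]
  by_cases h0 : ψ σ Y = 0
  · simp [h0]
  · refine mul_le_mul_of_nonneg_right ?_ (sq_nonneg _)
    refine (abs_sub _ _).trans ?_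
    have h2 : |∑ k, ‖Y k - y‖⁻¹| ≤ n * (2 * b)⁻¹ := by
      rw [abs_of_nonneg (Finset.sum_nonneg fun k _ => by positivity)]
      have h3 : ∑ k : Fin n, ‖Y k - y‖⁻¹ ≤ ∑ _k : Fin n, (2 * b)⁻¹ :=
        Finset.sum_le_sum fun k _ => inv_anti₀ (by positivity) (hsep σ Y h0 k)
      simpa using h3
    linarith

theorem EN_prod {z : ℝ} (hz : 0 < z) {ψ : RW n} (hψ : Adms ψ) {y : E3} {b : ℝ} (hb : 0 < b)
    (hsep : ∀ σ Y, ψ σ Y ≠ 0 → ∀ k, 2 * b ≤ ‖Y k - y‖) (hy : b ≤ ‖y‖) :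
    EN z (n + 1) * nrm2 ψ
      ≤ qf z ψ + ∑ σ, ∫ Y, (10 / b ^ 2 + ∑ k, ‖Y k - y‖⁻¹ - z / ‖y‖) * (ψ σ Y) ^ 2 := by
  have hl := hat_lip y hb
  have hc := hat_compact y hb
  have hS : Sep (closedBall y b) (extw (hat y b) ψ) := by
    intro σ X hX
    obtain ⟨h1, h2⟩ := extw_tsupport hX
    refine ⟨hat_tsupport y hb h1, fun i hi => ?_⟩
    obtain ⟨k, rfl⟩ := Fin.exists_succ_eq.mpr hi
    have h3 := GC3_supp (hsep _) h2 k
    intro h4
    rw [mem_closedBall, dist_eq_norm] at h4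
    have h5 : 2 * b ≤ ‖X k.succ - y‖ := h3
    linarith
  have h := EN_le_sep hz (fun σ => extw_lipC hl hc hψ.1 σ) (extw_anti0 (hat y b) hψ.2) hS
  rw [nrm2_extw hl hc hψ.1, hat_norm y hb, one_mul] at h
  unfold qf at h
  rw [TT_extw hl hc hψ.1, V_extw z hl hc hψ.1, hat_norm y hb, one_mul, one_mul] at h
  have e1 : ∑ σ, ∫ Y, ((∑ k, ∫ w, ‖Y k - w‖⁻¹ * hat y b w ^ 2) - z * ∫ w, ‖w‖⁻¹ * hat y b w ^ 2)
        * (ψ σ Y) ^ 2
      = ∑ σ, ∫ Y, (∑ k, ‖Y k - y‖⁻¹ - z / ‖y‖) * (ψ σ Y) ^ 2 := by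
    refine Finset.sum_congr rfl fun σ _ => ?_
    refine integral_congr_ae (Filter.Eventually.of_forall fun Y => ?_)
    simp only
    by_cases h0 : ψ σ Y = 0
    · simp [h0]
    · rw [hat_newton0 hb hy, div_eq_mul_inv]
      have h2 : ∀ k, ∫ w, ‖Y k - w‖⁻¹ * hat y b w ^ 2 = ‖Y k - y‖⁻¹ := fun k =>
        hat_newton hb (by linarith [hsep σ Y h0 k])
      simp only [h2]
  rw [e1] at h
  have e2 : ∑ σ, ∫ Y, (10 / b ^ 2 + ∑ k, ‖Y k - y‖⁻¹ - z / ‖y‖) * (ψ σ Y) ^ 2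
      = 10 / b ^ 2 * nrm2 ψ + ∑ σ, ∫ Y, (∑ k, ‖Y k - y‖⁻¹ - z / ‖y‖) * (ψ σ Y) ^ 2 := by
    unfold nrm2
    rw [Finset.mul_sum, ← Finset.sum_add_distrib]
    refine Finset.sum_congr rfl fun σ _ => ?_
    rw [← integral_const_mul, ← integral_add ((hψ.1 σ).integrable_sq.const_mul _)
      (GC3_int hψ hb hsep (z / ‖y‖) σ)]
    refine integral_congr_ae (Filter.Eventually.of_forall fun Y => ?_)
    simp only
    ring
  have h3 : (∫ w, grd2 (hat y b) w) * nrm2 ψ ≤ 10 / b ^ 2 * nrm2 ψ := by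
    refine mul_le_mul_of_nonneg_right (hat_grad y hb) ?_
    unfold nrm2
    exact Finset.sum_nonneg fun σ _ => integral_nonneg fun Y => sq_nonneg _
  rw [e2]
  unfold qf
  linarith

end Ion
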