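import Pool.Agent.Lib.MP_69e010_mp.G.GC3

/-!
# JOB GD (stream G of MP_69e010_mp): the ground state energies decrease
-/

open MeasureTheory Metric Finset Filter Topology

noncomputable section

namespace Ion

variable {n : ℕ}

theorem IsTest.adms {ψ : RW n} (hψ : IsTest ψ) : Adms ψ := by
  obtain ⟨h1, h2, h3⟩ := hψ
  refine ⟨fun σ => ⟨?_, h2 σ⟩, h3⟩
  exact ContDiff.lipschitzWith_of_hasCompactSupport (h2 σ) (h1 σ) (by simp)

/-- the constant function for zero electrons -/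
theorem aux_GD_zero_test : IsTest (fun _ _ => 1 : RW 0) := by
  refine ⟨fun σ => contDiff_const, fun σ => HasCompactSupport.of_compactSpace _, ?_⟩
  intro π σ X
  have hπ : π = 1 := Subsingleton.elim _ _
  simp [hπ]

theorem aux_GD_zero_nrm : nrm2 (fun _ _ => 1 : RW 0) = 1 := by
  unfold nrm2
  have h : (volume : Measure (Conf 0)) = Measure.dirac (isEmptyElim : (i : Fin 0) → E3) :=
    Measure.volume_pi_eq_dirac _
  rw [h]
  simp

theorem aux_GD_zero_qf (z : ℝ) : qf z (fun _ _ => 1 : RW 0) = 0 := by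
  unfold qf TT V Vee Ven
  simp

/-- a common radius for the supports -/
theorem aux_GD_radius {ψ : RW n} (hψ : ∀ σ, HasCompactSupport (ψ σ)) :
    ∃ R : ℝ, 0 ≤ R ∧ ∀ σ Y, Y ∈ tsupport (ψ σ) → ∀ k, ‖Y k‖ ≤ R := by
  have h : ∀ σ, ∃ R : ℝ, ∀ Y ∈ tsupport (ψ σ), ‖Y‖ ≤ R := fun σ => (hψ σ).isBounded.exists_norm_le
  choose R hR using h
  refine ⟨∑ σ, |R σ|, Finset.sum_nonneg fun σ _ => abs_nonneg _, ?_⟩
  intro σ Y hY k
  calc ‖Y k‖ ≤ ‖Y‖ := norm_le_pi_norm Y k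
    _ ≤ R σ := hR σ Y hY
    _ ≤ |R σ| := le_abs_self _
    _ ≤ ∑ σ, |R σ| := Finset.single_le_sum (f := fun σ => |R σ|) (fun σ _ => abs_nonneg _) (Finset.mem_univ σ)

theorem aux_GD_vec {r : ℝ} (hr : 0 ≤ r) : ∃ y : E3, ‖y‖ = r := by
  refine ⟨EuclideanSpace.single 0 r, ?_⟩
  simp [abs_of_nonneg hr]

theorem aux_GD_perm_smooth (π : Equiv.Perm (Fin n)) :
    ContDiff ℝ (⊤ : ℕ∞) (fun X : Conf n => (X ∘ π : Conf n)) := by
  refine contDiff_pi.2 fun i => ?_
  exact contDiff_apply ℝ E3 (π i)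

theorem aux_GD_extw_smooth {f : E3 → ℝ} (hf : ContDiff ℝ (⊤ : ℕ∞) f) {ψ : RW n}
    (hψ : ∀ σ, ContDiff ℝ (⊤ : ℕ∞) (ψ σ)) (σ : Spin (n + 1)) :
    ContDiff ℝ (⊤ : ℕ∞) (extw f ψ σ) := by
  by_cases h : σ 0 = 0
  · have he : extw f ψ σ = fun X => f (X 0) * ψ (fun k => σ k.succ) (fun k => X k.succ) := by
      funext X
      simp only [extw, h, if_true]
    rw [he]
    have h1 : ContDiff ℝ (⊤ : ℕ∞) (fun X : Conf (n + 1) => f (X 0)) :=
      hf.comp (contDiff_apply ℝ E3 (0 : Fin (n + 1)))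
    have h2 : ContDiff ℝ (⊤ : ℕ∞) (fun X : Conf (n + 1) => (fun k => X k.succ : Conf n)) :=
      contDiff_pi.2 fun k => contDiff_apply ℝ E3 (Fin.succ k)
    exact h1.mul ((hψ _).comp h2)
  · have he : extw f ψ σ = fun _ => 0 := by
      funext X
      simp only [extw, h, if_false]
    rw [he]
    exact contDiff_const

theorem aux_GD_asym_smooth {F : RW (n + 1)} (hF : ∀ σ, ContDiff ℝ (⊤ : ℕ∞) (F σ))
    (σ : Spin (n + 1)) : ContDiff ℝ (⊤ : ℕ∞) (asymG F σ) := by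
  unfold asymG
  refine ContDiff.sum fun i _ => ?_
  exact contDiff_const.mul ((hF _).comp (aux_GD_perm_smooth _))

theorem aux_GD_mul {c : ℝ} {G : RW n} (hG : IsTest G) : IsTest (fun σ X => c * G σ X) := by
  obtain ⟨h1, h2, h3⟩ := hG
  refine ⟨fun σ => contDiff_const.mul (h1 σ), fun σ => HasCompactSupport.mul_left (h2 σ), ?_⟩
  intro π σ X
  simp only
  rw [h3 π σ X]
  ring

theorem aux_GD_mul_nrm (c : ℝ) (G : RW n) : nrm2 (fun σ X => c * G σ X) = c ^ 2 * nrm2 G := by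
  unfold nrm2
  rw [Finset.mul_sum]
  refine Finset.sum_congr rfl fun σ _ => ?_
  rw [← integral_const_mul]
  refine integral_congr_ae (Eventually.of_forall fun X => ?_)
  simp only
  ring

theorem aux_GD_bump_pos {y : E3} (f : ContDiffBump y) : 0 < ∫ w, f w ^ 2 := by
  have hc : Continuous (fun w => f w ^ 2) := f.continuous.pow 2
  refine hc.integral_pos_of_hasCompactSupport_nonneg_nonzero ?_ (fun w => by positivity) (x := y) ?_
  · have h := f.hasCompactSupport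
    have h2 := h.comp_left (g := fun t : ℝ => t ^ 2) (by simp)
    exact h2
  · have h1 : f y = 1 := f.one_of_mem_closedBall (mem_closedBall_self f.rIn_pos.le)
    simp only [h1]
    norm_num

theorem exists_testG (n : ℕ) : ∃ ψ : RW n, IsTest ψ ∧ nrm2 ψ = 1 := by
  induction n with
  | zero => exact ⟨_, aux_GD_zero_test, aux_GD_zero_nrm⟩
  | succ n ih =>
    obtain ⟨ψ, hψ, hn⟩ := ih
    obtain ⟨R, hR0, hR⟩ := aux_GD_radius hψ.2.1
    obtain ⟨y, hy⟩ := aux_GD_vec (r := R + 3) (by linarith)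
    let f : ContDiffBump y := ⟨1 / 2, 1, by norm_num, by norm_num⟩
    have hfs : ContDiff ℝ (⊤ : ℕ∞) (fun w => f w) := f.contDiff
    have hfc : HasCompactSupport (fun w => f w) := f.hasCompactSupport
    obtain ⟨K, hK⟩ := ContDiff.lipschitzWith_of_hasCompactSupport hfc hfs (by simp)
    have hA := hψ.adms
    have hFl : ∀ σ, LipC (extw (fun w => f w) ψ σ) := fun σ => extw_lipC hK hfc hA.1 σ
    have hF0 : Anti0 (extw (fun w => f w) ψ) := extw_anti0 _ hA.2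
    have hFs := aux_GD_extw_smooth hfs hψ.1
    have hsep : Sep (closedBall y 1) (extw (fun w => f w) ψ) := by
      intro σ X hX
      obtain ⟨h1, h2⟩ := extw_tsupport hX
      refine ⟨?_, ?_⟩
      · have h3 : tsupport (fun w => f w) = closedBall y 1 := f.tsupport_eq
        rw [h3] at h1
        exact h1
      · intro i hi hmem
        obtain ⟨k, rfl⟩ := Fin.exists_succ_eq.2 hi
        have h3 : ‖X k.succ‖ ≤ R := hR _ _ h2 k
        rw [mem_closedBall, dist_eq_norm] at hmem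
        have h4 : ‖y‖ ≤ ‖X k.succ‖ + ‖X k.succ - y‖ := by
          have h5 := norm_sub_le (X k.succ) (X k.succ - y)
          have h6 : X k.succ - (X k.succ - y) = y := by abel
          rw [h6] at h5
          exact h5
        linarith
    have hAs := asym_adms hFl hF0
    have hT : IsTest (asymG (extw (fun w => f w) ψ)) :=
      ⟨aux_GD_asym_smooth hFs, fun σ => (hAs.1 σ).2, hAs.2⟩
    have hN : nrm2 (asymG (extw (fun w => f w) ψ)) = (n + 1) * (∫ w, f w ^ 2) := by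
      rw [nrm2_asym hFl hsep, nrm2_extw hK hfc hA.1, hn, mul_one]
    have hpos : 0 < nrm2 (asymG (extw (fun w => f w) ψ)) := by
      rw [hN]
      have := aux_GD_bump_pos f
      positivity
    refine ⟨fun σ X => (√(nrm2 (asymG (extw (fun w => f w) ψ))))⁻¹ * asymG (extw (fun w => f w) ψ) σ X,
      aux_GD_mul hT, ?_⟩
    rw [aux_GD_mul_nrm, inv_pow, Real.sq_sqrt hpos.le]
    exact inv_mul_cancel₀ hpos.ne'

theorem aux_GD_bound {z : ℝ} (hz : 0 < z) {ψ : RW n} (hψ : IsTest ψ) (hn : nrm2 ψ = 1) {b : ℝ}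
    (hb : 0 < b) : EN z (n + 1) ≤ qf z ψ + (10 / b ^ 2 + n / (2 * b)) := by
  obtain ⟨R, hR0, hR⟩ := aux_GD_radius hψ.2.1
  obtain ⟨y, hy⟩ := aux_GD_vec (r := R + 2 * b) (by linarith)
  have hA := hψ.adms
  have hsep : ∀ σ Y, ψ σ Y ≠ 0 → ∀ k, 2 * b ≤ ‖Y k - y‖ := by
    intro σ Y hY k
    have h3 : ‖Y k‖ ≤ R := hR σ Y (subset_tsupport _ hY) k
    have h4 : ‖y‖ ≤ ‖Y k‖ + ‖Y k - y‖ := by
      have h5 := norm_sub_le (Y k) (Y k - y)
      have h6 : Y k - (Y k - y) = y := by abel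
      rw [h6] at h5
      exact h5
    linarith
  have h := EN_prod hz hA hb hsep (by rw [hy]; linarith)
  rw [hn, mul_one] at h
  refine h.trans ?_
  have hle : ∑ σ, ∫ Y, (10 / b ^ 2 + ∑ k, ‖Y k - y‖⁻¹ - z / ‖y‖) * (ψ σ Y) ^ 2
      ≤ ∑ σ, ∫ Y, (10 / b ^ 2 + n / (2 * b)) * (ψ σ Y) ^ 2 := by
    refine Finset.sum_le_sum fun σ _ => ?_
    have hint : Integrable (fun Y => (10 / b ^ 2 + n / (2 * b)) * (ψ σ Y) ^ 2) :=
      (hA.1 σ).integrable_sq.const_mul _
    by_cases hi : Integrable (fun Y => (10 / b ^ 2 + ∑ k, ‖Y k - y‖⁻¹ - z / ‖y‖) * (ψ σ Y) ^ 2)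
    · refine integral_mono hi hint fun Y => ?_
      simp only
      by_cases hY : ψ σ Y = 0
      · simp [hY]
      · have hs : ∑ k, ‖Y k - y‖⁻¹ ≤ n / (2 * b) := by
          have h1 : ∀ k ∈ (Finset.univ : Finset (Fin n)), ‖Y k - y‖⁻¹ ≤ (2 * b)⁻¹ := by
            intro k _
            exact inv_anti₀ (by positivity) (hsep σ Y hY k)
          have h2 := Finset.sum_le_sum h1
          rw [Finset.sum_const, Finset.card_univ, Fintype.card_fin, nsmul_eq_mul] at h2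
          rw [div_eq_mul_inv]
          exact h2
        have hz' : 0 ≤ z / ‖y‖ := by positivity
        have : 10 / b ^ 2 + ∑ k, ‖Y k - y‖⁻¹ - z / ‖y‖ ≤ 10 / b ^ 2 + n / (2 * b) := by linarith
        exact mul_le_mul_of_nonneg_right this (sq_nonneg _)
    · rw [integral_undef hi]
      exact integral_nonneg fun Y => by positivity
  have heq : ∑ σ, ∫ Y, (10 / b ^ 2 + n / (2 * b)) * (ψ σ Y) ^ 2 = 10 / b ^ 2 + n / (2 * b) := by
    have h1 : ∀ σ, ∫ Y, (10 / b ^ 2 + n / (2 * b)) * (ψ σ Y) ^ 2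
        = (10 / b ^ 2 + n / (2 * b)) * ∫ Y, (ψ σ Y) ^ 2 := fun σ => integral_const_mul _ _
    rw [Finset.sum_congr rfl fun σ _ => h1 σ, ← Finset.mul_sum]
    have h2 : ∑ σ, ∫ Y, (ψ σ Y) ^ 2 = 1 := hn
    rw [h2, mul_one]
  linarith

theorem EN_succ_le {z : ℝ} (hz : 0 < z) (n : ℕ) : EN z (n + 1) ≤ EN z n := by
  have hne : {e : ℝ | ∃ ψ : RW n, IsTest ψ ∧ nrm2 ψ = 1 ∧ e = qf z ψ}.Nonempty := by
    obtain ⟨ψ, h1, h2⟩ := exists_testG n
    exact ⟨qf z ψ, ψ, h1, h2, rfl⟩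
  refine le_csInf hne ?_
  rintro e ⟨ψ, h1, h2, rfl⟩
  refine le_of_forall_pos_le_add fun ε hε => ?_
  have hb1 : (1 : ℝ) ≤ max 1 ((10 + n) / ε) := le_max_left _ _
  have hb2 : (10 + n) / ε ≤ max 1 ((10 + n) / ε) := le_max_right _ _
  set b : ℝ := max 1 ((10 + n) / ε) with hb
  have hb0 : 0 < b := by linarith
  refine (aux_GD_bound hz h1 h2 hb0).trans ?_
  have h3 : (10 : ℝ) / b ^ 2 ≤ 10 / b := by
    apply div_le_div_of_nonneg_left (by norm_num) hb0
    nlinarith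
  have h4 : (n : ℝ) / (2 * b) ≤ n / b := by
    apply div_le_div_of_nonneg_left (by positivity) hb0
    linarith
  have h5 : (10 : ℝ) / b + n / b ≤ ε := by
    rw [← add_div, div_le_iff₀ hb0]
    rw [div_le_iff₀ hε] at hb2
    linarith
  linarith

theorem EN_nonpos {z : ℝ} (hz : 0 < z) (n : ℕ) : EN z n ≤ 0 := by
  induction n with
  | zero =>
    refine csInf_le (EN_bddBelow z hz 0) ?_
    exact ⟨_, aux_GD_zero_test, aux_GD_zero_nrm, (aux_GD_zero_qf z).symm⟩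
  | succ n ih => exact (EN_succ_le hz n).trans ih

end Ion
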