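import Pool.Agent.Lib.MP_69e010_mp.G.GDefs

/-!
# JOB GE (stream G of MP_69e010_mp): the profile

`thp t = max(0, (t-1)(2-t))²`, `thd t = 2 max(0, (t-1)(2-t)) (3 - 2t)`.
* `x ↦ (max 0 x)²` has derivative `2 max 0 x` everywhere; chain rule.
* `kA_pos`: the integrand `s⁻¹ thp(s⁻¹)²` is continuous on `(0,∞)`, supported in `s ∈ [1/2, 1]`, nonnegative, positive at `s = 2/3`.
* `kA_cross`: on `[1/2, 1]`: `(s⁻¹)² thp(s⁻¹) thd(s⁻¹) = d/ds (-(1/2) thp(s⁻¹)²)`, and `thp(2) = thp(1) = 0`.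
-/

open MeasureTheory Metric Finset Filter Topology

noncomputable section

namespace Ion

theorem GE_max {t : ℝ} (ht : t ∉ Set.Ioo (1 : ℝ) 2) : max 0 ((t - 1) * (2 - t)) = 0 := by
  refine max_eq_left ?_
  by_contra hc
  push Not at hc
  apply ht
  constructor
  · by_contra h1
    push Not at h1
    have : (t - 1) * (2 - t) ≤ 0 := mul_nonpos_of_nonpos_of_nonneg (by linarith) (by linarith)
    linarith
  · by_contra h1
    push Not at h1
    have : (t - 1) * (2 - t) ≤ 0 := mul_nonpos_of_nonneg_of_nonpos (by linarith) (by linarith)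
    linarith

theorem thp_zero {t : ℝ} (ht : t ∉ Set.Ioo (1 : ℝ) 2) : thp t = 0 := by
  unfold thp
  rw [GE_max ht]; ring

theorem thd_zero {t : ℝ} (ht : t ∉ Set.Ioo (1 : ℝ) 2) : thd t = 0 := by
  unfold thd
  rw [GE_max ht]; ring

theorem GE_sq (x : ℝ) : HasDerivAt (fun x : ℝ => (max 0 x) ^ 2) (2 * max 0 x) x := by
  rcases lt_trichotomy x 0 with h | h | h
  · rw [max_eq_left h.le, mul_zero]
    refine (hasDerivAt_const x (0 : ℝ)).congr_of_eventuallyEq ?_
    filter_upwards [Iio_mem_nhds h] with y hy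
    rw [max_eq_left (le_of_lt hy)]; ring
  · subst h
    rw [max_self, mul_zero, hasDerivAt_iff_tendsto_slope]
    have h1 : Tendsto (fun h : ℝ => max 0 h) (𝓝[≠] 0) (𝓝 0) := by
      have h2 : Continuous (fun h : ℝ => max 0 h) := continuous_const.max continuous_id
      have h3 := (h2.tendsto 0).mono_left (nhdsWithin_le_nhds (s := {0}ᶜ))
      simpa using h3
    refine h1.congr' ?_
    filter_upwards [self_mem_nhdsWithin] with y hy
    have hy0 : y ≠ 0 := hy
    rw [slope_def_field]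
    rcases le_total y 0 with h2 | h2
    · simp [max_eq_left h2]
    · rw [max_eq_right h2]
      field_simp
      simp
      ring
  · rw [max_eq_right h.le]
    have h1 : HasDerivAt (fun x : ℝ => x ^ 2) (2 * x) x := by
      simpa using hasDerivAt_pow 2 x
    refine h1.congr_of_eventuallyEq ?_
    filter_upwards [Ioi_mem_nhds h] with y hy
    rw [max_eq_right (le_of_lt hy)]

theorem thp_hasDerivAt (t : ℝ) : HasDerivAt thp (thd t) t := by
  have h1 : HasDerivAt (fun t : ℝ => (t - 1) * (2 - t)) (1 * (2 - t) + (t - 1) * (-1)) t := by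
    have a : HasDerivAt (fun t : ℝ => t - 1) 1 t := by simpa using (hasDerivAt_id t).sub_const 1
    have b : HasDerivAt (fun t : ℝ => 2 - t) (-1) t := by simpa using (hasDerivAt_id t).const_sub 2
    exact a.mul b
  have h2 := (GE_sq ((t - 1) * (2 - t))).comp t h1
  have h3 : (fun x : ℝ => (max 0 x) ^ 2) ∘ (fun t : ℝ => (t - 1) * (2 - t)) = thp := by
    funext s; rfl
  rw [h3] at h2
  refine h2.congr_deriv ?_
  unfold thd; ring

theorem thp_continuous : Continuous thp := by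
  unfold thp; fun_prop

theorem thd_continuous : Continuous thd := by
  unfold thd; fun_prop

/-- `|thp| ≤ 1`, `|thd| ≤ 2` -/
theorem thp_bdd (t : ℝ) : |thp t| ≤ 1 ∧ |thd t| ≤ 2 := by
  by_cases ht : t ∈ Set.Ioo (1 : ℝ) 2
  · obtain ⟨h1, h2⟩ := ht
    have h3 : 0 ≤ (t - 1) * (2 - t) := mul_nonneg (by linarith) (by linarith)
    have h4 : (t - 1) * (2 - t) ≤ 1 / 4 := by nlinarith [sq_nonneg (2 * t - 3)]
    have h5 : max 0 ((t - 1) * (2 - t)) = (t - 1) * (2 - t) := max_eq_right h3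
    unfold thp thd
    rw [h5]
    generalize (t - 1) * (2 - t) = u at h3 h4
    constructor
    · rw [abs_of_nonneg (by positivity)]; nlinarith
    · rw [abs_mul, abs_mul, abs_of_nonneg h3, abs_two]
      have h6 : |3 - 2 * t| ≤ 1 := by rw [abs_le]; constructor <;> linarith
      have h7 := abs_nonneg (3 - 2 * t)
      nlinarith
  · rw [thp_zero ht, thd_zero ht]; norm_num

theorem thp_lip : LipschitzWith 2 thp := by
  refine lipschitzWith_of_nnnorm_deriv_le (fun t => (thp_hasDerivAt t).differentiableAt) fun t => ?_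
  rw [(thp_hasDerivAt t).deriv, ← NNReal.coe_le_coe, coe_nnnorm, Real.norm_eq_abs]
  exact (thp_bdd t).2

theorem GE_kA_eq (j : ℕ) {G : ℝ → ℝ} (hG0 : ∀ t, t ∉ Set.Ioo (1 : ℝ) 2 → G t = 0) :
    kAG j G = ∫ s in (1 / 2 : ℝ)..1, (s⁻¹) ^ (j + 1) * G s⁻¹ := by
  unfold kAG
  rw [intervalIntegral.integral_of_le (by norm_num)]
  refine setIntegral_eq_of_subset_of_forall_sdiff_eq_zero measurableSet_Ioi ?_ ?_
  · intro s hs
    have : (1 / 2 : ℝ) < s := hs.1
    exact lt_trans (by norm_num) this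
  · intro s hs
    obtain ⟨h0, h1⟩ := hs
    have h0' : (0 : ℝ) < s := h0
    rw [hG0, mul_zero]
    intro h2
    apply h1
    have h3 : 1 < s⁻¹ := h2.1
    have h4 : s⁻¹ < 2 := h2.2
    rw [one_lt_inv₀ h0'] at h3
    rw [inv_lt_comm₀ h0' (by norm_num)] at h4
    exact ⟨by norm_num at h4 ⊢; linarith, h3.le⟩

theorem kA_pos : 0 < kAG 0 (fun t => thp t ^ 2) := by
  rw [GE_kA_eq 0 (fun t ht => by rw [thp_zero ht]; ring)]
  refine intervalIntegral.intervalIntegral_pos_of_pos_on ?_ ?_ (by norm_num)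
  · refine ContinuousOn.intervalIntegrable ?_
    have h1 : ContinuousOn (fun s : ℝ => s⁻¹) (Set.uIcc (1 / 2 : ℝ) 1) := by
      refine continuousOn_inv₀.mono fun s hs => ?_
      rw [Set.uIcc_of_le (by norm_num)] at hs
      have : (1 / 2 : ℝ) ≤ s := hs.1
      have h2 : s ≠ 0 := by intro h; rw [h] at this; norm_num at this
      exact h2
    exact (h1.pow _).mul ((thp_continuous.comp_continuousOn h1).pow 2)
  · intro s hs
    obtain ⟨h1, h2⟩ := hs
    have h0 : (0 : ℝ) < s := lt_trans (by norm_num) h1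
    have h3 : 1 < s⁻¹ := (one_lt_inv₀ h0).mpr h2
    have h4 : s⁻¹ < 2 := by
      rw [inv_lt_comm₀ h0 (by norm_num)]; norm_num at h1 ⊢; linarith
    have h5 : 0 < (s⁻¹ - 1) * (2 - s⁻¹) := mul_pos (by linarith) (by linarith)
    have h6 : 0 < thp s⁻¹ := by
      unfold thp
      rw [max_eq_right h5.le]; positivity
    positivity

theorem kA_cross : kAG 1 (fun t => thp t * thd t) = 0 := by
  rw [GE_kA_eq 1 (fun t ht => by rw [thp_zero ht]; ring)]
  have hd : ∀ s ∈ Set.uIcc (1 / 2 : ℝ) 1, HasDerivAt (fun s : ℝ => -(1 / 2) * thp s⁻¹ ^ 2)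
      ((s⁻¹) ^ (1 + 1) * (thp s⁻¹ * thd s⁻¹)) s := by
    intro s hs
    rw [Set.uIcc_of_le (by norm_num)] at hs
    have h0 : s ≠ 0 := by
      have : (1 / 2 : ℝ) ≤ s := hs.1
      intro h; rw [h] at this; norm_num at this
    have h1 := (thp_hasDerivAt s⁻¹).comp s (hasDerivAt_inv h0)
    have h2 := (h1.pow 2).const_mul (-(1 / 2))
    refine h2.congr_deriv ?_
    simp only [Function.comp_apply]
    rw [show (s⁻¹) ^ (1 + 1) = (s ^ 2)⁻¹ by rw [inv_pow]]
    norm_num
    ring
  rw [intervalIntegral.integral_eq_sub_of_hasDerivAt hd]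
  · have h1 : thp (1:ℝ)⁻¹ = 0 := thp_zero (by norm_num)
    have h2 : thp (1 / 2 : ℝ)⁻¹ = 0 := thp_zero (by norm_num)
    rw [h1, h2]; ring
  · refine ContinuousOn.intervalIntegrable ?_
    have h1 : ContinuousOn (fun s : ℝ => s⁻¹) (Set.uIcc (1 / 2 : ℝ) 1) := by
      refine continuousOn_inv₀.mono fun s hs => ?_
      rw [Set.uIcc_of_le (by norm_num)] at hs
      have : (1 / 2 : ℝ) ≤ s := hs.1
      have h2 : s ≠ 0 := by intro h; rw [h] at this; norm_num at this
      exact h2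
    exact (h1.pow _).mul ((thp_continuous.comp_continuousOn h1).mul (thd_continuous.comp_continuousOn h1))

theorem kA_nonneg (j : ℕ) {G : ℝ → ℝ} (hG : ∀ t, 0 ≤ G t) : 0 ≤ kAG j G := by
  unfold kAG
  refine setIntegral_nonneg measurableSet_Ioi fun s hs => ?_
  have h0 : (0 : ℝ) < s := hs
  have := hG s⁻¹
  positivity

end Ion
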