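import Pool.Agent.Lib.MP_69e010_mp.G.GDefs

/-!
# JOB GF1 (stream G of MP_69e010_mp): the scaling integral

For `D > 0`: `∫_0^∞ (b⁻¹)^{j+1} G(D/b) db = (D⁻¹)^j kAG j G` (substitute `b = D s`: `MeasureTheory.integral_comp_mul_left_Ioi` or
`integral_comp_mul_right_Ioi`), the same with `|G|`; the integrand is continuous with compact support in `[D/2, D]`, so it is integrable.
`scale_int`: integrability on the product: `integrable_prod_iff` (or `Integrable.prod_right`...; for a.e. `Y` (those with `D Y > 0`) the function of `b` is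
integrable, and `Y ↦ ∫_b ‖…‖ = (D⁻¹)^j kAG j |G| |g Y|` is integrable since `(D⁻¹)^j g` is). Measurability of `(Y, b) ↦ G (D Y / b)`: `G` continuous, `D` measurable.
Then `integral_integral_swap` / `integral_prod`.
-/

open MeasureTheory Metric Finset Filter Topology

noncomputable section

namespace Ion

variable {n : ℕ}

theorem scale_one {G : ℝ → ℝ} (hG : Continuous G) (hG0 : ∀ t, t ∉ Set.Ioo (1 : ℝ) 2 → G t = 0) (j : ℕ)
    {D : ℝ} (hD : 0 < D) :
    IntegrableOn (fun b : ℝ => (b⁻¹) ^ (j + 1) * G (D / b)) (Set.Ioi 0) ∧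
    ∫ b in Set.Ioi (0 : ℝ), (b⁻¹) ^ (j + 1) * G (D / b) = (D⁻¹) ^ j * kAG j G := by
  constructor
  · have h1 : IntegrableOn (fun b : ℝ => (b⁻¹) ^ (j + 1) * G (D / b)) (Set.Icc (D / 2) D) := by
      have h2 : ContinuousOn (fun s : ℝ => s⁻¹) (Set.Icc (D / 2) D) := by
        refine continuousOn_inv₀.mono fun s hs => ?_
        have : D / 2 ≤ s := hs.1
        have h3 : 0 < s := by linarith
        exact h3.ne'
      have h4 : ContinuousOn (fun s : ℝ => D / s) (Set.Icc (D / 2) D) := by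
        simp only [div_eq_mul_inv]
        exact continuousOn_const.mul h2
      exact ((h2.pow _).mul (hG.comp_continuousOn h4)).integrableOn_compact isCompact_Icc
    refine h1.of_forall_sdiff_eq_zero measurableSet_Ioi fun s hs => ?_
    obtain ⟨h0, h2⟩ := hs
    have h0' : (0 : ℝ) < s := h0
    rw [hG0, mul_zero]
    intro h3
    apply h2
    have h4 : 1 < D / s := h3.1
    have h5 : D / s < 2 := h3.2
    rw [lt_div_iff₀ h0'] at h4
    rw [div_lt_iff₀ h0'] at h5
    exact ⟨by linarith, by linarith⟩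
  · have h1 := integral_comp_mul_left_Ioi (fun b : ℝ => (b⁻¹) ^ (j + 1) * G (D / b)) 0 hD
    rw [mul_zero, smul_eq_mul] at h1
    have h2 : ∫ s in Set.Ioi (0 : ℝ), ((D * s)⁻¹) ^ (j + 1) * G (D / (D * s))
        = (D⁻¹) ^ (j + 1) * kAG j G := by
      unfold kAG
      rw [← integral_const_mul]
      refine integral_congr_ae (Eventually.of_forall fun s => ?_)
      show ((D * s)⁻¹) ^ (j + 1) * G (D / (D * s)) = (D⁻¹) ^ (j + 1) * ((s⁻¹) ^ (j + 1) * G s⁻¹)
      have h3 : D / (D * s) = s⁻¹ := by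
        rw [div_mul_eq_div_div, div_self hD.ne', one_div]
      rw [h3, mul_inv, mul_pow]
      ring
    rw [h2] at h1
    have h3 : ∫ b in Set.Ioi (0 : ℝ), (b⁻¹) ^ (j + 1) * G (D / b)
        = D * (D⁻¹ * ∫ b in Set.Ioi (0 : ℝ), (b⁻¹) ^ (j + 1) * G (D / b)) := by
      rw [← mul_assoc, mul_inv_cancel₀ hD.ne', one_mul]
    rw [h3, ← h1, pow_succ]
    field_simp

theorem GF1_bdd {G : ℝ → ℝ} (hG : Continuous G) (hG0 : ∀ t, t ∉ Set.Ioo (1 : ℝ) 2 → G t = 0) :
    ∃ C, 0 ≤ C ∧ ∀ t, |G t| ≤ C := by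
  obtain ⟨C, hC⟩ := (isCompact_Icc (a := (1:ℝ)) (b := 2)).exists_bound_of_continuousOn hG.continuousOn
  refine ⟨max C 0, le_max_right _ _, fun t => ?_⟩
  by_cases ht : t ∈ Set.Ioo (1 : ℝ) 2
  · exact (hC t (Set.Ioo_subset_Icc_self ht)).trans (le_max_left _ _)
  · rw [hG0 t ht, abs_zero]; exact le_max_right _ _

theorem scale_int {G : ℝ → ℝ} (hG : Continuous G) (hG0 : ∀ t, t ∉ Set.Ioo (1 : ℝ) 2 → G t = 0) (j : ℕ)
    {D g : Conf n → ℝ} (hD : Measurable D) (hD0 : ∀ᵐ Y, 0 < D Y) (hg : Measurable g)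
    (hi : Integrable (fun Y => ((D Y)⁻¹) ^ j * g Y)) :
    (∀ b : ℝ, 0 < b → Integrable (fun Y => (b⁻¹) ^ (j + 1) * G (D Y / b) * g Y)) ∧
    IntegrableOn (fun b : ℝ => ∫ Y, (b⁻¹) ^ (j + 1) * G (D Y / b) * g Y) (Set.Ioi 0) ∧
    ∫ b in Set.Ioi (0 : ℝ), (∫ Y, (b⁻¹) ^ (j + 1) * G (D Y / b) * g Y)
      = kAG j G * ∫ Y, ((D Y)⁻¹) ^ j * g Y := by
  obtain ⟨C, hC0, hC⟩ := GF1_bdd hG hG0
  constructor
  · intro b hb
    refine (hi.norm.const_mul ((b⁻¹) ^ (j + 1) * C * (2 * b) ^ j)).mono' ?_ ?_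
    · exact ((measurable_const.mul (hG.measurable.comp (hD.div_const b))).mul hg).aestronglyMeasurable
    · filter_upwards [hD0] with Y hY
      rw [norm_mul, norm_mul, norm_pow, norm_inv, Real.norm_of_nonneg hb.le, norm_mul, norm_pow, norm_inv,
        Real.norm_of_nonneg hY.le]
      by_cases ht : D Y / b ∈ Set.Ioo (1 : ℝ) 2
      · have h1 : D Y < 2 * b := by
          have := ht.2; rwa [div_lt_iff₀ hb] at this
        have h2 : ‖G (D Y / b)‖ ≤ C := hC _
        have h3 : 1 ≤ (2 * b) ^ j * ((D Y)⁻¹) ^ j := by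
          rw [← mul_pow]
          refine one_le_pow₀ ?_
          rw [← div_eq_mul_inv, one_le_div hY]; exact h1.le
        have h4 : 0 ≤ ‖g Y‖ := norm_nonneg _
        calc (b⁻¹) ^ (j + 1) * ‖G (D Y / b)‖ * ‖g Y‖ ≤ (b⁻¹) ^ (j + 1) * C * (1 * ‖g Y‖) := by
              rw [one_mul]; gcongr
          _ ≤ (b⁻¹) ^ (j + 1) * C * ((2 * b) ^ j * ((D Y)⁻¹) ^ j * ‖g Y‖) := by gcongr
          _ = _ := by ring
      · rw [hG0 _ ht, norm_zero, mul_zero, zero_mul]
        positivity
  · -- Fubini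
    have hmeas : Measurable (fun p : ℝ × Conf n => (p.1⁻¹) ^ (j + 1) * G (D p.2 / p.1) * g p.2) := by
      refine ((measurable_fst.inv.pow_const _).mul (hG.measurable.comp ?_)).mul (hg.comp measurable_snd)
      exact (hD.comp measurable_snd).div measurable_fst
    have habs0 : ∀ t, t ∉ Set.Ioo (1 : ℝ) 2 → |G t| = 0 := fun t ht => by rw [hG0 t ht, abs_zero]
    have hint : Integrable (Function.uncurry fun (b : ℝ) (Y : Conf n) => (b⁻¹) ^ (j + 1) * G (D Y / b) * g Y)
        ((volume.restrict (Set.Ioi (0 : ℝ))).prod volume) := by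
      have hmeas' : Measurable
          (Function.uncurry fun (b : ℝ) (Y : Conf n) => (b⁻¹) ^ (j + 1) * G (D Y / b) * g Y) := hmeas
      rw [integrable_prod_iff' hmeas'.aestronglyMeasurable]
      constructor
      · filter_upwards [hD0] with Y hY
        have h0 := (scale_one hG hG0 j hY).1.mul_const (g Y)
        exact h0
      · have h1 : Integrable (fun Y : Conf n => kAG j (fun t => |G t|) * ‖((D Y)⁻¹) ^ j * g Y‖) :=
          hi.norm.const_mul _
        refine h1.congr ?_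
        filter_upwards [hD0] with Y hY
        have h2 := (scale_one hG.abs habs0 j hY).2
        have h3 : ∫ b in Set.Ioi (0 : ℝ), ‖Function.uncurry (fun (b : ℝ) (Y : Conf n) => (b⁻¹) ^ (j + 1) * G (D Y / b) * g Y) (b, Y)‖
            = ∫ b in Set.Ioi (0 : ℝ), (b⁻¹) ^ (j + 1) * |G (D Y / b)| * ‖g Y‖ := by
          refine setIntegral_congr_fun measurableSet_Ioi fun b hb => ?_
          have hb0 : (0 : ℝ) < b := hb
          simp only [Function.uncurry_apply_pair]
          rw [norm_mul, norm_mul, norm_pow, norm_inv, Real.norm_of_nonneg hb0.le, Real.norm_eq_abs (G _)]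
        rw [h3, integral_mul_const, h2, norm_mul, norm_pow, norm_inv, Real.norm_of_nonneg hY.le]
        ring
    refine ⟨hint.integral_prod_left, ?_⟩
    have h1 := integral_integral_swap hint
    rw [h1, ← integral_const_mul]
    refine integral_congr_ae ?_
    filter_upwards [hD0] with Y hY
    rw [integral_mul_const, (scale_one hG hG0 j hY).2]
    ring

end Ion
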