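import Pool.Agent.Lib.MP_69e010_mp.QTools
import Pool.Agent.Lib.MP_69e010_mp.G.GE

/-!
# JOB GF2 (stream G of MP_69e010_mp): energy of the localized state

`cutb D b Y = b^{-1/2} thp (D Y / b)`: Lipschitz (`thp_lip`, `D` Lipschitz), symmetric. At points `Y` where `D` and `φ σ` are differentiable (a.e.):
`pd k c (cutb D b) Y = b^{-3/2} thd (D Y/b) pd k c D Y` and by `pd_mul`
`∑_k gsq k (cutb · φ σ) = b⁻¹ thp² ∑_k gsq k φ + 2 b⁻² thp thd φ ∑_k gin k D φ + b⁻³ thd² (∑_k gsq k D) φ²`.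
`(cutb)² = b⁻¹ thp²`.
-/

open MeasureTheory Metric Finset Filter Topology

noncomputable section

namespace Ion

variable {n : ℕ}

theorem GF2_lip {D : Conf n → ℝ} (hD : LipschitzWith 1 D) {b : ℝ} (hb : 0 < b) :
    LipschitzWith (Real.toNNReal ((√b)⁻¹ * (2 / b))) (cutb D b) := by
  refine LipschitzWith.of_dist_le_mul fun X Y => ?_
  have h1 := hD.dist_le_mul X Y
  have h2 := thp_lip.dist_le_mul (D X / b) (D Y / b)
  rw [Real.dist_eq] at h1 h2 ⊢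
  rw [Real.dist_eq] at h2
  have hs : 0 ≤ (√b)⁻¹ := by positivity
  rw [Real.coe_toNNReal _ (by positivity)]
  unfold cutb
  rw [← mul_sub, abs_mul, abs_of_nonneg hs, mul_assoc]
  refine mul_le_mul_of_nonneg_left ?_ hs
  have h3 : |D X / b - D Y / b| = |D X - D Y| / b := by
    rw [← sub_div, abs_div, abs_of_pos hb]
  rw [h3] at h2
  have h4 : ((2 : NNReal) : ℝ) = 2 := by norm_num
  have h5 : ((1 : NNReal) : ℝ) = 1 := by norm_num
  rw [h4] at h2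
  rw [h5, one_mul] at h1
  calc |thp (D X / b) - thp (D Y / b)| ≤ 2 * (|D X - D Y| / b) := h2
    _ ≤ 2 * (dist X Y / b) := by gcongr
    _ = 2 / b * dist X Y := by ring

theorem cutb_adms {φ : RW n} (hφ : Adms φ) {D : Conf n → ℝ} (hD : LipschitzWith 1 D)
    (hs : ∀ (π : Equiv.Perm (Fin n)) Y, D (Y ∘ π) = D Y) {b : ℝ} (hb : 0 < b) :
    Adms (mulw (cutb D b) φ) := by
  refine ⟨fun σ => ?_, fun π σ X => ?_⟩
  · have h := (hφ.1 σ).mul (GF2_lip hD hb)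
    have e : mulw (cutb D b) φ σ = fun X => φ σ X * cutb D b X := by
      funext X
      simp only [mulw]
      ring
    rw [e]
    exact h
  · have h := hφ.2 π σ X
    simp only [mulw]
    rw [h]
    unfold cutb
    rw [hs]
    ring

theorem GF2_pd {D : Conf n → ℝ} {b : ℝ} {Y : Conf n} (hD : DifferentiableAt ℝ D Y) :
    DifferentiableAt ℝ (cutb D b) Y ∧
    ∀ k c, pd k c (cutb D b) Y = (√b)⁻¹ * (thd (D Y / b) * (b⁻¹ * pd k c D Y)) := by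
  have h1 : HasFDerivAt (fun Y => D Y / b) (b⁻¹ • fderiv ℝ D Y) Y := by
    have := hD.hasFDerivAt.const_mul b⁻¹
    have e : (fun Y => D Y / b) = fun Y => b⁻¹ * D Y := by
      funext Y
      ring
    rw [e]
    exact this
  have h2 : HasFDerivAt (fun Y => thp (D Y / b)) (thd (D Y / b) • (b⁻¹ • fderiv ℝ D Y)) Y :=
    HasDerivAt.comp_hasFDerivAt (h₂ := thp) (f := fun Y => D Y / b) Y (thp_hasDerivAt (D Y / b)) h1
  have h3 : HasFDerivAt (cutb D b) ((√b)⁻¹ • (thd (D Y / b) • (b⁻¹ • fderiv ℝ D Y))) Y :=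
    h2.const_mul (√b)⁻¹
  refine ⟨h3.differentiableAt, fun k c => ?_⟩
  unfold pd
  rw [h3.fderiv]
  rfl

theorem cutb_gsq {φ : RW n} (hφ : Adms φ) {D : Conf n → ℝ} (hD : LipschitzWith 1 D) {b : ℝ} (hb : 0 < b)
    (σ : Spin n) : ∀ᵐ Y, ∑ k, gsq k (mulw (cutb D b) φ σ) Y
      = (b⁻¹) ^ 1 * (thp (D Y / b)) ^ 2 * (∑ k, gsq k (φ σ) Y)
        + (b⁻¹) ^ 2 * (thp (D Y / b) * thd (D Y / b)) * (2 * φ σ Y * ∑ k, gin k D (φ σ) Y)
        + (b⁻¹) ^ 3 * (thd (D Y / b)) ^ 2 * ((∑ k, gsq k D Y) * (φ σ Y) ^ 2) := by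
  filter_upwards [lip_ae_diff hD, (hφ.1 σ).ae_diff] with Y h1 h2
  obtain ⟨h3, h4⟩ := GF2_pd (b := b) h1
  have h5 : ∀ k c, pd k c (mulw (cutb D b) φ σ) Y
      = cutb D b Y * pd k c (φ σ) Y + (√b)⁻¹ * (thd (D Y / b) * (b⁻¹ * pd k c D Y)) * φ σ Y := by
    intro k c
    have h6 : mulw (cutb D b) φ σ = fun X => cutb D b X * φ σ X := rfl
    rw [h6, pd_mul h3 h2, h4]
  have h7 : ((√b)⁻¹) ^ 2 = b⁻¹ := by
    rw [inv_pow, Real.sq_sqrt hb.le]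
  simp only [gsq, gin, h5]
  simp only [Finset.mul_sum, Finset.sum_mul, ← Finset.sum_add_distrib]
  refine Finset.sum_congr rfl fun k _ => Finset.sum_congr rfl fun c _ => ?_
  unfold cutb
  have h8 : ((√b)⁻¹ * thp (D Y / b) * pd k c (φ σ) Y
      + (√b)⁻¹ * (thd (D Y / b) * (b⁻¹ * pd k c D Y)) * φ σ Y) ^ 2
      = ((√b)⁻¹) ^ 2 * (thp (D Y / b) * pd k c (φ σ) Y
      + (thd (D Y / b) * (b⁻¹ * pd k c D Y)) * φ σ Y) ^ 2 := by ring
  rw [h8, h7]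
  ring

theorem cutb_sq {φ : RW n} {D : Conf n → ℝ} {b : ℝ} (hb : 0 < b) (σ : Spin n) (Y : Conf n) :
    (mulw (cutb D b) φ σ Y) ^ 2 = (b⁻¹) ^ 1 * (thp (D Y / b)) ^ 2 * (φ σ Y) ^ 2 := by
  have h7 : ((√b)⁻¹) ^ 2 = b⁻¹ := by
    rw [inv_pow, Real.sq_sqrt hb.le]
  simp only [mulw, cutb]
  rw [mul_pow, mul_pow, h7, pow_one]

end Ion
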