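import Pool.Agent.Lib.MP_69e010_mp.I0
import Pool.Agent.Lib.MP_69e010_mp.G.GC3
import Pool.Agent.Lib.MP_69e010_mp.G.GF1
import Pool.Agent.Lib.MP_69e010_mp.G.GF2

/-!
# JOB GF3 (stream G of MP_69e010_mp): the inequality at a fixed point `y`

Let `ψ_b := mulw (cutb D b) φ`, `b > 0`. If `thp (D Y/b) ≠ 0` then `b < D Y`, so `4 b < ‖Y k - y‖`, `8 b < ‖y‖`. `EN_prod` for `ψ_b` (if `b ≤ ‖y‖`; otherwise `ψ_b = 0` and both
sides are `0`) and `cutb_gsq`, `cutb_sq` give `0 ≤ J b` with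
`J b = ∑_σ ∫ [ b⁻¹ thp² (∑_k gsq k φ + (V + ∑_k ‖Y k - y‖⁻¹ - z/‖y‖ - E) φ²) + b⁻² thp thd (2 φ ∑_k gin k D φ) + b⁻³ thd² (∑_k gsq k D) φ² + 10 b⁻³ thp² φ² ]`
(`b⁻¹ · 10/b² = 10 b⁻³`). Integrate over `b ∈ (0,∞)` with `scale_int` (four terms: `j = 0, 1, 2, 2`, `G = thp², thp·thd, thd², thp²`):
`0 ≤ A (qf z φ - E nrm2 φ + ∑_σ ∫ (∑_k ‖Y k - y‖⁻¹ - z/‖y‖) φ²) + 0 + A' ∑_σ ∫ D⁻² (∑_k gsq k D) φ² + 10 A'' ∑_σ ∫ D⁻² φ²`
with `A = kAG 0 (thp²) > 0`, `A' = kAG 2 (thd²)`, `A'' = kAG 2 (thp²)`, the cross term vanishes by `kA_cross`. `∑_k gsq k D ≤ 1` a.e. (file I0: `sum_gsq_le` type lemma at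
points of differentiability). Divide by `A`: `CB = (A' + 10 A'')/A + 1`.
Integrability: `∑ gsq φ`, `V φ²` by QTools; `‖Y k - y‖⁻¹ φ² ≤ (4 D)⁻¹ φ²`, `D⁻¹ φ² ≤ (D⁻² + 1) φ²`, `D⁻¹ |φ ∑ gin k D φ| ≤ D⁻² φ² ∑ gsq D + ∑ gsq φ`.
-/

open MeasureTheory Metric Finset Filter Topology

noncomputable section

namespace Ion

variable {n : ℕ}

/-- the hypotheses on the cutoff function -/
structure GF3_H (φ : RW n) (y : E3) (D : Conf n → ℝ) : Prop where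
  adm : Adms φ
  lip : LipschitzWith 1 D
  symm : ∀ (π : Equiv.Perm (Fin n)) Y, D (Y ∘ π) = D Y
  nn : ∀ Y, 0 ≤ D Y
  pos : ∀ᵐ Y, 0 < D Y
  sep : ∀ Y k, 4 * D Y ≤ ‖Y k - y‖
  le : ∀ Y, 8 * D Y ≤ ‖y‖
  int : ∀ σ, Integrable (fun Y => ((D Y)⁻¹) ^ 2 * (φ σ Y) ^ 2)

def GF3_g1 (z E : ℝ) (φ : RW n) (y : E3) (σ : Spin n) (Y : Conf n) : ℝ :=
  ∑ k, gsq k (φ σ) Y + (V z Y + (∑ k, ‖Y k - y‖⁻¹ - z / ‖y‖) - E) * (φ σ Y) ^ 2

def GF3_g2 (φ : RW n) (D : Conf n → ℝ) (σ : Spin n) (Y : Conf n) : ℝ :=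
  2 * φ σ Y * ∑ k, gin k D (φ σ) Y

def GF3_g3 (φ : RW n) (D : Conf n → ℝ) (σ : Spin n) (Y : Conf n) : ℝ :=
  (∑ k, gsq k D Y) * (φ σ Y) ^ 2

def GF3_g4 (φ : RW n) (σ : Spin n) (Y : Conf n) : ℝ := 10 * (φ σ Y) ^ 2

theorem GF3_msq {φ : RW n} (hφ : Adms φ) (σ : Spin n) : Measurable (fun Y => (φ σ Y) ^ 2) :=
  (hφ.1 σ).cont.measurable.pow_const 2

theorem GF3_mS (y : E3) : Measurable (fun Y : Conf n => ∑ k, ‖Y k - y‖⁻¹) :=
  Finset.measurable_fun_sum _ fun k _ => GC3_meas y k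

theorem GF3_mV (z : ℝ) : Measurable (V z : Conf n → ℝ) := by
  have h1 : Measurable (Vee : Conf n → ℝ) := by
    unfold Vee
    refine Finset.measurable_fun_sum _ fun i _ => Finset.measurable_fun_sum _ fun j _ => ?_
    have h1 : Continuous (fun Y : Conf n => ‖Y i - Y j‖) :=
      ((continuous_apply i).sub (continuous_apply j)).norm
    exact Measurable.inv h1.measurable
  have h2 : Measurable (Ven : Conf n → ℝ) := by
    unfold Ven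
    refine Finset.measurable_fun_sum _ fun i _ => ?_
    have h1 : Continuous (fun Y : Conf n => ‖Y i‖) := (continuous_apply i).norm
    exact Measurable.inv h1.measurable
  exact h1.sub (h2.const_mul z)

theorem GF3_mgin (F G : Conf n → ℝ) (k : Fin n) : Measurable (gin k F G) := by
  unfold gin
  exact Finset.measurable_fun_sum _ fun c _ => (measurable_pd k c F).mul (measurable_pd k c G)

theorem GF3_m1 (z E : ℝ) {φ : RW n} (hφ : Adms φ) (y : E3) (σ : Spin n) :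
    Measurable (GF3_g1 z E φ y σ) := by
  unfold GF3_g1
  have h1 : Measurable (fun Y => ∑ k, gsq k (φ σ) Y) :=
    Finset.measurable_fun_sum _ fun k _ => measurable_gsq k _
  exact h1.add ((((GF3_mV z).add ((GF3_mS y).sub_const _)).sub_const E).mul (GF3_msq hφ σ))

theorem GF3_m2 {φ : RW n} (hφ : Adms φ) (D : Conf n → ℝ) (σ : Spin n) : Measurable (GF3_g2 φ D σ) := by
  unfold GF3_g2
  have h1 : Measurable (fun Y => ∑ k, gin k D (φ σ) Y) :=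
    Finset.measurable_fun_sum _ fun k _ => GF3_mgin _ _ k
  exact ((hφ.1 σ).cont.measurable.const_mul 2).mul h1

theorem GF3_m3 {φ : RW n} (hφ : Adms φ) (D : Conf n → ℝ) (σ : Spin n) : Measurable (GF3_g3 φ D σ) := by
  unfold GF3_g3
  have h1 : Measurable (fun Y => ∑ k, gsq k D Y) :=
    Finset.measurable_fun_sum _ fun k _ => measurable_gsq k _
  exact h1.mul (GF3_msq hφ σ)

theorem GF3_m4 {φ : RW n} (hφ : Adms φ) (σ : Spin n) : Measurable (GF3_g4 φ σ) := by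
  unfold GF3_g4
  exact (GF3_msq hφ σ).const_mul 10

theorem GF3_cs (D F : Conf n → ℝ) (Y : Conf n) (a : ℝ) :
    2 * a * ∑ k, gin k D F Y ≤ a ^ 2 * (∑ k, gsq k D Y) + ∑ k, gsq k F Y := by
  rw [Finset.mul_sum, Finset.mul_sum, ← Finset.sum_add_distrib]
  refine Finset.sum_le_sum fun k _ => ?_
  unfold gin gsq
  rw [Finset.mul_sum, Finset.mul_sum, ← Finset.sum_add_distrib]
  refine Finset.sum_le_sum fun c _ => ?_
  nlinarith [sq_nonneg (a * pd k c D Y - pd k c F Y)]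

theorem GF3_cs' (D F : Conf n → ℝ) (Y : Conf n) (a : ℝ) :
    |2 * a * ∑ k, gin k D F Y| ≤ a ^ 2 * (∑ k, gsq k D Y) + ∑ k, gsq k F Y := by
  rw [abs_le]
  have h1 := GF3_cs D F Y a
  have h2 := GF3_cs D F Y (-a)
  constructor
  · have e : (-a) ^ 2 = a ^ 2 := by ring
    rw [e] at h2
    have e2 : 2 * -a * ∑ k, gin k D F Y = -(2 * a * ∑ k, gin k D F Y) := by ring
    rw [e2] at h2
    linarith
  · exact h1

theorem GF3_split {a b c d : Conf n → ℝ} (ha : Integrable a) (hb : Integrable b) (hc : Integrable c)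
    (hd : Integrable d) :
    ∫ Y, (a Y + b Y + c Y + d Y) = (∫ Y, a Y) + (∫ Y, b Y) + (∫ Y, c Y) + ∫ Y, d Y := by
  have h1 : Integrable (fun Y => a Y + b Y) := ha.add hb
  have h2 : Integrable (fun Y => a Y + b Y + c Y) := h1.add hc
  rw [integral_add h2 hd, integral_add h1 hc, integral_add ha hb]

theorem GF3_split' {a b c d : Conf n → ℝ} (E : ℝ) (ha : Integrable a) (hb : Integrable b)
    (hc : Integrable c) (hd : Integrable d) :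
    ∫ Y, (a Y + b Y + c Y - E * d Y) = (∫ Y, a Y) + (∫ Y, b Y) + (∫ Y, c Y) - E * ∫ Y, d Y := by
  have h1 : Integrable (fun Y => a Y + b Y) := ha.add hb
  have h2 : Integrable (fun Y => a Y + b Y + c Y) := h1.add hc
  rw [integral_sub h2 (hd.const_mul E), integral_add h1 hc, integral_add ha hb, integral_const_mul]

section

variable {φ : RW n} {y : E3} {D : Conf n → ℝ}

theorem GF3_intD (h : GF3_H φ y D) (σ : Spin n) : Integrable (fun Y => (D Y)⁻¹ * (φ σ Y) ^ 2) :=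
  aux_HC2_dom (r := fun Y => (D Y)⁻¹) (h.lip.continuous.measurable.inv)
    (fun Y => inv_nonneg.mpr (h.nn Y)) (GF3_msq h.adm σ) (h.adm.1 σ).integrable_sq (h.int σ)

theorem GF3_intk (h : GF3_H φ y D) (σ : Spin n) (k : Fin n) :
    Integrable (fun Y => ‖Y k - y‖⁻¹ * (φ σ Y) ^ 2) := by
  refine (GF3_intD h σ).mono' ((GC3_meas y k).mul (GF3_msq h.adm σ)).aestronglyMeasurable ?_
  filter_upwards [h.pos] with Y hY
  rw [Real.norm_eq_abs, abs_of_nonneg (by positivity)]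
  exact mul_le_mul_of_nonneg_right (inv_anti₀ hY (by linarith [h.sep Y k])) (sq_nonneg _)

theorem GF3_intS (h : GF3_H φ y D) (a : ℝ) (σ : Spin n) :
    Integrable (fun Y => (∑ k, ‖Y k - y‖⁻¹ - a) * (φ σ Y) ^ 2) := by
  have h3 : Integrable (fun Y => ∑ k, ‖Y k - y‖⁻¹ * (φ σ Y) ^ 2) :=
    integrable_finsetSum _ fun k _ => GF3_intk h σ k
  have h4 := (h.adm.1 σ).integrable_sq.const_mul a
  refine (h3.sub h4).congr (Filter.Eventually.of_forall fun Y => ?_)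
  simp only [Pi.sub_apply, ← Finset.sum_mul]
  ring

theorem GF3_int1 (z E : ℝ) (h : GF3_H φ y D) (σ : Spin n) :
    Integrable (GF3_g1 z E φ y σ) ∧
    ∫ Y, GF3_g1 z E φ y σ Y = (∫ Y, ∑ k, gsq k (φ σ) Y) + (∫ Y, V z Y * (φ σ Y) ^ 2)
      + (∫ Y, (∑ k, ‖Y k - y‖⁻¹ - z / ‖y‖) * (φ σ Y) ^ 2) - E * ∫ Y, (φ σ Y) ^ 2 := by
  have h1 : Integrable (fun Y => ∑ k, gsq k (φ σ) Y) :=
    integrable_finsetSum _ fun k _ => (h.adm.1 σ).integrable_gsq k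
  have h2 := (h.adm.1 σ).integrable_V z
  have h3 := GF3_intS h (z / ‖y‖) σ
  have h4 := (h.adm.1 σ).integrable_sq.const_mul E
  have e : GF3_g1 z E φ y σ = fun Y => (∑ k, gsq k (φ σ) Y + V z Y * (φ σ Y) ^ 2
      + (∑ k, ‖Y k - y‖⁻¹ - z / ‖y‖) * (φ σ Y) ^ 2) - E * (φ σ Y) ^ 2 := by
    funext Y
    unfold GF3_g1
    ring
  rw [e]
  refine ⟨((h1.add h2).add h3).sub h4, ?_⟩
  exact GF3_split' E h1 h2 h3 (h.adm.1 σ).integrable_sq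

theorem GF3_gD (h : GF3_H φ y D) : ∀ᵐ Y, ∑ k, gsq k D Y ≤ 1 := by
  filter_upwards [lip_ae_diff h.lip] with Y hY
  have h1 := sum_gsq_le_of_lip h.lip hY
  simpa using h1

theorem GF3_int2 (h : GF3_H φ y D) (σ : Spin n) :
    Integrable (fun Y => ((D Y)⁻¹) ^ 1 * GF3_g2 φ D σ Y) := by
  have h1 : Integrable (fun Y => ∑ k, gsq k (φ σ) Y) :=
    integrable_finsetSum _ fun k _ => (h.adm.1 σ).integrable_gsq k
  have hm : Measurable (fun Y => ((D Y)⁻¹) ^ 1 * GF3_g2 φ D σ Y) :=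
    ((h.lip.continuous.measurable.inv).pow_const 1).mul (GF3_m2 h.adm D σ)
  refine ((h.int σ).add h1).mono' hm.aestronglyMeasurable ?_
  filter_upwards [GF3_gD h] with Y hY
  rw [Real.norm_eq_abs]
  have h2 := GF3_cs' D (φ σ) Y ((D Y)⁻¹ * φ σ Y)
  have e : ((D Y)⁻¹) ^ 1 * GF3_g2 φ D σ Y = 2 * ((D Y)⁻¹ * φ σ Y) * ∑ k, gin k D (φ σ) Y := by
    unfold GF3_g2
    ring
  rw [e]
  refine h2.trans ?_
  simp only [Pi.add_apply]
  have h3 : ((D Y)⁻¹ * φ σ Y) ^ 2 * (∑ k, gsq k D Y) ≤ ((D Y)⁻¹ * φ σ Y) ^ 2 * 1 :=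
    mul_le_mul_of_nonneg_left hY (sq_nonneg _)
  rw [mul_one, mul_pow] at h3
  rw [mul_pow]
  linarith

theorem GF3_int3 (h : GF3_H φ y D) (σ : Spin n) :
    Integrable (fun Y => ((D Y)⁻¹) ^ 2 * GF3_g3 φ D σ Y) ∧
    ∫ Y, ((D Y)⁻¹) ^ 2 * GF3_g3 φ D σ Y ≤ ∫ Y, ((D Y)⁻¹) ^ 2 * (φ σ Y) ^ 2 := by
  have hm : Measurable (fun Y => ((D Y)⁻¹) ^ 2 * GF3_g3 φ D σ Y) :=
    ((h.lip.continuous.measurable.inv).pow_const 2).mul (GF3_m3 h.adm D σ)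
  have hle : ∀ᵐ Y, ((D Y)⁻¹) ^ 2 * GF3_g3 φ D σ Y ≤ ((D Y)⁻¹) ^ 2 * (φ σ Y) ^ 2 := by
    filter_upwards [GF3_gD h] with Y hY
    unfold GF3_g3
    refine mul_le_mul_of_nonneg_left ?_ (sq_nonneg _)
    have := mul_le_mul_of_nonneg_right hY (sq_nonneg (φ σ Y))
    rwa [one_mul] at this
  have hi : Integrable (fun Y => ((D Y)⁻¹) ^ 2 * GF3_g3 φ D σ Y) := by
    refine (h.int σ).mono' hm.aestronglyMeasurable ?_
    filter_upwards [hle] with Y hY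
    rw [Real.norm_eq_abs, abs_of_nonneg]
    · exact hY
    · unfold GF3_g3
      have h2 : 0 ≤ ∑ k, gsq k D Y := Finset.sum_nonneg fun k _ => gsq_nonneg k _ _
      positivity
  exact ⟨hi, integral_mono_ae hi (h.int σ) hle⟩

theorem GF3_int4 (h : GF3_H φ y D) (σ : Spin n) :
    Integrable (fun Y => ((D Y)⁻¹) ^ 2 * GF3_g4 φ σ Y) ∧
    ∫ Y, ((D Y)⁻¹) ^ 2 * GF3_g4 φ σ Y = 10 * ∫ Y, ((D Y)⁻¹) ^ 2 * (φ σ Y) ^ 2 := by
  have e : (fun Y => ((D Y)⁻¹) ^ 2 * GF3_g4 φ σ Y) = fun Y => 10 * (((D Y)⁻¹) ^ 2 * (φ σ Y) ^ 2) := by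
    funext Y
    unfold GF3_g4
    ring
  rw [e]
  exact ⟨(h.int σ).const_mul 10, integral_const_mul _ _⟩

/-- the four pieces -/
def GF3_P1 (z E : ℝ) (φ : RW n) (y : E3) (D : Conf n → ℝ) (σ : Spin n) (b : ℝ) (Y : Conf n) : ℝ :=
  (b⁻¹) ^ (0 + 1) * (thp (D Y / b)) ^ 2 * GF3_g1 z E φ y σ Y

def GF3_P2 (φ : RW n) (D : Conf n → ℝ) (σ : Spin n) (b : ℝ) (Y : Conf n) : ℝ :=
  (b⁻¹) ^ (1 + 1) * (thp (D Y / b) * thd (D Y / b)) * GF3_g2 φ D σ Y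

def GF3_P3 (φ : RW n) (D : Conf n → ℝ) (σ : Spin n) (b : ℝ) (Y : Conf n) : ℝ :=
  (b⁻¹) ^ (2 + 1) * (thd (D Y / b)) ^ 2 * GF3_g3 φ D σ Y

def GF3_P4 (φ : RW n) (D : Conf n → ℝ) (σ : Spin n) (b : ℝ) (Y : Conf n) : ℝ :=
  (b⁻¹) ^ (2 + 1) * (thp (D Y / b)) ^ 2 * GF3_g4 φ σ Y

theorem GF3_s1 (z E : ℝ) (h : GF3_H φ y D) (σ : Spin n) :
    (∀ b : ℝ, 0 < b → Integrable (GF3_P1 z E φ y D σ b)) ∧
    IntegrableOn (fun b : ℝ => ∫ Y, GF3_P1 z E φ y D σ b Y) (Set.Ioi 0) ∧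
    ∫ b in Set.Ioi (0 : ℝ), (∫ Y, GF3_P1 z E φ y D σ b Y)
      = kAG 0 (fun t => thp t ^ 2) * ∫ Y, GF3_g1 z E φ y σ Y := by
  have hi : Integrable (fun Y => ((D Y)⁻¹) ^ 0 * GF3_g1 z E φ y σ Y) := by
    simp only [pow_zero, one_mul]
    exact (GF3_int1 z E h σ).1
  have h0 := scale_int (G := fun t => thp t ^ 2) (thp_continuous.pow 2)
    (fun t ht => by simp only [thp_zero ht]; norm_num) 0 h.lip.continuous.measurable h.pos (GF3_m1 z E h.adm y σ) hi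
  simp only [pow_zero, one_mul] at h0
  exact h0

theorem GF3_s2 (h : GF3_H φ y D) (σ : Spin n) :
    (∀ b : ℝ, 0 < b → Integrable (GF3_P2 φ D σ b)) ∧
    IntegrableOn (fun b : ℝ => ∫ Y, GF3_P2 φ D σ b Y) (Set.Ioi 0) ∧
    ∫ b in Set.Ioi (0 : ℝ), (∫ Y, GF3_P2 φ D σ b Y) = 0 := by
  have h0 := scale_int (G := fun t => thp t * thd t) (thp_continuous.mul thd_continuous)
    (fun t ht => by simp only [thp_zero ht]; norm_num) 1 h.lip.continuous.measurable h.pos (GF3_m2 h.adm D σ)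
    (GF3_int2 h σ)
  rw [kA_cross, zero_mul] at h0
  exact h0

theorem GF3_s3 (h : GF3_H φ y D) (σ : Spin n) :
    (∀ b : ℝ, 0 < b → Integrable (GF3_P3 φ D σ b)) ∧
    IntegrableOn (fun b : ℝ => ∫ Y, GF3_P3 φ D σ b Y) (Set.Ioi 0) ∧
    ∫ b in Set.Ioi (0 : ℝ), (∫ Y, GF3_P3 φ D σ b Y)
      = kAG 2 (fun t => thd t ^ 2) * ∫ Y, ((D Y)⁻¹) ^ 2 * GF3_g3 φ D σ Y :=
  scale_int (G := fun t => thd t ^ 2) (thd_continuous.pow 2)
    (fun t ht => by simp only [thd_zero ht]; norm_num) 2 h.lip.continuous.measurable h.pos (GF3_m3 h.adm D σ)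
    (GF3_int3 h σ).1

theorem GF3_s4 (h : GF3_H φ y D) (σ : Spin n) :
    (∀ b : ℝ, 0 < b → Integrable (GF3_P4 φ D σ b)) ∧
    IntegrableOn (fun b : ℝ => ∫ Y, GF3_P4 φ D σ b Y) (Set.Ioi 0) ∧
    ∫ b in Set.Ioi (0 : ℝ), (∫ Y, GF3_P4 φ D σ b Y)
      = kAG 2 (fun t => thp t ^ 2) * ∫ Y, ((D Y)⁻¹) ^ 2 * GF3_g4 φ σ Y :=
  scale_int (G := fun t => thp t ^ 2) (thp_continuous.pow 2)
    (fun t ht => by simp only [thp_zero ht]; norm_num) 2 h.lip.continuous.measurable h.pos (GF3_m4 h.adm σ)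
    (GF3_int4 h σ).1

/-- the total of the four pieces at scale `b` -/
def GF3_J (z E : ℝ) (φ : RW n) (y : E3) (D : Conf n → ℝ) (b : ℝ) : ℝ :=
  ∑ σ, ((∫ Y, GF3_P1 z E φ y D σ b Y) + (∫ Y, GF3_P2 φ D σ b Y) + (∫ Y, GF3_P3 φ D σ b Y)
    + ∫ Y, GF3_P4 φ D σ b Y)

theorem GF3_J_nonneg {z : ℝ} (hz : 0 < z) (h : GF3_H φ y D) {b : ℝ} (hb : 0 < b) :
    0 ≤ GF3_J z (EN z (n + 1)) φ y D b := by
  by_cases hy : b ≤ ‖y‖
  · have hψ : Adms (mulw (cutb D b) φ) := cutb_adms h.adm h.lip h.symm hb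
    have hsep : ∀ σ Y, mulw (cutb D b) φ σ Y ≠ 0 → ∀ k, 2 * b ≤ ‖Y k - y‖ := by
      intro σ Y h0 k
      have h1 : thp (D Y / b) ≠ 0 := by
        intro h2
        apply h0
        simp only [mulw, cutb, h2, mul_zero, zero_mul]
      have h3 : 1 < D Y / b := by
        by_contra h4
        exact h1 (thp_zero fun h5 => h4 h5.1)
      rw [lt_div_iff₀ hb, one_mul] at h3
      have h4 := h.sep Y k
      linarith
    have hE := EN_prod hz hψ hb hsep hy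
    have e : ∀ σ, (∫ Y, GF3_P1 z (EN z (n + 1)) φ y D σ b Y) + (∫ Y, GF3_P2 φ D σ b Y)
          + (∫ Y, GF3_P3 φ D σ b Y) + (∫ Y, GF3_P4 φ D σ b Y)
        = (∫ Y, ∑ k, gsq k (mulw (cutb D b) φ σ) Y) + (∫ Y, V z Y * (mulw (cutb D b) φ σ Y) ^ 2)
          + (∫ Y, (10 / b ^ 2 + ∑ k, ‖Y k - y‖⁻¹ - z / ‖y‖) * (mulw (cutb D b) φ σ Y) ^ 2)
          - EN z (n + 1) * ∫ Y, (mulw (cutb D b) φ σ Y) ^ 2 := by
      intro σ
      have i1 := (GF3_s1 z (EN z (n + 1)) h σ).1 b hb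
      have i2 := (GF3_s2 h σ).1 b hb
      have i3 := (GF3_s3 h σ).1 b hb
      have i4 := (GF3_s4 h σ).1 b hb
      have j1 : Integrable (fun Y => ∑ k, gsq k (mulw (cutb D b) φ σ) Y) :=
        integrable_finsetSum _ fun k _ => (hψ.1 σ).integrable_gsq k
      have j2 := (hψ.1 σ).integrable_V z
      have j3 : Integrable (fun Y => (10 / b ^ 2 + ∑ k, ‖Y k - y‖⁻¹ - z / ‖y‖)
          * (mulw (cutb D b) φ σ Y) ^ 2) := by
        refine (GC3_int hψ hb hsep (z / ‖y‖ - 10 / b ^ 2) σ).congr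
          (Filter.Eventually.of_forall fun Y => ?_)
        simp only
        ring
      rw [← GF3_split i1 i2 i3 i4,
        ← GF3_split' (EN z (n + 1)) j1 j2 j3 (hψ.1 σ).integrable_sq]
      refine integral_congr_ae ?_
      filter_upwards [cutb_gsq h.adm h.lip hb σ] with Y hY
      have hsq := cutb_sq (φ := φ) (D := D) hb σ Y
      simp only [hY, hsq, GF3_P1, GF3_P2, GF3_P3, GF3_P4, GF3_g1, GF3_g2, GF3_g3, GF3_g4]
      ring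
    unfold GF3_J
    simp only [e]
    rw [Finset.sum_sub_distrib, Finset.sum_add_distrib, Finset.sum_add_distrib, ← Finset.mul_sum]
    unfold qf TT nrm2 at hE
    linarith
  · have h0 : ∀ Y, D Y / b ∉ Set.Ioo (1 : ℝ) 2 := by
      intro Y h1
      have h2 := h1.1
      rw [lt_div_iff₀ hb, one_mul] at h2
      have h3 := h.le Y
      have h4 := h.nn Y
      push Not at hy
      linarith
    have z1 : ∀ σ Y, GF3_P1 z (EN z (n + 1)) φ y D σ b Y = 0 := by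
      intro σ Y
      simp [GF3_P1, thp_zero (h0 Y)]
    have z2 : ∀ σ Y, GF3_P2 φ D σ b Y = 0 := by
      intro σ Y
      simp [GF3_P2, thp_zero (h0 Y)]
    have z3 : ∀ σ Y, GF3_P3 φ D σ b Y = 0 := by
      intro σ Y
      simp [GF3_P3, thd_zero (h0 Y)]
    have z4 : ∀ σ Y, GF3_P4 φ D σ b Y = 0 := by
      intro σ Y
      simp [GF3_P4, thp_zero (h0 Y)]
    unfold GF3_J
    simp only [z1, z2, z3, z4, integral_zero, add_zero, Finset.sum_const_zero, le_refl]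

/-- the integrated inequality -/
theorem GF3_tot {z : ℝ} (hz : 0 < z) (h : GF3_H φ y D) :
    0 ≤ kAG 0 (fun t => thp t ^ 2) * (∑ σ, ∫ Y, GF3_g1 z (EN z (n + 1)) φ y σ Y)
      + (kAG 2 (fun t => thd t ^ 2) + 10 * kAG 2 (fun t => thp t ^ 2))
        * ∑ σ, ∫ Y, ((D Y)⁻¹) ^ 2 * (φ σ Y) ^ 2 := by
  have h1 : 0 ≤ ∫ b in Set.Ioi (0 : ℝ), GF3_J z (EN z (n + 1)) φ y D b :=
    setIntegral_nonneg measurableSet_Ioi fun b hb => GF3_J_nonneg hz h hb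
  have h2 : ∫ b in Set.Ioi (0 : ℝ), GF3_J z (EN z (n + 1)) φ y D b
      = ∑ σ, (kAG 0 (fun t => thp t ^ 2) * (∫ Y, GF3_g1 z (EN z (n + 1)) φ y σ Y)
        + kAG 2 (fun t => thd t ^ 2) * (∫ Y, ((D Y)⁻¹) ^ 2 * GF3_g3 φ D σ Y)
        + kAG 2 (fun t => thp t ^ 2) * (10 * ∫ Y, ((D Y)⁻¹) ^ 2 * (φ σ Y) ^ 2)) := by
    unfold GF3_J
    rw [integral_finsetSum]
    · refine Finset.sum_congr rfl fun σ _ => ?_
      obtain ⟨-, a1, b1⟩ := GF3_s1 z (EN z (n + 1)) h σ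
      obtain ⟨-, a2, b2⟩ := GF3_s2 h σ
      obtain ⟨-, a3, b3⟩ := GF3_s3 h σ
      obtain ⟨-, a4, b4⟩ := GF3_s4 h σ
      have c12 : Integrable (fun b : ℝ => (∫ Y, GF3_P1 z (EN z (n + 1)) φ y D σ b Y)
          + ∫ Y, GF3_P2 φ D σ b Y) (volume.restrict (Set.Ioi 0)) := Integrable.add a1 a2
      have c123 : Integrable (fun b : ℝ => (∫ Y, GF3_P1 z (EN z (n + 1)) φ y D σ b Y)
          + (∫ Y, GF3_P2 φ D σ b Y) + ∫ Y, GF3_P3 φ D σ b Y) (volume.restrict (Set.Ioi 0)) :=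
        Integrable.add c12 a3
      rw [integral_add c123 a4, integral_add c12 a3, integral_add a1 a2, b1, b2, b3, b4,
        (GF3_int4 h σ).2]
      ring
    · intro σ _
      obtain ⟨-, a1, -⟩ := GF3_s1 z (EN z (n + 1)) h σ
      obtain ⟨-, a2, -⟩ := GF3_s2 h σ
      obtain ⟨-, a3, -⟩ := GF3_s3 h σ
      obtain ⟨-, a4, -⟩ := GF3_s4 h σ
      exact Integrable.add (Integrable.add (Integrable.add a1 a2) a3) a4
  rw [h2] at h1
  refine h1.trans ?_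
  rw [Finset.mul_sum, Finset.mul_sum, ← Finset.sum_add_distrib]
  refine Finset.sum_le_sum fun σ _ => ?_
  have h3 := (GF3_int3 h σ).2
  have h4 : 0 ≤ kAG 2 (fun t => thd t ^ 2) := kA_nonneg 2 fun t => sq_nonneg _
  have h5 := mul_le_mul_of_nonneg_left h3 h4
  linarith

end

theorem EN_fix : ∃ CB : ℝ, 0 < CB ∧ ∀ (z : ℝ), 0 < z → ∀ (n : ℕ) (φ : RW n), Adms φ →
    ∀ (y : E3) (D : Conf n → ℝ), LipschitzWith 1 D →
    (∀ (π : Equiv.Perm (Fin n)) Y, D (Y ∘ π) = D Y) → (∀ Y, 0 ≤ D Y) → (∀ᵐ Y, 0 < D Y) →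
    (∀ Y k, 4 * D Y ≤ ‖Y k - y‖) → (∀ Y, 8 * D Y ≤ ‖y‖) →
    (∀ σ, Integrable (fun Y => ((D Y)⁻¹) ^ 2 * (φ σ Y) ^ 2)) →
    EN z (n + 1) * nrm2 φ
      ≤ qf z φ + ∑ σ, ∫ Y, (CB * ((D Y)⁻¹) ^ 2 + ∑ k, ‖Y k - y‖⁻¹ - z / ‖y‖) * (φ σ Y) ^ 2 := by
  have hA := kA_pos
  have h3 : 0 ≤ kAG 2 (fun t => thd t ^ 2) := kA_nonneg 2 fun t => sq_nonneg _
  have h4 : 0 ≤ kAG 2 (fun t => thp t ^ 2) := kA_nonneg 2 fun t => sq_nonneg _
  refine ⟨(kAG 2 (fun t => thd t ^ 2) + 10 * kAG 2 (fun t => thp t ^ 2)) / kAG 0 (fun t => thp t ^ 2) + 1,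
    by positivity, ?_⟩
  intro z hz n φ hφ y D hD hs hn hp hk hy hi
  have h : GF3_H φ y D := ⟨hφ, hD, hs, hn, hp, hk, hy, hi⟩
  have ht := GF3_tot hz h
  set A := kAG 0 (fun t => thp t ^ 2) with hAd
  set B := kAG 2 (fun t => thd t ^ 2) + 10 * kAG 2 (fun t => thp t ^ 2) with hBd
  set I := ∑ σ, ∫ Y, ((D Y)⁻¹) ^ 2 * (φ σ Y) ^ 2 with hI
  set G := ∑ σ, ∫ Y, GF3_g1 z (EN z (n + 1)) φ y σ Y with hG
  have hI0 : 0 ≤ I := Finset.sum_nonneg fun σ _ => integral_nonneg fun Y => by positivity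
  have h5 : 0 ≤ G + B / A * I := by
    have e : A * G + B * I = A * (G + B / A * I) := by
      field_simp
    rw [e] at ht
    exact nonneg_of_mul_nonneg_right ht hA
  have e1 : G = qf z φ + (∑ σ, ∫ Y, (∑ k, ‖Y k - y‖⁻¹ - z / ‖y‖) * (φ σ Y) ^ 2)
      - EN z (n + 1) * nrm2 φ := by
    rw [hG]
    unfold qf TT nrm2
    rw [Finset.mul_sum, ← Finset.sum_add_distrib, ← Finset.sum_add_distrib, ← Finset.sum_sub_distrib]
    exact Finset.sum_congr rfl fun σ _ => (GF3_int1 z (EN z (n + 1)) h σ).2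
  have e2 : ∑ σ, ∫ Y, ((B / A + 1) * ((D Y)⁻¹) ^ 2 + ∑ k, ‖Y k - y‖⁻¹ - z / ‖y‖) * (φ σ Y) ^ 2
      = (B / A + 1) * I + ∑ σ, ∫ Y, (∑ k, ‖Y k - y‖⁻¹ - z / ‖y‖) * (φ σ Y) ^ 2 := by
    rw [hI, Finset.mul_sum, ← Finset.sum_add_distrib]
    refine Finset.sum_congr rfl fun σ _ => ?_
    rw [← integral_const_mul, ← integral_add ((hi σ).const_mul _) (GF3_intS h (z / ‖y‖) σ)]
    refine integral_congr_ae (Filter.Eventually.of_forall fun Y => ?_)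
    simp only
    ring
  rw [e2]
  rw [e1] at h5
  have h6 : B / A * I ≤ (B / A + 1) * I := by nlinarith
  linarith

end Ion
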