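import Pool.Agent.Lib.MP_69e010_mp.G.GF3

/-!
# JOB GF4 (stream G of MP_69e010_mp): the inequality at a fixed point, explicit cutoff

`D Y := min ρ (min_k ‖Y k - y‖/4)`, e.g. `(univ : Finset (Option (Fin n))).inf' ⟨none, mem_univ _⟩ (fun o => o.elim ρ (fun k => ‖Y k - y‖ / 4))`
(`Finset.le_inf'_iff`, `Finset.inf'_le`, `Finset.exists_mem_eq_inf'`). It is 1-Lipschitz (sup norm), symmetric, `≥ 0`, `≤ ρ ≤ ‖y‖/8`, `4 D ≤ ‖Y k - y‖`, positive unless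
`Y k = y` for some `k` (null set). `(D Y)⁻² ≤ ρ⁻² + ∑_k (if ‖Y k - y‖ < 4ρ then 16 (‖Y k - y‖⁻¹)² else 0)` (the minimum is attained: either `D = ρ` or `D = ‖Y k - y‖/4 < ρ`).
Integrability of `(‖Y k - y‖⁻¹)² φ²`: translate `LipC.int_inv_sq` by the constant configuration `(y, …, y)` (`integrable_comp_sub_right`/
`Integrable.comp_add_right`, `LipC` is translation invariant). Insert in `EN_fix`.
`kapG CB ρ y x = ‖x - y‖⁻¹ + (if ‖x - y‖ < 4ρ then 16 CB (‖x - y‖⁻¹)² else 0)`.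
-/

open MeasureTheory Metric Finset Filter Topology

noncomputable section

namespace Ion

/-- the explicit cutoff `min ρ (min_k ‖Y k - y‖/4)` -/
def GF4_g {n : ℕ} (ρ : ℝ) (y : E3) (Y : Conf n) (o : Option (Fin n)) : ℝ :=
  o.elim ρ (fun k => ‖Y k - y‖ / 4)

/-- the explicit cutoff `min ρ (min_k ‖Y k - y‖/4)` -/
def GF4_D {n : ℕ} (ρ : ℝ) (y : E3) (Y : Conf n) : ℝ :=
  (univ : Finset (Option (Fin n))).inf' ⟨none, mem_univ _⟩ (GF4_g ρ y Y)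

theorem GF4_le {n : ℕ} (ρ : ℝ) (y : E3) (Y : Conf n) (o : Option (Fin n)) :
    GF4_D ρ y Y ≤ GF4_g ρ y Y o := Finset.inf'_le _ (mem_univ o)

theorem GF4_le_rho {n : ℕ} (ρ : ℝ) (y : E3) (Y : Conf n) : GF4_D ρ y Y ≤ ρ :=
  GF4_le ρ y Y none

theorem GF4_le_k {n : ℕ} (ρ : ℝ) (y : E3) (Y : Conf n) (k : Fin n) :
    GF4_D ρ y Y ≤ ‖Y k - y‖ / 4 := GF4_le ρ y Y (some k)

theorem GF4_ge {n : ℕ} {ρ : ℝ} {y : E3} {Y : Conf n} {t : ℝ} (h1 : t ≤ ρ)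
    (h2 : ∀ k, t ≤ ‖Y k - y‖ / 4) : t ≤ GF4_D ρ y Y := by
  refine Finset.le_inf' _ _ (fun o _ => ?_)
  cases o with
  | none => exact h1
  | some k => exact h2 k

theorem GF4_cases {n : ℕ} (ρ : ℝ) (y : E3) (Y : Conf n) :
    GF4_D ρ y Y = ρ ∨ ∃ k, GF4_D ρ y Y = ‖Y k - y‖ / 4 := by
  obtain ⟨o, _, ho⟩ := Finset.exists_mem_eq_inf' (s := (univ : Finset (Option (Fin n))))
    ⟨none, mem_univ _⟩ (GF4_g ρ y Y)
  cases o with
  | none => exact Or.inl ho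
  | some k => exact Or.inr ⟨k, ho⟩

theorem GF4_lip {n : ℕ} (ρ : ℝ) (y : E3) : LipschitzWith 1 (GF4_D (n := n) ρ y) := by
  refine LipschitzWith.of_le_add (fun Y Y' => ?_)
  rw [← sub_le_iff_le_add]
  refine GF4_ge ?_ (fun k => ?_)
  · have h1 := GF4_le_rho ρ y Y
    have h2 : (0 : ℝ) ≤ dist Y Y' := dist_nonneg
    linarith
  · have h1 := GF4_le_k ρ y Y k
    have h2 : dist (Y k) (Y' k) ≤ dist Y Y' := dist_le_pi_dist Y Y' k
    have h3 : ‖Y k - y‖ ≤ dist (Y k) (Y' k) + ‖Y' k - y‖ := by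
      rw [← dist_eq_norm, ← dist_eq_norm]
      exact dist_triangle _ _ _
    have h4 : (0 : ℝ) ≤ dist Y Y' := dist_nonneg
    linarith

theorem GF4_symm_le {n : ℕ} (ρ : ℝ) (y : E3) (π : Equiv.Perm (Fin n)) (Y : Conf n) :
    GF4_D ρ y (Y ∘ π) ≤ GF4_D ρ y Y := by
  refine GF4_ge (GF4_le_rho _ _ _) (fun k => ?_)
  have h := GF4_le_k ρ y (Y ∘ π) (π.symm k)
  rwa [Function.comp_apply, Equiv.apply_symm_apply] at h

theorem GF4_symm {n : ℕ} (ρ : ℝ) (y : E3) (π : Equiv.Perm (Fin n)) (Y : Conf n) :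
    GF4_D ρ y (Y ∘ π) = GF4_D ρ y Y := by
  refine le_antisymm (GF4_symm_le ρ y π Y) ?_
  have h := GF4_symm_le ρ y π.symm (Y ∘ π)
  have h2 : (Y ∘ π) ∘ π.symm = Y := by
    funext k
    simp only [Function.comp_apply, Equiv.apply_symm_apply]
  rwa [h2] at h

theorem GF4_nonneg {n : ℕ} {ρ : ℝ} (hρ : 0 < ρ) (y : E3) (Y : Conf n) : 0 ≤ GF4_D ρ y Y :=
  GF4_ge hρ.le (fun k => by positivity)

theorem GF4_pos {n : ℕ} {ρ : ℝ} (hρ : 0 < ρ) {y : E3} {Y : Conf n} (h : ∀ k, Y k ≠ y) :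
    0 < GF4_D ρ y Y := by
  rcases GF4_cases ρ y Y with h1 | ⟨k, h1⟩
  · rw [h1]; exact hρ
  · rw [h1]
    have h2 : 0 < ‖Y k - y‖ := norm_pos_iff.mpr (sub_ne_zero.mpr (h k))
    positivity

theorem GF4_ae {n : ℕ} (y : E3) : ∀ᵐ Y : Conf n, ∀ k, Y k ≠ y := by
  rw [ae_all_iff]
  intro k
  exact Measure.ae_eval_ne (fun _ : Fin n => (volume : Measure E3)) k y

theorem GF4_inv_sq {n : ℕ} {ρ : ℝ} (hρ : 0 < ρ) (y : E3) (Y : Conf n) :
    ((GF4_D ρ y Y)⁻¹) ^ 2 ≤ (ρ⁻¹) ^ 2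
      + ∑ k, (if ‖Y k - y‖ < 4 * ρ then 16 * (‖Y k - y‖⁻¹) ^ 2 else 0) := by
  have hs : ∀ k, (0 : ℝ) ≤ (if ‖Y k - y‖ < 4 * ρ then 16 * (‖Y k - y‖⁻¹) ^ 2 else 0) := by
    intro k
    split_ifs
    · positivity
    · exact le_rfl
  have hS : (0 : ℝ) ≤ ∑ k, (if ‖Y k - y‖ < 4 * ρ then 16 * (‖Y k - y‖⁻¹) ^ 2 else 0) :=
    Finset.sum_nonneg (fun k _ => hs k)
  rcases GF4_cases ρ y Y with h1 | ⟨k, h1⟩
  · rw [h1]
    linarith
  · by_cases h2 : ‖Y k - y‖ < 4 * ρ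
    · have h3 : (if ‖Y k - y‖ < 4 * ρ then 16 * (‖Y k - y‖⁻¹) ^ 2 else 0) ≤
          ∑ k, (if ‖Y k - y‖ < 4 * ρ then 16 * (‖Y k - y‖⁻¹) ^ 2 else 0) :=
        Finset.single_le_sum (fun k _ => hs k) (mem_univ k)
      rw [if_pos h2] at h3
      have h4 : ((GF4_D ρ y Y)⁻¹) ^ 2 = 16 * (‖Y k - y‖⁻¹) ^ 2 := by
        rw [h1, inv_div, div_eq_mul_inv]
        ring
      rw [h4]
      have h5 : 0 ≤ (ρ⁻¹) ^ 2 := by positivity
      linarith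
    · have h3 : ρ ≤ GF4_D ρ y Y := by
        rw [h1]
        linarith [not_lt.mp h2]
      have h4 : (GF4_D ρ y Y)⁻¹ ≤ ρ⁻¹ := inv_anti₀ hρ h3
      have h5 : 0 ≤ (GF4_D ρ y Y)⁻¹ := inv_nonneg.mpr (GF4_nonneg hρ y Y)
      have h6 : ((GF4_D ρ y Y)⁻¹) ^ 2 ≤ (ρ⁻¹) ^ 2 := pow_le_pow_left₀ h5 h4 2
      linarith

theorem GF4_trans {n : ℕ} {F : Conf n → ℝ} (hF : LipC F) (c : Conf n) :
    LipC (fun Y => F (Y + c)) := by
  obtain ⟨⟨K, hK⟩, hs⟩ := hF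
  refine ⟨⟨K, ?_⟩, ?_⟩
  · refine LipschitzWith.of_dist_le_mul (fun X Y => ?_)
    have h := hK.dist_le_mul (X + c) (Y + c)
    rwa [dist_add_right] at h
  · exact hs.comp_homeomorph (Homeomorph.addRight c)

theorem GF4_int_sq {n : ℕ} {F : Conf n → ℝ} (hF : LipC F) (y : E3) (k : Fin n) :
    Integrable (fun Y : Conf n => (‖Y k - y‖⁻¹) ^ 2 * (F Y) ^ 2) := by
  have h1 := GF4_trans hF (fun _ => y)
  have h2 := (h1.int_inv_sq h1 k).comp_sub_right (fun _ => y)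
  refine h2.congr (ae_of_all _ (fun Y => ?_))
  simp only [Pi.sub_apply, sub_add_cancel]
  ring

theorem GF4_int_nuc {n : ℕ} {F : Conf n → ℝ} (hF : LipC F) (y : E3) (k : Fin n) :
    Integrable (fun Y : Conf n => ‖Y k - y‖⁻¹ * (F Y) ^ 2) := by
  have h1 := GF4_trans hF (fun _ => y)
  have h2 := (h1.int_nuc h1 k).comp_sub_right (fun _ => y)
  refine h2.congr (ae_of_all _ (fun Y => ?_))
  simp only [Pi.sub_apply, sub_add_cancel]
  ring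

theorem GF4_meas {n : ℕ} (y : E3) (ρ : ℝ) (k : Fin n) :
    MeasurableSet {Y : Conf n | ‖Y k - y‖ < 4 * ρ} := by
  have h : Continuous (fun Y : Conf n => ‖Y k - y‖) := by fun_prop
  exact measurableSet_lt h.measurable measurable_const

theorem GF4_int_ite {n : ℕ} {F : Conf n → ℝ} (hF : LipC F) (y : E3) (k : Fin n) (ρ c : ℝ) :
    Integrable (fun Y : Conf n =>
      (if ‖Y k - y‖ < 4 * ρ then c * (‖Y k - y‖⁻¹) ^ 2 else 0) * (F Y) ^ 2) := by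
  have h1 := ((GF4_int_sq hF y k).const_mul c).indicator (GF4_meas y ρ k)
  refine h1.congr (ae_of_all _ (fun Y => ?_))
  by_cases h : ‖Y k - y‖ < 4 * ρ
  · rw [Set.indicator_of_mem (show Y ∈ {Y : Conf n | ‖Y k - y‖ < 4 * ρ} from h)]
    simp only [if_pos h]
    ring
  · rw [Set.indicator_of_notMem (show Y ∉ {Y : Conf n | ‖Y k - y‖ < 4 * ρ} from h)]
    simp only [if_neg h]
    ring

theorem GF4_int_kap {n : ℕ} {F : Conf n → ℝ} (hF : LipC F) (y : E3) (k : Fin n) (ρ CB : ℝ) :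
    Integrable (fun Y : Conf n => kapG CB ρ y (Y k) * (F Y) ^ 2) := by
  refine ((GF4_int_nuc hF y k).add (GF4_int_ite hF y k ρ (16 * CB))).congr
    (ae_of_all _ (fun Y => ?_))
  simp only [Pi.add_apply, kapG]
  ring

theorem GF4_int_D {n : ℕ} {F : Conf n → ℝ} (hF : LipC F) (y : E3) {ρ : ℝ} (hρ : 0 < ρ) :
    Integrable (fun Y : Conf n => ((GF4_D ρ y Y)⁻¹) ^ 2 * (F Y) ^ 2) := by
  have h1 := ((hF.integrable_sq).const_mul ((ρ⁻¹) ^ 2)).add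
    (integrable_finsetSum (univ : Finset (Fin n)) (fun k _ => GF4_int_ite hF y k ρ 16))
  refine Integrable.mono' h1 ?_ (ae_of_all _ (fun Y => ?_))
  · have h2 : Measurable (GF4_D (n := n) ρ y) := (GF4_lip ρ y).continuous.measurable
    have h3 : Measurable F := hF.cont.measurable
    exact (((h2.inv).pow_const 2).mul (h3.pow_const 2)).aestronglyMeasurable
  · rw [Real.norm_eq_abs, abs_of_nonneg (by positivity)]
    have h2 := mul_le_mul_of_nonneg_right (GF4_inv_sq hρ y Y) (sq_nonneg (F Y))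
    refine h2.trans (le_of_eq ?_)
    rw [add_mul, Finset.sum_mul]
    rfl

theorem EN_fix2 : ∃ CB : ℝ, 0 < CB ∧ ∀ (z : ℝ), 0 < z → ∀ (n : ℕ) (φ : RW n), Adms φ →
    ∀ (y : E3) (ρ : ℝ), 0 < ρ → 8 * ρ ≤ ‖y‖ →
    (∀ σ k, Integrable (fun Y : Conf n => kapG CB ρ y (Y k) * (φ σ Y) ^ 2)) ∧
    EN z (n + 1) * nrm2 φ
      ≤ qf z φ + (CB * (ρ⁻¹) ^ 2 - z / ‖y‖) * nrm2 φ
        + ∑ σ, ∑ k, ∫ Y : Conf n, kapG CB ρ y (Y k) * (φ σ Y) ^ 2 := by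
  obtain ⟨CB, hCB, hfix⟩ := EN_fix
  refine ⟨CB, hCB, fun z hz n φ hφ y ρ hρ hρy => ?_⟩
  have hkap : ∀ σ k, Integrable (fun Y : Conf n => kapG CB ρ y (Y k) * (φ σ Y) ^ 2) :=
    fun σ k => GF4_int_kap (hφ.1 σ) y k ρ CB
  refine ⟨hkap, ?_⟩
  have h1 := hfix z hz n φ hφ y (GF4_D ρ y) (GF4_lip ρ y) (GF4_symm ρ y) (GF4_nonneg hρ y)
    ((GF4_ae y).mono (fun Y hY => GF4_pos hρ hY))
    (fun Y k => by linarith [GF4_le_k ρ y Y k])
    (fun Y => by linarith [GF4_le_rho ρ y Y])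
    (fun σ => GF4_int_D (hφ.1 σ) y hρ)
  refine h1.trans ?_
  rw [add_assoc]
  refine add_le_add le_rfl ?_
  unfold nrm2
  rw [Finset.mul_sum, ← Finset.sum_add_distrib]
  refine Finset.sum_le_sum (fun σ _ => ?_)
  have hF := hφ.1 σ
  have hsum : Integrable (fun Y : Conf n => ∑ k, kapG CB ρ y (Y k) * (φ σ Y) ^ 2) :=
    integrable_finsetSum _ (fun k _ => hkap σ k)
  have hsq := (hF.integrable_sq).const_mul (CB * (ρ⁻¹) ^ 2 - z / ‖y‖)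
  rw [← integral_const_mul, ← integral_finsetSum _ (fun k _ => hkap σ k),
    ← integral_add hsq hsum]
  have hleft : Integrable (fun Y : Conf n =>
      (CB * ((GF4_D ρ y Y)⁻¹) ^ 2 + ∑ k, ‖Y k - y‖⁻¹ - z / ‖y‖) * (φ σ Y) ^ 2) := by
    have e1 := (GF4_int_D hF y hρ).const_mul CB
    have e2 := integrable_finsetSum (univ : Finset (Fin n)) (fun k _ => GF4_int_nuc hF y k)
    have e3 := (hF.integrable_sq).const_mul (z / ‖y‖)
    refine ((e1.add e2).sub e3).congr (ae_of_all _ (fun Y => ?_))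
    simp only [Pi.add_apply, Pi.sub_apply]
    rw [sub_mul, add_mul, Finset.sum_mul]
    ring
  refine integral_mono hleft (hsq.add hsum) (fun Y => ?_)
  dsimp only
  rw [← Finset.sum_mul, ← add_mul]
  refine mul_le_mul_of_nonneg_right ?_ (sq_nonneg _)
  have h3 := mul_le_mul_of_nonneg_left (GF4_inv_sq hρ y Y) hCB.le
  have h4 : ∑ k, kapG CB ρ y (Y k) = ∑ k, ‖Y k - y‖⁻¹
      + CB * ∑ k, (if ‖Y k - y‖ < 4 * ρ then 16 * (‖Y k - y‖⁻¹) ^ 2 else 0) := by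
    rw [Finset.mul_sum, ← Finset.sum_add_distrib]
    refine Finset.sum_congr rfl (fun k _ => ?_)
    unfold kapG
    split_ifs
    · ring
    · ring
  rw [h4]
  rw [mul_add] at h3
  linarith

end Ion
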