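import Pool.Agent.Lib.MP_69e010_mp.A1
import Pool.Agent.Lib.MP_69e010_mp.G.GDefs

/-!
# JOB GG1 (stream G of MP_69e010_mp): the density `σ_R` and its potential

Newton's theorem for radial densities (from Newton's theorem for balls by uniqueness of measures), then
radial integration: `∫ σ_R(y) ‖x - y‖⁻¹ dy = (5/R⁵) ∫_0^R r⁴ / max(r, ‖x‖) dr = (5/(4R)) (1 - chi (‖x‖/R))`.
-/

open MeasureTheory Metric Finset Filter Topology

noncomputable section

namespace Ion

theorem GG1_rad_int {f : ℝ → ℝ} {s : ℝ} :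
    IntegrableOn (fun y : E3 => f ‖y‖) (ball 0 s) ↔ IntegrableOn (fun r : ℝ => r ^ 2 * f r) (Set.Ioo 0 s) := by
  rw [integrableOn_fun_norm_addHaar (volume : Measure E3)]
  simp only [finrank_euclideanSpace_fin, smul_eq_mul]

theorem GG1_vol1 : (volume : Measure E3).real (ball 0 1) = Real.pi * 4 / 3 := by
  rw [Measure.real, EuclideanSpace.volume_ball_fin_three]
  rw [ENNReal.ofReal_one, one_pow, one_mul, ENNReal.toReal_ofReal (by positivity)]

theorem GG1_rad (f : ℝ → ℝ) (s : ℝ) :
    ∫ y in ball (0 : E3) s, f ‖y‖ = 4 * Real.pi * ∫ r in Set.Ioo 0 s, r ^ 2 * f r := by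
  have h1 : ∫ y in ball (0 : E3) s, f ‖y‖ = ∫ y : E3, (Set.Iio s).indicator f ‖y‖ := by
    rw [← integral_indicator measurableSet_ball]
    refine integral_congr_ae (Filter.Eventually.of_forall fun y => ?_)
    simp [Set.indicator]
  rw [h1, integral_fun_norm_addHaar (volume : Measure E3), GG1_vol1]
  have h2 : ∫ r in Set.Ioi (0 : ℝ), r ^ (Module.finrank ℝ E3 - 1) • (Set.Iio s).indicator f r
      = ∫ r in Set.Ioo 0 s, r ^ 2 * f r := by
    have h3 : (fun r : ℝ => r ^ (Module.finrank ℝ E3 - 1) • (Set.Iio s).indicator f r)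
        = (Set.Iio s).indicator (fun r => r ^ 2 * f r) := by
      funext r
      rw [finrank_euclideanSpace_fin]
      by_cases h : r ∈ Set.Iio s
      · rw [Set.indicator_of_mem h, Set.indicator_of_mem h]; simp
      · rw [Set.indicator_of_notMem h, Set.indicator_of_notMem h]; simp
    rw [h3, setIntegral_indicator measurableSet_Iio]
    rfl
  rw [h2, finrank_euclideanSpace_fin]
  simp only [nsmul_eq_mul, smul_eq_mul]
  push_cast
  ring

theorem GG1_one_int (k : ℕ) {s t : ℝ} (_ht : 0 ≤ t) :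
    IntegrableOn (fun r : ℝ => r ^ (k + 1) * (max r t)⁻¹) (Set.Ioo 0 s) := by
  refine Measure.integrableOn_of_bounded (M := s ^ k) (by simp) ?_ ?_
  · exact ((measurable_id.pow_const _).mul (measurable_id.max measurable_const).inv).aestronglyMeasurable
  · refine (ae_restrict_iff' measurableSet_Ioo).2 (Filter.Eventually.of_forall fun r hr => ?_)
    have h1 : 0 < r := hr.1
    have h2 : 0 < max r t := lt_of_lt_of_le h1 (le_max_left _ _)
    rw [Real.norm_of_nonneg (by positivity), pow_succ, mul_assoc]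
    have h3 : r * (max r t)⁻¹ ≤ 1 := by
      rw [← div_eq_mul_inv, div_le_one h2]
      exact le_max_left _ _
    calc r ^ k * (r * (max r t)⁻¹) ≤ r ^ k * 1 := by gcongr
      _ ≤ s ^ k := by rw [mul_one]; exact pow_le_pow_left₀ h1.le hr.2.le k

theorem GG1_one_le (k : ℕ) {s t : ℝ} (hs : 0 ≤ s) (h : s ≤ t) :
    ∫ r in Set.Ioo 0 s, r ^ (k + 1) * (max r t)⁻¹ = s ^ (k + 2) / ((k + 2) * t) := by
  have h1 : ∫ r in Set.Ioo 0 s, r ^ (k + 1) * (max r t)⁻¹ = ∫ r in Set.Ioo 0 s, r ^ (k + 1) * t⁻¹ := by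
    refine setIntegral_congr_fun measurableSet_Ioo fun r hr => ?_
    rw [max_eq_right (hr.2.le.trans h)]
  rw [h1, ← integral_Ioc_eq_integral_Ioo, ← intervalIntegral.integral_of_le hs,
    intervalIntegral.integral_mul_const, integral_pow]
  rcases eq_or_lt_of_le (hs.trans h) with h0 | h0
  · rw [← h0]; simp
  · push_cast
    field_simp
    ring

theorem GG1_one_gt (k : ℕ) {s t : ℝ} (ht : 0 ≤ t) (h : t ≤ s) :
    ∫ r in Set.Ioo 0 s, r ^ (k + 1) * (max r t)⁻¹
      = t ^ (k + 1) / (k + 2) + (s ^ (k + 1) - t ^ (k + 1)) / (k + 1) := by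
  have hs : 0 ≤ s := ht.trans h
  have hI : IntervalIntegrable (fun r : ℝ => r ^ (k + 1) * (max r t)⁻¹) volume 0 s := by
    rw [intervalIntegrable_iff_integrableOn_Ioo_of_le hs]
    exact GG1_one_int k ht
  rw [← integral_Ioc_eq_integral_Ioo, ← intervalIntegral.integral_of_le hs]
  rw [← intervalIntegral.integral_add_adjacent_intervals (b := t)
    (hI.mono_set (by rw [Set.uIcc_of_le ht, Set.uIcc_of_le hs]; exact Set.Icc_subset_Icc le_rfl h))
    (hI.mono_set (by rw [Set.uIcc_of_le h, Set.uIcc_of_le hs]; exact Set.Icc_subset_Icc ht le_rfl))]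
  congr 1
  · rw [intervalIntegral.integral_of_le ht, integral_Ioc_eq_integral_Ioo, GG1_one_le k ht le_rfl]
    rcases eq_or_lt_of_le ht with h0 | h0
    · rw [← h0]; simp
    · field_simp
      ring
  · have h2 : ∫ r in t..s, r ^ (k + 1) * (max r t)⁻¹ = ∫ r in t..s, r ^ k := by
      refine intervalIntegral.integral_congr_ae (Filter.Eventually.of_forall fun r hr => ?_)
      rw [Set.uIoc_of_le h] at hr
      have h3 : 0 < r := lt_of_le_of_lt ht hr.1
      rw [max_eq_left hr.1.le, pow_succ, mul_assoc, mul_inv_cancel₀ h3.ne', mul_one]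
    rw [h2, integral_pow]

/-- radial form of the potential of the ball -/
theorem GG1_ball (x : E3) (s : ℝ) :
    ∫⁻ w in ball (0 : E3) s, ENNReal.ofReal ‖x - w‖⁻¹
      = ∫⁻ w in ball (0 : E3) s, ENNReal.ofReal (max ‖w‖ ‖x‖)⁻¹ := by
  rcases le_or_gt s 0 with hs | hs
  · rw [ball_eq_empty.2 hs]; simp
  have hint : IntegrableOn (fun w : E3 => (max ‖w‖ ‖x‖)⁻¹) (ball 0 s) := by
    refine (GG1_rad_int (f := fun r => (max r ‖x‖)⁻¹)).2 ?_
    exact GG1_one_int 1 (norm_nonneg x)
  rw [A1_lint 0 x hs, ← ofReal_integral_eq_lintegral_ofReal hint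
    (Filter.Eventually.of_forall fun w => by positivity)]
  congr 1
  rw [GG1_rad (fun r => (max r ‖x‖)⁻¹) s]
  unfold ph
  rw [sub_zero]
  split_ifs with h
  · have := GG1_one_le 1 hs.le h
    norm_num at this ⊢
    rw [this]
    have hx : 0 < ‖x‖ := lt_of_lt_of_le hs h
    field_simp
  · have := GG1_one_gt 1 (norm_nonneg x) (not_le.1 h).le
    norm_num at this ⊢
    rw [this]
    field_simp
    ring

/-- Newton's theorem for radial densities -/
theorem GG1_newton (x : E3) (R : ℝ) {F : ℝ → ENNReal} (hF : Measurable F) :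
    ∫⁻ w in ball (0 : E3) R, F ‖w‖ * ENNReal.ofReal ‖x - w‖⁻¹
      = ∫⁻ w in ball (0 : E3) R, F ‖w‖ * ENNReal.ofReal (max ‖w‖ ‖x‖)⁻¹ := by
  have hm1 : Measurable (fun w : E3 => ENNReal.ofReal ‖x - w‖⁻¹) :=
    (measurable_const.sub measurable_id).norm.inv.ennreal_ofReal
  have hm2 : Measurable (fun w : E3 => ENNReal.ofReal (max ‖w‖ ‖x‖)⁻¹) :=
    (measurable_norm.max measurable_const).inv.ennreal_ofReal
  have key : ((volume.restrict (ball (0 : E3) R)).withDensity (fun w => ENNReal.ofReal ‖x - w‖⁻¹)).map norm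
      = ((volume.restrict (ball (0 : E3) R)).withDensity
          (fun w => ENNReal.ofReal (max ‖w‖ ‖x‖)⁻¹)).map norm := by
    have hfin : IsFiniteMeasure (((volume.restrict (ball (0 : E3) R)).withDensity
        (fun w => ENNReal.ofReal ‖x - w‖⁻¹)).map norm) := by
      constructor
      rw [Measure.map_apply measurable_norm MeasurableSet.univ, Set.preimage_univ,
        withDensity_apply _ MeasurableSet.univ, Measure.restrict_univ]
      have := (newton_integrable 0 x R).2
      rwa [hasFiniteIntegral_iff_ofReal (Filter.Eventually.of_forall fun w => by positivity)] at this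
    refine Measure.ext_of_Iic _ _ fun a => ?_
    rw [Measure.map_apply measurable_norm measurableSet_Iic, Measure.map_apply measurable_norm measurableSet_Iic,
      withDensity_apply _ (measurable_norm measurableSet_Iic),
      withDensity_apply _ (measurable_norm measurableSet_Iic),
      Measure.restrict_restrict (measurable_norm measurableSet_Iic)]
    have hpre : (norm ⁻¹' Set.Iic a : Set E3) = closedBall 0 a := by
      ext w; simp
    rw [hpre]
    rcases lt_or_ge a R with h | h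
    · have h1 : closedBall (0 : E3) a ∩ ball 0 R = closedBall 0 a :=
        Set.inter_eq_left.2 (closedBall_subset_ball h)
      rw [h1]
      rcases eq_or_ne a 0 with h0 | h0
      · subst h0
        rw [closedBall_zero]
        simp
      · have h2 : (ball (0 : E3) a : Set E3) =ᵐ[volume] closedBall 0 a := by
          refine ae_eq_of_subset_of_measure_ge ball_subset_closedBall ?_ measurableSet_ball.nullMeasurableSet ?_
          · exact (Measure.addHaar_closedBall_eq_addHaar_ball volume (0 : E3) a).le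
          · exact measure_closedBall_lt_top.ne
        rw [← setLIntegral_congr h2, ← setLIntegral_congr h2]
        exact GG1_ball x a
    · have h1 : closedBall (0 : E3) a ∩ ball 0 R = ball 0 R :=
        Set.inter_eq_right.2 (ball_subset_closedBall.trans (closedBall_subset_closedBall h))
      rw [h1]
      exact GG1_ball x R
  have e1 : ∀ g : E3 → ENNReal, Measurable g →
      ∫⁻ w in ball (0 : E3) R, F ‖w‖ * g w
        = ∫⁻ r, F r ∂(((volume.restrict (ball (0 : E3) R)).withDensity g).map norm) := by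
    intro g hg
    have e2 := lintegral_withDensity_eq_lintegral_mul (volume.restrict (ball (0 : E3) R)) hg (hF.comp measurable_norm)
    simp only [Function.comp_apply, Pi.mul_apply] at e2
    rw [lintegral_map hF measurable_norm, e2]
    exact lintegral_congr fun w => mul_comm _ _
  rw [e1 _ hm1, e1 _ hm2, key]

theorem GG1_conv {f : E3 → ℝ} (hm : Measurable f) (h0 : ∀ y, 0 ≤ f y) {v : ℝ} (hv : 0 ≤ v)
    (h : ∫⁻ y, ENNReal.ofReal (f y) = ENNReal.ofReal v) : Integrable f ∧ ∫ y, f y = v := by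
  refine ⟨⟨hm.aestronglyMeasurable, ?_⟩, ?_⟩
  · rw [hasFiniteIntegral_iff_ofReal (Filter.Eventually.of_forall h0), h]
    exact ENNReal.ofReal_lt_top
  · rw [integral_eq_lintegral_of_nonneg_ae (Filter.Eventually.of_forall h0) hm.aestronglyMeasurable, h,
      ENNReal.toReal_ofReal hv]

theorem sgR_nonneg {R : ℝ} (hR : 0 < R) (y : E3) : 0 ≤ sgR R y := by
  unfold sgR
  split_ifs
  · positivity
  · exact le_rfl

theorem sgR_meas (R : ℝ) : Measurable (sgR R) := by
  unfold sgR
  refine Measurable.ite (measurableSet_lt measurable_norm measurable_const) ?_ measurable_const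
  exact ((measurable_norm.pow_const 2).const_mul 5).div_const _

theorem GG1_ind (R : ℝ) (g : E3 → ℝ) (y : E3) :
    sgR R y * g y = (ball (0 : E3) R).indicator (fun y => 5 * ‖y‖ ^ 2 / (4 * Real.pi * R ^ 5) * g y) y := by
  unfold sgR
  by_cases h : ‖y‖ < R
  · rw [Set.indicator_of_mem (mem_ball_zero_iff.2 h), if_pos h]
  · rw [Set.indicator_of_notMem (fun h1 => h (mem_ball_zero_iff.1 h1)), if_neg h, zero_mul]

theorem sgR_one {R : ℝ} (hR : 0 < R) : Integrable (sgR R) ∧ ∫ y, sgR R y = 1 := by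
  have e : sgR R = (ball (0 : E3) R).indicator (fun y => 5 * ‖y‖ ^ 2 / (4 * Real.pi * R ^ 5) * 1) := by
    funext y
    rw [← GG1_ind R (fun _ => 1) y, mul_one]
  rw [e]
  constructor
  · rw [integrable_indicator_iff measurableSet_ball]
    have hc : Continuous (fun y : E3 => 5 * ‖y‖ ^ 2 / (4 * Real.pi * R ^ 5) * 1) := by fun_prop
    exact (hc.continuousOn.integrableOn_compact (isCompact_closedBall 0 R)).mono_set ball_subset_closedBall
  · rw [integral_indicator measurableSet_ball,
      GG1_rad (fun r => 5 * r ^ 2 / (4 * Real.pi * R ^ 5) * 1) R]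
    have h1 : ∫ r in Set.Ioo 0 R, r ^ 2 * (5 * r ^ 2 / (4 * Real.pi * R ^ 5) * 1)
        = 5 / (4 * Real.pi * R ^ 5) * (R ^ 5 / 5) := by
      have h2 : ∀ r : ℝ, r ^ 2 * (5 * r ^ 2 / (4 * Real.pi * R ^ 5) * 1) = 5 / (4 * Real.pi * R ^ 5) * r ^ 4 := by
        intro r; ring
      simp only [h2]
      rw [integral_const_mul, ← integral_Ioc_eq_integral_Ioo, ← intervalIntegral.integral_of_le hR.le, integral_pow]
      norm_num
    rw [h1]
    have := Real.pi_pos
    field_simp

theorem sgR_pot {R : ℝ} (hR : 0 < R) (x : E3) :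
    Integrable (fun y => sgR R y * ‖x - y‖⁻¹) ∧
    ∫ y, sgR R y * ‖x - y‖⁻¹ = 5 / (4 * R) * (1 - chi (‖x‖ / R)) := by
  have hpi := Real.pi_pos
  -- the radial integral
  have hI : IntegrableOn (fun y : E3 => 5 * ‖y‖ ^ 2 / (4 * Real.pi * R ^ 5) * (max ‖y‖ ‖x‖)⁻¹) (ball 0 R) := by
    refine (GG1_rad_int (f := fun r => 5 * r ^ 2 / (4 * Real.pi * R ^ 5) * (max r ‖x‖)⁻¹)).2 ?_
    have h2 : (fun r : ℝ => r ^ 2 * (5 * r ^ 2 / (4 * Real.pi * R ^ 5) * (max r ‖x‖)⁻¹))
        = fun r => 5 / (4 * Real.pi * R ^ 5) * (r ^ (3 + 1) * (max r ‖x‖)⁻¹) := by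
      funext r; ring
    rw [h2]
    exact (GG1_one_int 3 (norm_nonneg x)).const_mul _
  have hval : ∫ y in ball (0 : E3) R, 5 * ‖y‖ ^ 2 / (4 * Real.pi * R ^ 5) * (max ‖y‖ ‖x‖)⁻¹
      = 5 / (4 * R) * (1 - chi (‖x‖ / R)) := by
    rw [GG1_rad (fun r => 5 * r ^ 2 / (4 * Real.pi * R ^ 5) * (max r ‖x‖)⁻¹) R]
    have h2 : ∀ r : ℝ, r ^ 2 * (5 * r ^ 2 / (4 * Real.pi * R ^ 5) * (max r ‖x‖)⁻¹)
        = 5 / (4 * Real.pi * R ^ 5) * (r ^ (3 + 1) * (max r ‖x‖)⁻¹) := by
      intro r; ring
    simp only [h2]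
    rw [integral_const_mul]
    unfold chi
    split_ifs with h
    · rw [div_le_one hR] at h
      rw [GG1_one_gt 3 (norm_nonneg x) h]
      push_cast
      field_simp
      ring
    · rw [not_le, one_lt_div hR] at h
      rw [GG1_one_le 3 hR.le h.le]
      have hx : 0 < ‖x‖ := hR.trans h
      push_cast
      field_simp
      ring
  have h0 : ∀ y : E3, 0 ≤ 5 * ‖y‖ ^ 2 / (4 * Real.pi * R ^ 5) := fun y => by positivity
  refine GG1_conv ((sgR_meas R).mul (measurable_const.sub measurable_id).norm.inv)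
    (fun y => mul_nonneg (sgR_nonneg hR y) (inv_nonneg.2 (norm_nonneg _))) ?_ ?_
  · rw [← hval]
    exact setIntegral_nonneg measurableSet_ball fun y _ => by positivity
  · have hF : Measurable (fun r : ℝ => ENNReal.ofReal (5 * r ^ 2 / (4 * Real.pi * R ^ 5))) := by fun_prop
    calc ∫⁻ y, ENNReal.ofReal (sgR R y * ‖x - y‖⁻¹)
        = ∫⁻ y in ball (0 : E3) R, ENNReal.ofReal (5 * ‖y‖ ^ 2 / (4 * Real.pi * R ^ 5)) * ENNReal.ofReal ‖x - y‖⁻¹ := by
          rw [← lintegral_indicator measurableSet_ball]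
          refine lintegral_congr fun y => ?_
          rw [GG1_ind R (fun y => ‖x - y‖⁻¹) y]
          by_cases h : y ∈ ball (0 : E3) R
          · rw [Set.indicator_of_mem h, Set.indicator_of_mem h, ENNReal.ofReal_mul (h0 y)]
          · rw [Set.indicator_of_notMem h, Set.indicator_of_notMem h, ENNReal.ofReal_zero]
      _ = ∫⁻ y in ball (0 : E3) R, ENNReal.ofReal (5 * ‖y‖ ^ 2 / (4 * Real.pi * R ^ 5)) * ENNReal.ofReal (max ‖y‖ ‖x‖)⁻¹ :=
          GG1_newton x R hF
      _ = ∫⁻ y in ball (0 : E3) R, ENNReal.ofReal (5 * ‖y‖ ^ 2 / (4 * Real.pi * R ^ 5) * (max ‖y‖ ‖x‖)⁻¹) := by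
          refine lintegral_congr fun y => ?_
          rw [ENNReal.ofReal_mul (h0 y)]
      _ = ENNReal.ofReal (5 / (4 * R) * (1 - chi (‖x‖ / R))) := by
          rw [← ofReal_integral_eq_lintegral_ofReal hI
            (Filter.Eventually.of_forall fun y => mul_nonneg (h0 y) (by positivity)), hval]

end Ion
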