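import Pool.Agent.Lib.MP_69e010_mp.G.GDefs

/-!
# JOB GG2 (stream G of MP_69e010_mp): kinetic costs

* `sgR_rho`: `(rho e y)⁻² ≤ 64 ‖y‖⁻² + e⁻² ‖y‖⁻⁴`, so `sgR · rho⁻² ≤ 1_{‖y‖<R} (5/(4πR⁵)) (64 + e⁻² ‖y‖⁻²)`; `∫_{B(0,R)} 1 = 4πR³/3`, `∫_{B(0,R)} ‖y‖⁻² = 4πR` (radial integration):
  total `64·5/(3R²) + 5/(e²R⁴) ≤ 200/(e²R²)` for `R ≥ 1`, `0 < e ≤ 1`.
* `sgR_near`: if `‖x - y‖ < 4 rho e y` then `‖x - y‖ < ‖y‖/2`, so `‖y‖ ≤ 2‖x‖`; if also `‖y‖ < R` then `‖y‖² ≤ M := min (4‖x‖²) R²`, `sgR R y ≤ 5M/(4πR⁵)`, and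
  `‖x - y‖ < 4 e M`. `∫_{B(x,r)} ‖x - y‖⁻² dy = 4πr`. Total `≤ 20 e M²/R⁵`; `M² ≤ 80 R⁴ chi(‖x‖/R)` (if `‖x‖ ≤ R`: `M² ≤ 16‖x‖⁴`; if `‖x‖ > R`: `M² ≤ R⁴`, `chi ≥ 1/5`).
-/

open MeasureTheory Metric Finset Filter Topology

noncomputable section

namespace Ion

theorem GG2_vol1 : (volume : Measure E3).real (ball 0 1) = Real.pi * 4 / 3 := by
  rw [Measure.real, EuclideanSpace.volume_ball_fin_three]
  rw [ENNReal.ofReal_one, one_pow, one_mul, ENNReal.toReal_ofReal (by positivity)]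

theorem GG2_vol (p : E3) {r : ℝ} (hr : 0 ≤ r) : (volume : Measure E3).real (ball p r) = Real.pi * 4 / 3 * r ^ 3 := by
  rw [Measure.real, EuclideanSpace.volume_ball_fin_three, ENNReal.toReal_mul, ENNReal.toReal_pow,
    ENNReal.toReal_ofReal hr, ENNReal.toReal_ofReal (by positivity)]
  ring

theorem GG2_sgR_meas (R : ℝ) : Measurable (sgR R) := by
  unfold sgR
  refine Measurable.ite (measurableSet_lt measurable_norm measurable_const) ?_ measurable_const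
  exact ((measurable_norm.pow_const 2).const_mul 5).div_const _

theorem GG2_sgR_nonneg {R : ℝ} (hR : 0 < R) (y : E3) : 0 ≤ sgR R y := by
  unfold sgR
  split_ifs
  · positivity
  · exact le_rfl

theorem GG2_rho_meas (e : ℝ) : Measurable (rho e) := by
  unfold rho
  exact (measurable_norm.div_const _).min ((measurable_norm.pow_const 2).const_mul e)

/-- the ball around the origin -/
theorem GG2_ball0 {r : ℝ} (hr : 0 ≤ r) :
    Integrable ((ball (0 : E3) r).indicator (fun w => (‖w‖⁻¹) ^ 2)) ∧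
    ∫ w, (ball (0 : E3) r).indicator (fun w => (‖w‖⁻¹) ^ 2) w = 4 * Real.pi * r := by
  have hc : ∀ ρ ∈ Set.Ioo 0 r, ρ ^ 2 * (ρ⁻¹) ^ 2 = 1 := by
    intro ρ hρ
    have : (0 : ℝ) < ρ := hρ.1
    field_simp
  constructor
  · rw [integrable_indicator_iff measurableSet_ball]
    refine (integrableOn_fun_norm_addHaar (volume : Measure E3) (f := fun ρ => (ρ⁻¹) ^ 2)).2 ?_
    simp only [finrank_euclideanSpace_fin, smul_eq_mul]
    refine (integrableOn_congr_fun (g := fun _ => (1 : ℝ)) (fun ρ hρ => hc ρ hρ) measurableSet_Ioo).2 ?_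
    exact integrableOn_const (by simp)
  · have h1 : ∀ w : E3, (ball (0 : E3) r).indicator (fun w => (‖w‖⁻¹) ^ 2) w
        = (Set.Iio r).indicator (fun ρ => (ρ⁻¹) ^ 2) ‖w‖ := by
      intro w
      simp [Set.indicator]
    simp only [h1]
    rw [integral_fun_norm_addHaar (volume : Measure E3), GG2_vol1]
    have h2 : ∫ ρ in Set.Ioi (0 : ℝ), ρ ^ (Module.finrank ℝ E3 - 1) • (Set.Iio r).indicator (fun ρ => (ρ⁻¹) ^ 2) ρ
        = r := by
      have h3 : (fun ρ : ℝ => ρ ^ (Module.finrank ℝ E3 - 1) • (Set.Iio r).indicator (fun ρ => (ρ⁻¹) ^ 2) ρ)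
          = (Set.Iio r).indicator (fun ρ => ρ ^ 2 * (ρ⁻¹) ^ 2) := by
        funext ρ
        rw [finrank_euclideanSpace_fin]
        by_cases h : ρ ∈ Set.Iio r
        · rw [Set.indicator_of_mem h, Set.indicator_of_mem h]; simp
        · rw [Set.indicator_of_notMem h, Set.indicator_of_notMem h]; simp
      rw [h3, setIntegral_indicator measurableSet_Iio]
      have h4 : Set.Ioi (0 : ℝ) ∩ Set.Iio r = Set.Ioo 0 r := rfl
      rw [h4, setIntegral_congr_fun measurableSet_Ioo hc]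
      simp [hr]
    rw [h2, finrank_euclideanSpace_fin]
    simp only [nsmul_eq_mul, smul_eq_mul]
    push_cast
    ring

theorem integral_inv_sq_ball (x : E3) {r : ℝ} (hr : 0 ≤ r) :
    IntegrableOn (fun y : E3 => (‖x - y‖⁻¹) ^ 2) (ball x r) ∧
    ∫ y in ball x r, (‖x - y‖⁻¹) ^ 2 = 4 * Real.pi * r := by
  have h1 : (ball x r).indicator (fun y : E3 => (‖x - y‖⁻¹) ^ 2)
      = fun y => (ball (0 : E3) r).indicator (fun w => (‖w‖⁻¹) ^ 2) (x - y) := by
    funext y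
    have h2 : y ∈ ball x r ↔ x - y ∈ ball (0 : E3) r := by
      rw [mem_ball_zero_iff, mem_ball, dist_comm, dist_eq_norm]
    by_cases h : y ∈ ball x r
    · rw [Set.indicator_of_mem h, Set.indicator_of_mem (h2.1 h)]
    · rw [Set.indicator_of_notMem h, Set.indicator_of_notMem (fun h3 => h (h2.2 h3))]
  constructor
  · rw [← integrable_indicator_iff measurableSet_ball, h1]
    exact (GG2_ball0 hr).1.comp_sub_left x
  · rw [← integral_indicator measurableSet_ball, h1,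
      integral_sub_left_eq_self (fun w => (ball (0 : E3) r).indicator (fun w => (‖w‖⁻¹) ^ 2) w) volume x]
    exact (GG2_ball0 hr).2

theorem GG2_rho_inv {e : ℝ} (he : 0 < e) (y : E3) :
    ((rho e y)⁻¹) ^ 2 ≤ 64 * (‖y‖⁻¹) ^ 2 + (e⁻¹) ^ 2 * (‖y‖⁻¹) ^ 4 := by
  rcases eq_or_ne y 0 with h0 | h0
  · subst h0; simp [rho]
  have hy : 0 < ‖y‖ := norm_pos_iff.2 h0
  unfold rho
  rcases min_cases (‖y‖ / 8) (e * ‖y‖ ^ 2) with ⟨h, _⟩ | ⟨h, _⟩
  · rw [h]
    have h1 : ((‖y‖ / 8)⁻¹) ^ 2 = 64 * (‖y‖⁻¹) ^ 2 := by field_simp; norm_num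
    rw [h1]
    have : 0 ≤ (e⁻¹) ^ 2 * (‖y‖⁻¹) ^ 4 := by positivity
    linarith
  · rw [h]
    have h1 : ((e * ‖y‖ ^ 2)⁻¹) ^ 2 = (e⁻¹) ^ 2 * (‖y‖⁻¹) ^ 4 := by field_simp
    rw [h1]
    have : 0 ≤ 64 * (‖y‖⁻¹) ^ 2 := by positivity
    linarith

theorem GG2_dom {f g : E3 → ℝ} (hf : Measurable f) (h0 : ∀ y, 0 ≤ f y) (h1 : ∀ y, f y ≤ g y)
    (hg : Integrable g) {C : ℝ} (hC : ∫ y, g y ≤ C) : Integrable f ∧ ∫ y, f y ≤ C := by
  have hi : Integrable f := hg.mono' hf.aestronglyMeasurable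
    (Filter.Eventually.of_forall fun y => by rw [Real.norm_of_nonneg (h0 y)]; exact h1 y)
  exact ⟨hi, (integral_mono hi hg h1).trans hC⟩

theorem sgR_rho {R e : ℝ} (hR : 1 ≤ R) (he : 0 < e) (he1 : e ≤ 1) :
    Integrable (fun y => sgR R y * ((rho e y)⁻¹) ^ 2) ∧
    ∫ y, sgR R y * ((rho e y)⁻¹) ^ 2 ≤ 200 / e ^ 2 / R ^ 2 := by
  have hR0 : 0 < R := by linarith
  have hpi := Real.pi_pos
  have hind1 : Integrable ((ball (0 : E3) R).indicator (fun _ => (1 : ℝ))) :=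
    (integrable_indicator_iff measurableSet_ball).2 (integrableOn_const (by finiteness))
  have hind1v : ∫ y, (ball (0 : E3) R).indicator (fun _ => (1 : ℝ)) y = Real.pi * 4 / 3 * R ^ 3 := by
    rw [integral_indicator measurableSet_ball, setIntegral_const, GG2_vol 0 hR0.le]
    simp
  obtain ⟨h2, h2v⟩ := GG2_ball0 hR0.le
  refine GG2_dom (g := fun y => 5 / (4 * Real.pi * R ^ 5) * (64 * (ball (0 : E3) R).indicator (fun _ => (1 : ℝ)) y
      + (e⁻¹) ^ 2 * (ball (0 : E3) R).indicator (fun w => (‖w‖⁻¹) ^ 2) y)) ?_ ?_ ?_ ?_ ?_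
  · exact (GG2_sgR_meas R).mul ((GG2_rho_meas e).inv.pow_const 2)
  · intro y
    exact mul_nonneg (GG2_sgR_nonneg hR0 y) (by positivity)
  · intro y
    unfold sgR
    by_cases h : ‖y‖ < R
    · have hb : y ∈ ball (0 : E3) R := mem_ball_zero_iff.2 h
      rw [if_pos h, Set.indicator_of_mem hb, Set.indicator_of_mem hb]
      have h3 := GG2_rho_inv he y
      calc 5 * ‖y‖ ^ 2 / (4 * Real.pi * R ^ 5) * ((rho e y)⁻¹) ^ 2
          ≤ 5 * ‖y‖ ^ 2 / (4 * Real.pi * R ^ 5) * (64 * (‖y‖⁻¹) ^ 2 + (e⁻¹) ^ 2 * (‖y‖⁻¹) ^ 4) := by gcongr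
        _ ≤ 5 / (4 * Real.pi * R ^ 5) * (64 * 1 + (e⁻¹) ^ 2 * (‖y‖⁻¹) ^ 2) := by
          rcases eq_or_ne y 0 with h0 | h0
          · subst h0; simp; positivity
          · have hy : 0 < ‖y‖ := norm_pos_iff.2 h0
            refine le_of_eq ?_
            field_simp
    · have hb : y ∉ ball (0 : E3) R := fun h1 => h (mem_ball_zero_iff.1 h1)
      rw [if_neg h, Set.indicator_of_notMem hb, Set.indicator_of_notMem hb]
      simp
  · exact ((hind1.const_mul 64).add (h2.const_mul _)).const_mul _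
  · rw [integral_const_mul, integral_add (hind1.const_mul 64) (h2.const_mul _), integral_const_mul,
      integral_const_mul, hind1v, h2v]
    have h4 : 5 / (4 * Real.pi * R ^ 5) * (64 * (Real.pi * 4 / 3 * R ^ 3) + (e⁻¹) ^ 2 * (4 * Real.pi * R))
        = (320 / 3 * e ^ 2 * R ^ 2 + 5) / (e ^ 2 * R ^ 4) := by
      field_simp
      ring
    rw [h4, div_div, div_le_div_iff₀ (by positivity) (by positivity)]
    have h5 : e ^ 2 ≤ 1 := pow_le_one₀ he.le he1
    have h6 : 1 ≤ R ^ 2 := one_le_pow₀ hR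
    have h7 : 0 ≤ e ^ 2 * R ^ 2 := by positivity
    have h8 : 320 / 3 * e ^ 2 * R ^ 2 + 5 ≤ 200 * R ^ 2 := by nlinarith
    calc (320 / 3 * e ^ 2 * R ^ 2 + 5) * (e ^ 2 * R ^ 2) ≤ (200 * R ^ 2) * (e ^ 2 * R ^ 2) := by gcongr
      _ = 200 * (e ^ 2 * R ^ 4) := by ring

theorem GG2_M {R : ℝ} (hR : 0 < R) {l : ℝ} (hl : 0 ≤ l) :
    (min (4 * l ^ 2) (R ^ 2)) ^ 2 ≤ 80 * R ^ 4 * chi (l / R) := by
  have h0 : 0 ≤ min (4 * l ^ 2) (R ^ 2) := le_min (by positivity) (by positivity)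
  unfold chi
  split_ifs with h
  · have h1 : (min (4 * l ^ 2) (R ^ 2)) ^ 2 ≤ (4 * l ^ 2) ^ 2 := pow_le_pow_left₀ h0 (min_le_left _ _) 2
    refine h1.trans (le_of_eq ?_)
    field_simp
    ring
  · rw [not_le] at h
    have h1 : (min (4 * l ^ 2) (R ^ 2)) ^ 2 ≤ (R ^ 2) ^ 2 := pow_le_pow_left₀ h0 (min_le_right _ _) 2
    have h2 : 4 / (5 * (l / R)) ≤ 4 / 5 := by
      apply div_le_div_of_nonneg_left (by norm_num) (by norm_num)
      linarith
    have h3 : 0 < R ^ 4 := by positivity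
    nlinarith

theorem sgR_near {R e : ℝ} (hR : 0 < R) (he : 0 < e) (x : E3) :
    Integrable (fun y => sgR R y * (if ‖x - y‖ < 4 * rho e y then (‖x - y‖⁻¹) ^ 2 else 0)) ∧
    ∫ y, sgR R y * (if ‖x - y‖ < 4 * rho e y then (‖x - y‖⁻¹) ^ 2 else 0)
      ≤ 1600 * e * chi (‖x‖ / R) / R := by
  have hpi := Real.pi_pos
  set M : ℝ := min (4 * ‖x‖ ^ 2) (R ^ 2) with hM
  have hM0 : 0 ≤ M := le_min (by positivity) (by positivity)
  have hr : 0 ≤ 4 * e * M := by positivity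
  obtain ⟨hi, hv⟩ := integral_inv_sq_ball x hr
  have hi' : Integrable ((ball x (4 * e * M)).indicator (fun y : E3 => (‖x - y‖⁻¹) ^ 2)) :=
    (integrable_indicator_iff measurableSet_ball).2 hi
  have hv' : ∫ y, (ball x (4 * e * M)).indicator (fun y : E3 => (‖x - y‖⁻¹) ^ 2) y = 4 * Real.pi * (4 * e * M) := by
    rw [integral_indicator measurableSet_ball, hv]
  refine GG2_dom (g := fun y => 5 * M / (4 * Real.pi * R ^ 5)
      * (ball x (4 * e * M)).indicator (fun y : E3 => (‖x - y‖⁻¹) ^ 2) y) ?_ ?_ ?_ ?_ ?_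
  · refine (GG2_sgR_meas R).mul (Measurable.ite ?_ ?_ measurable_const)
    · exact measurableSet_lt (measurable_const.sub measurable_id).norm ((GG2_rho_meas e).const_mul 4)
    · exact (measurable_const.sub measurable_id).norm.inv.pow_const 2
  · intro y
    refine mul_nonneg (GG2_sgR_nonneg hR y) ?_
    split_ifs
    · positivity
    · exact le_rfl
  · intro y
    have hnn : 0 ≤ 5 * M / (4 * Real.pi * R ^ 5)
        * (ball x (4 * e * M)).indicator (fun y : E3 => (‖x - y‖⁻¹) ^ 2) y := by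
      refine mul_nonneg (by positivity) (Set.indicator_nonneg (fun y _ => by positivity) y)
    by_cases h : ‖y‖ < R
    · by_cases h1 : ‖x - y‖ < 4 * rho e y
      · have h2 : ‖x - y‖ < ‖y‖ / 2 := by
          have : rho e y ≤ ‖y‖ / 8 := min_le_left _ _
          linarith
        have h3 : ‖y‖ ≤ 2 * ‖x‖ := by
          have h4 : ‖y‖ ≤ ‖x‖ + ‖x - y‖ := by
            have := norm_sub_le x (x - y)
            simpa using this
          linarith
        have h5 : ‖y‖ ^ 2 ≤ M := by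
          refine le_min ?_ (pow_le_pow_left₀ (norm_nonneg _) h.le 2)
          calc ‖y‖ ^ 2 ≤ (2 * ‖x‖) ^ 2 := pow_le_pow_left₀ (norm_nonneg _) h3 2
            _ = 4 * ‖x‖ ^ 2 := by ring
        have h6 : y ∈ ball x (4 * e * M) := by
          rw [mem_ball, dist_comm, dist_eq_norm]
          have h7 : rho e y ≤ e * ‖y‖ ^ 2 := min_le_right _ _
          have h8 : e * ‖y‖ ^ 2 ≤ e * M := mul_le_mul_of_nonneg_left h5 he.le
          linarith
        rw [Set.indicator_of_mem h6, if_pos h1]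
        unfold sgR
        rw [if_pos h]
        gcongr
      · rw [if_neg h1, mul_zero]
        exact hnn
    · unfold sgR
      rw [if_neg h, zero_mul]
      exact hnn
  · exact hi'.const_mul _
  · rw [integral_const_mul, hv']
    have h1 := GG2_M hR (norm_nonneg x)
    rw [← hM] at h1
    have h2 : 5 * M / (4 * Real.pi * R ^ 5) * (4 * Real.pi * (4 * e * M)) = 20 * e / R ^ 5 * M ^ 2 := by
      field_simp
      ring
    rw [h2]
    calc 20 * e / R ^ 5 * M ^ 2 ≤ 20 * e / R ^ 5 * (80 * R ^ 4 * chi (‖x‖ / R)) := by gcongr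
      _ = 1600 * e * chi (‖x‖ / R) / R := by
        field_simp
        ring

end Ion
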