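import Pool.Agent.Lib.MP_69e010_mp.G.GF4
import Pool.Agent.Lib.MP_69e010_mp.G.GG1
import Pool.Agent.Lib.MP_69e010_mp.G.GG2

/-!
# JOB GH (stream G of MP_69e010_mp): Proposition 10.1

`CB` from `EN_fix2`, `e := η / (16 · 1600 · CB + 1)` (so `0 < e ≤ 1`), `C := 200 CB / e² + 1`. For `y ≠ 0` apply `EN_fix2` with `ρ = rho e y > 0` (`8ρ ≤ ‖y‖`), multiply by `sgR R y ≥ 0` and
integrate over `y` (`{0}` is a null set). Left side: `EN z (n+1) * nrm2 φ` (`sgR_one`). Right side: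
`qf z φ + (CB ∫ sgR rho⁻² - z ∫ sgR ‖y‖⁻¹) nrm2 φ + ∑_σ ∑_k ∫_y sgR R y ∫_Y kapG CB (rho e y) y (Y k) φ²`, with `∫ sgR ‖y‖⁻¹ = 5/(4R)` (`sgR_pot` at `x = 0`, `chi 0 = 0`),
`∫ sgR rho⁻² ≤ 200/(e²R²)` (`sgR_rho`). Tonelli for the nonnegative measurable function `sgR R y * kapG .. * φ²` on `E3 × Conf n`:
`∫_y sgR R y * kapG CB (rho e y) y x dy ≤ 5/(4R) (1 - chi(‖x‖/R)) + 16 CB 1600 e chi(‖x‖/R)/R ≤ 5/(4R) - (5/(4R) - η/R) chi(‖x‖/R)` (`sgR_pot`, `sgR_near`).
(Integrability on the product from the same bound: `integrable_prod_iff'`; `φ²` integrable.) Then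
`EN z (n+1) nrm2 φ ≤ qf z φ + (C/R² - 5z/(4R)) nrm2 φ + ∑_σ ∫ (5n/(4R) - (5/(4R) - η/R) ∑_k chi(‖Y k‖/R)) φ²`, which is the claim.
-/

open MeasureTheory Metric Finset Filter Topology

noncomputable section

namespace Ion

theorem GH_chi_nonneg (t : ℝ) : 0 ≤ chi t := by
  unfold chi
  split_ifs with h
  · positivity
  · have h1 : 1 < t := not_le.mp h
    have h2 : 4 / (5 * t) ≤ 1 := by
      rw [div_le_one (by linarith)]
      linarith
    linarith

theorem GH_chi_le_one (t : ℝ) (ht : 0 ≤ t) : chi t ≤ 1 := by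
  unfold chi
  split_ifs with h
  · have h1 : t ^ 4 ≤ 1 := pow_le_one₀ ht h
    linarith
  · have h1 : 1 < t := not_le.mp h
    have h2 : 0 ≤ 4 / (5 * t) := by positivity
    linarith

theorem GH_chi_zero : chi 0 = 0 := by
  unfold chi
  norm_num

theorem GH_chi_meas : Measurable chi := by
  unfold chi
  exact Measurable.ite measurableSet_Iic (by fun_prop) (by fun_prop)

theorem GH_rho_cont (e : ℝ) : Continuous (rho e) := by
  unfold rho
  fun_prop

theorem GH_rho_pos {e : ℝ} (he : 0 < e) {y : E3} (hy : y ≠ 0) : 0 < rho e y := by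
  have h1 : 0 < ‖y‖ := norm_pos_iff.mpr hy
  unfold rho
  exact lt_min (by positivity) (by positivity)

/-- joint measurability of the integrand -/
theorem GH_kap_meas (CB e : ℝ) :
    Measurable (fun p : E3 × E3 => kapG CB (rho e p.1) p.1 p.2) := by
  unfold kapG
  have h1 : Measurable (fun p : E3 × E3 => ‖p.2 - p.1‖) := by fun_prop
  have h2 : Measurable (fun p : E3 × E3 => 4 * rho e p.1) :=
    (((GH_rho_cont e).comp continuous_fst).measurable).const_mul 4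
  refine h1.inv.add (Measurable.ite (measurableSet_lt h1 h2) ?_ measurable_const)
  exact (h1.inv.pow_const 2).const_mul _

theorem GH_kap_nonneg {CB : ℝ} (hCB : 0 < CB) (ρ : ℝ) (y x : E3) : 0 ≤ kapG CB ρ y x := by
  unfold kapG
  split_ifs
  · positivity
  · positivity

/-- the `y`-integral of the interaction -/
theorem GH_pot {CB e η R : ℝ} (hCB : 0 < CB) (he : 0 < e) (hR : 0 < R)
    (hce : 16 * 1600 * CB * e ≤ η) (x : E3) :
    Integrable (fun y => sgR R y * kapG CB (rho e y) y x) ∧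
    ∫ y, sgR R y * kapG CB (rho e y) y x
      ≤ 5 / (4 * R) - (5 / (4 * R) - η / R) * chi (‖x‖ / R) := by
  obtain ⟨i1, v1⟩ := sgR_pot hR x
  obtain ⟨i2, v2⟩ := sgR_near hR he x
  have heq : (fun y => sgR R y * kapG CB (rho e y) y x) = fun y =>
      sgR R y * ‖x - y‖⁻¹ + 16 * CB *
        (sgR R y * (if ‖x - y‖ < 4 * rho e y then (‖x - y‖⁻¹) ^ 2 else 0)) := by
    funext y
    unfold kapG
    split_ifs
    · ring
    · ring
  rw [heq]
  refine ⟨i1.add (i2.const_mul _), ?_⟩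
  rw [integral_add i1 (i2.const_mul _), integral_const_mul, v1]
  have h1 : 16 * CB * ∫ y, sgR R y * (if ‖x - y‖ < 4 * rho e y then (‖x - y‖⁻¹) ^ 2 else 0)
      ≤ 16 * CB * (1600 * e * chi (‖x‖ / R) / R) :=
    mul_le_mul_of_nonneg_left v2 (by positivity)
  have h2 : 0 ≤ chi (‖x‖ / R) / R := div_nonneg (GH_chi_nonneg _) hR.le
  have h3 := mul_le_mul_of_nonneg_right hce h2
  have h4 : 16 * CB * (1600 * e * chi (‖x‖ / R) / R)
      = 16 * 1600 * CB * e * (chi (‖x‖ / R) / R) := by ring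
  have h5 : η * (chi (‖x‖ / R) / R) = η / R * chi (‖x‖ / R) := by ring
  rw [h4] at h1
  rw [h5] at h3
  linarith

theorem GH_pot_nonneg {CB e R : ℝ} (hCB : 0 < CB) (hR : 0 < R) (x : E3) :
    0 ≤ ∫ y, sgR R y * kapG CB (rho e y) y x :=
  integral_nonneg (fun y => mul_nonneg (sgR_nonneg hR y) (GH_kap_nonneg hCB _ _ _))

/-- the integrand on the product space -/
def GH_H {n : ℕ} (CB e R : ℝ) (F : Conf n → ℝ) (k : Fin n) (p : E3 × Conf n) : ℝ :=
  sgR R p.1 * kapG CB (rho e p.1) p.1 (p.2 k) * (F p.2) ^ 2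

theorem GH_H_meas {n : ℕ} (CB e R : ℝ) {F : Conf n → ℝ} (hF : LipC F) (k : Fin n) :
    Measurable (GH_H CB e R F k) := by
  unfold GH_H
  have h1 : Measurable (fun p : E3 × Conf n => sgR R p.1) := (sgR_meas R).comp measurable_fst
  have h0 : Measurable (fun p : E3 × Conf n => (p.1, p.2 k)) := by fun_prop
  have h2 : Measurable (fun p : E3 × Conf n => kapG CB (rho e p.1) p.1 (p.2 k)) := by
    have h := (GH_kap_meas CB e).comp h0
    exact h
  have h5 : Measurable F := hF.cont.measurable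
  have h4 : Measurable (fun p : E3 × Conf n => F p.2) := h5.comp measurable_snd
  have h3 : Measurable (fun p : E3 × Conf n => (F p.2) ^ 2) := h4.pow_const 2
  exact (h1.mul h2).mul h3

theorem GH_H_nonneg {n : ℕ} {CB e R : ℝ} (hCB : 0 < CB) (hR : 0 < R) (F : Conf n → ℝ) (k : Fin n)
    (p : E3 × Conf n) : 0 ≤ GH_H CB e R F k p := by
  unfold GH_H
  exact mul_nonneg (mul_nonneg (sgR_nonneg hR _) (GH_kap_nonneg hCB _ _ _)) (sq_nonneg _)

theorem GH_H_slice {n : ℕ} (CB e R : ℝ) (F : Conf n → ℝ) (k : Fin n) (Y : Conf n) :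
    ∫ y, GH_H CB e R F k (y, Y)
      = (∫ y, sgR R y * kapG CB (rho e y) y (Y k)) * (F Y) ^ 2 := by
  rw [← integral_mul_const]
  rfl

theorem GH_w_bdd {R η : ℝ} (hR : 0 < R) (hη : 0 < η) (x : E3) :
    |5 / (4 * R) - (5 / (4 * R) - η / R) * chi (‖x‖ / R)| ≤ 5 / (4 * R) + η / R := by
  have h0 := GH_chi_nonneg (‖x‖ / R)
  have h1 := GH_chi_le_one (‖x‖ / R) (by positivity)
  have h2 : 0 ≤ 5 / (4 * R) := by positivity
  have h3 : 0 ≤ η / R := by positivity
  rw [abs_le]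
  constructor
  · nlinarith
  · nlinarith

theorem GH_int_w {n : ℕ} {R η : ℝ} (hR : 0 < R) (hη : 0 < η) {F : Conf n → ℝ} (hF : LipC F)
    (k : Fin n) : Integrable (fun Y : Conf n =>
      (5 / (4 * R) - (5 / (4 * R) - η / R) * chi (‖Y k‖ / R)) * (F Y) ^ 2) := by
  have hm : Measurable (fun Y : Conf n =>
      5 / (4 * R) - (5 / (4 * R) - η / R) * chi (‖Y k‖ / R)) := by
    have h1 : Measurable (fun Y : Conf n => ‖Y k‖ / R) := by fun_prop
    exact measurable_const.sub ((GH_chi_meas.comp h1).const_mul _)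
  exact int_weight hF.integrable_sq hm (fun Y => GH_w_bdd hR hη (Y k))

theorem GH_H_int {n : ℕ} {CB e η R : ℝ} (hCB : 0 < CB) (he : 0 < e) (hη : 0 < η) (hR : 0 < R)
    (hce : 16 * 1600 * CB * e ≤ η) {F : Conf n → ℝ} (hF : LipC F) (k : Fin n) :
    Integrable (GH_H CB e R F k) ((volume : Measure E3).prod (volume : Measure (Conf n))) := by
  have hm := GH_H_meas CB e R hF k
  rw [integrable_prod_iff' hm.aestronglyMeasurable]
  refine ⟨ae_of_all _ (fun Y => ?_), ?_⟩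
  · have h := (GH_pot hCB he hR hce (Y k)).1
    exact h.mul_const ((F Y) ^ 2)
  · have heq : (fun Y : Conf n => ∫ y, ‖GH_H CB e R F k (y, Y)‖) = fun Y =>
        ∫ y, GH_H CB e R F k (y, Y) := by
      funext Y
      refine integral_congr_ae (ae_of_all _ (fun y => ?_))
      simp only [Real.norm_eq_abs]
      exact abs_of_nonneg (GH_H_nonneg hCB hR F k _)
    rw [heq]
    refine Integrable.mono' (GH_int_w hR hη hF k) ?_ (ae_of_all _ (fun Y => ?_))
    · exact (hm.stronglyMeasurable.integral_prod_left').aestronglyMeasurable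
    · have h0 : 0 ≤ ∫ y, GH_H CB e R F k (y, Y) :=
        integral_nonneg (fun y => GH_H_nonneg hCB hR F k _)
      rw [Real.norm_eq_abs, abs_of_nonneg h0]
      rw [GH_H_slice]
      exact mul_le_mul_of_nonneg_right (GH_pot hCB he hR hce (Y k)).2 (sq_nonneg _)

/-- the interaction term after the integration over `y` -/
theorem GH_K {n : ℕ} {CB e η R : ℝ} (hCB : 0 < CB) (he : 0 < e) (hη : 0 < η) (hR : 0 < R)
    (hce : 16 * 1600 * CB * e ≤ η) {F : Conf n → ℝ} (hF : LipC F) (k : Fin n) :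
    Integrable (fun y => sgR R y * ∫ Y : Conf n, kapG CB (rho e y) y (Y k) * (F Y) ^ 2) ∧
    ∫ y, sgR R y * ∫ Y : Conf n, kapG CB (rho e y) y (Y k) * (F Y) ^ 2
      ≤ ∫ Y : Conf n, (5 / (4 * R) - (5 / (4 * R) - η / R) * chi (‖Y k‖ / R)) * (F Y) ^ 2 := by
  have hint := GH_H_int hCB he hη hR hce hF k
  have heq : (fun y => sgR R y * ∫ Y : Conf n, kapG CB (rho e y) y (Y k) * (F Y) ^ 2) = fun y =>
      ∫ Y : Conf n, GH_H CB e R F k (y, Y) := by
    funext y
    rw [← integral_const_mul]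
    refine integral_congr_ae (ae_of_all _ (fun Y => ?_))
    simp only [GH_H]
    ring
  rw [heq]
  refine ⟨hint.integral_prod_left, ?_⟩
  have hswap := integral_integral_swap (f := fun y Y => GH_H CB e R F k (y, Y)) hint
  rw [hswap]
  refine integral_mono hint.integral_prod_right (GH_int_w hR hη hF k) (fun Y => ?_)
  dsimp only
  rw [GH_H_slice]
  exact mul_le_mul_of_nonneg_right (GH_pot hCB he hR hce (Y k)).2 (sq_nonneg _)

/-- the nucleus -/
theorem GH_nuc {R : ℝ} (hR : 0 < R) :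
    Integrable (fun y => sgR R y * ‖y‖⁻¹) ∧ ∫ y, sgR R y * ‖y‖⁻¹ = 5 / (4 * R) := by
  obtain ⟨h1, h2⟩ := sgR_pot hR 0
  simp only [zero_sub, norm_neg, norm_zero, zero_div, GH_chi_zero, sub_zero, mul_one] at h1 h2
  exact ⟨h1, h2⟩

/-- Proposition 10.1 -/
theorem gamma_prop {η : ℝ} (hη : 0 < η) (hη1 : η ≤ 1) :
    ∃ C : ℝ, 0 < C ∧ ∀ (z : ℝ), 0 < z → ∀ (R : ℝ), 1 ≤ R → ∀ (n : ℕ) (φ : RW n), Adms φ →
      ∑ σ, ∫ X, (5 / (4 * R) * (z - n + ∑ k, chi (‖X k‖ / R)) - η / R * (∑ k, chi (‖X k‖ / R)) - C / R ^ 2)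
          * (φ σ X) ^ 2
        ≤ qf z φ - EN z (n + 1) * nrm2 φ := by
  obtain ⟨CB, hCB, hfix⟩ := EN_fix2
  have hden : 0 < 16 * 1600 * CB + 1 := by positivity
  obtain ⟨e, hedef⟩ : ∃ e : ℝ, e = η / (16 * 1600 * CB + 1) := ⟨_, rfl⟩
  have he : 0 < e := by rw [hedef]; positivity
  have heη : e * (16 * 1600 * CB + 1) = η := by
    rw [hedef]
    exact div_mul_cancel₀ _ hden.ne'
  have he1 : e ≤ 1 := by
    have h1 : 0 ≤ e * (16 * 1600 * CB) := by positivity
    nlinarith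
  have hce : 16 * 1600 * CB * e ≤ η := by nlinarith
  refine ⟨200 * CB / e ^ 2 + 1, by positivity, fun z hz R hR1 n φ hφ => ?_⟩
  have hR : 0 < R := by linarith
  obtain ⟨s1, s2⟩ := sgR_one hR
  obtain ⟨r1, r2⟩ := sgR_rho hR1 he he1
  obtain ⟨u1, u2⟩ := GH_nuc hR
  have hN : 0 ≤ nrm2 φ := by
    unfold nrm2
    exact Finset.sum_nonneg (fun σ _ => integral_nonneg (fun X => sq_nonneg _))
  -- the inequality integrated over `y`
  have hy0 : ∀ᵐ y : E3, y ≠ 0 := by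
    have h := measure_singleton (μ := (volume : Measure E3)) 0
    exact compl_mem_ae_iff.mpr h
  have hKint : ∀ σ k, Integrable (fun y =>
      sgR R y * ∫ Y : Conf n, kapG CB (rho e y) y (Y k) * (φ σ Y) ^ 2) :=
    fun σ k => (GH_K hCB he hη hR hce (hφ.1 σ) k).1
  have hKsum : Integrable (fun y => ∑ σ, ∑ k,
      sgR R y * ∫ Y : Conf n, kapG CB (rho e y) y (Y k) * (φ σ Y) ^ 2) :=
    integrable_finsetSum _ (fun σ _ => integrable_finsetSum _ (fun k _ => hKint σ k))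
  have hL : Integrable (fun y => sgR R y * (EN z (n + 1) * nrm2 φ)) := s1.mul_const _
  have hR1i : Integrable (fun y => sgR R y * qf z φ) := s1.mul_const _
  have hR2i : Integrable (fun y => sgR R y * ((rho e y)⁻¹) ^ 2 * (CB * nrm2 φ)) := r1.mul_const _
  have hR3i : Integrable (fun y => sgR R y * ‖y‖⁻¹ * (z * nrm2 φ)) := u1.mul_const _
  have hmono : ∫ y, sgR R y * (EN z (n + 1) * nrm2 φ) ≤
      ∫ y, ((sgR R y * qf z φ + sgR R y * ((rho e y)⁻¹) ^ 2 * (CB * nrm2 φ)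
        - sgR R y * ‖y‖⁻¹ * (z * nrm2 φ))
        + ∑ σ, ∑ k, sgR R y * ∫ Y : Conf n, kapG CB (rho e y) y (Y k) * (φ σ Y) ^ 2) := by
    refine integral_mono_ae hL (((hR1i.add hR2i).sub hR3i).add hKsum) ?_
    filter_upwards [hy0] with y hy
    have h1 := (hfix z hz n φ hφ y (rho e y) (GH_rho_pos he hy) (by
      have h2 : rho e y ≤ ‖y‖ / 8 := min_le_left _ _
      linarith)).2
    have h3 := mul_le_mul_of_nonneg_left h1 (sgR_nonneg hR y)
    refine h3.trans (le_of_eq ?_)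
    rw [mul_add, Finset.mul_sum]
    simp only [Finset.mul_sum]
    congr 1
    rw [div_eq_mul_inv]
    ring
  have hB : Integrable (fun y => sgR R y * qf z φ
      + sgR R y * ((rho e y)⁻¹) ^ 2 * (CB * nrm2 φ)) := hR1i.add hR2i
  have hA : Integrable (fun y => sgR R y * qf z φ + sgR R y * ((rho e y)⁻¹) ^ 2 * (CB * nrm2 φ)
      - sgR R y * ‖y‖⁻¹ * (z * nrm2 φ)) := hB.sub hR3i
  rw [integral_add hA hKsum, integral_sub hB hR3i,
    integral_add hR1i hR2i, integral_mul_const, integral_mul_const, integral_mul_const,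
    integral_mul_const, s2, u2, one_mul, one_mul,
    integral_finsetSum _ (fun σ _ => integrable_finsetSum _ (fun k _ => hKint σ k))] at hmono
  have hrho : (∫ y, sgR R y * ((rho e y)⁻¹) ^ 2) * (CB * nrm2 φ)
      ≤ 200 / e ^ 2 / R ^ 2 * (CB * nrm2 φ) := mul_le_mul_of_nonneg_right r2 (by positivity)
  have hsum : ∑ σ : Spin n, ∫ y, ∑ k, sgR R y * ∫ Y : Conf n, kapG CB (rho e y) y (Y k) * (φ σ Y) ^ 2
      ≤ ∑ σ : Spin n, ∑ k, ∫ Y : Conf n,
          (5 / (4 * R) - (5 / (4 * R) - η / R) * chi (‖Y k‖ / R)) * (φ σ Y) ^ 2 := by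
    refine Finset.sum_le_sum (fun σ _ => ?_)
    rw [integral_finsetSum _ (fun k _ => hKint σ k)]
    exact Finset.sum_le_sum (fun k _ => (GH_K hCB he hη hR hce (hφ.1 σ) k).2)
  have hid : ∑ σ, ∫ X, (5 / (4 * R) * (z - n + ∑ k, chi (‖X k‖ / R))
        - η / R * (∑ k, chi (‖X k‖ / R)) - (200 * CB / e ^ 2 + 1) / R ^ 2) * (φ σ X) ^ 2
      = (5 / (4 * R) * z - (200 * CB / e ^ 2 + 1) / R ^ 2) * nrm2 φ
        - ∑ σ : Spin n, ∑ k, ∫ Y : Conf n,
          (5 / (4 * R) - (5 / (4 * R) - η / R) * chi (‖Y k‖ / R)) * (φ σ Y) ^ 2 := by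
    unfold nrm2
    rw [Finset.mul_sum, ← Finset.sum_sub_distrib]
    refine Finset.sum_congr rfl (fun σ _ => ?_)
    have hF := hφ.1 σ
    have hw : ∀ k, Integrable (fun Y : Conf n =>
        (5 / (4 * R) - (5 / (4 * R) - η / R) * chi (‖Y k‖ / R)) * (φ σ Y) ^ 2) :=
      fun k => GH_int_w hR hη hF k
    rw [← integral_const_mul, ← integral_finsetSum _ (fun k _ => hw k),
      ← integral_sub (hF.integrable_sq.const_mul _) (integrable_finsetSum _ (fun k _ => hw k))]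
    refine integral_congr_ae (ae_of_all _ (fun Y => ?_))
    dsimp only
    rw [← Finset.sum_mul, Finset.sum_sub_distrib, Finset.sum_const, Finset.card_univ,
      Fintype.card_fin, nsmul_eq_mul, ← Finset.mul_sum]
    ring
  rw [hid]
  have h7 : 200 / e ^ 2 / R ^ 2 * (CB * nrm2 φ) = 200 * CB / e ^ 2 / R ^ 2 * nrm2 φ := by ring
  have h8 : (200 * CB / e ^ 2 + 1) / R ^ 2 * nrm2 φ
      = 200 * CB / e ^ 2 / R ^ 2 * nrm2 φ + 1 / R ^ 2 * nrm2 φ := by ring
  have h9 : 0 ≤ 1 / R ^ 2 * nrm2 φ := by positivity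
  rw [h7] at hrho
  rw [sub_mul, h8]
  have h10 : 5 / (4 * R) * (z * nrm2 φ) = 5 / (4 * R) * z * nrm2 φ := by ring
  rw [h10] at hmono
  linarith

end Ion
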